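import Pool.Agent.TH769.CD.Fin

set_option autoImplicit false

/-!
A finite injury construction for a family of oracles, where the `m`-th requirement treats the
members of a finite class of oracles in the same way; the class is found in the limit.
-/

namespace Pool.Agent.TH769.FB

open Encodable Pool.Agent.Helper227
open Pool.Agent.TH769.CD (bdd_lt)

variable {P : Type}

/-- If there is a computation then there is one with use at most `z`. -/
def Ok (C : ℕ → ℕ → ℕ → P → (ℕ → Prop) → Prop) (s e z : ℕ) (p : P) (v : ℕ → Prop) : Prop :=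
  (∃ u < s + 1, C s e u p v) → ∃ u < z + 1, u < s + 1 ∧ C s e u p v

/-- `u` is the stage at which the current class of `p` was formed -/
def IsSt (Ch : ℕ → ℕ → P → Prop) (m s : ℕ) (p : P) (u : ℕ) : Prop :=
  (u = 0 ∨ Ch m u p) ∧ ∀ s' < s + 1, u < s' → ¬ Ch m s' p

def Cand (E : ℕ → ℕ → ℕ → P → Prop) (C : ℕ → ℕ → ℕ → P → (ℕ → Prop) → Prop)
    (Q : ℕ → ℕ → P → P → Prop) (Ch : ℕ → ℕ → P → Prop) (V : ℕ → P → ℕ → Prop) (m s : ℕ) (p : P)
    (z : ℕ) : Prop :=
  z < s ∧ (∃ u < s + 1, IsSt Ch m s p u ∧ z.unpair.1 = Nat.pair m u) ∧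
  (∃ w, Q m s p w ∧ E s m z w ∧ ∀ y < s, V s w y → ¬ E s m y w) ∧
  ∀ w, Q m s p w → ∀ e < m, Ok C s e z w (V s w)

def Act (E : ℕ → ℕ → ℕ → P → Prop) (C : ℕ → ℕ → ℕ → P → (ℕ → Prop) → Prop)
    (Q : ℕ → ℕ → P → P → Prop) (Ch : ℕ → ℕ → P → Prop) (V : ℕ → P → ℕ → Prop) (m s : ℕ) (p : P)
    (z : ℕ) : Prop :=
  Cand E C Q Ch V m s p z ∧ ∀ z' < z, ¬ Cand E C Q Ch V m s p z'

def Step (E : ℕ → ℕ → ℕ → P → Prop) (C : ℕ → ℕ → ℕ → P → (ℕ → Prop) → Prop)
    (Q : ℕ → ℕ → P → P → Prop) (Ch : ℕ → ℕ → P → Prop) (V : ℕ → P → ℕ → Prop) (s : ℕ) (p : P)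
    (z : ℕ) : Prop :=
  ∃ m < s, Act E C Q Ch V m s p z

/-- the set of `p` before stage `s` -/
def VZ (A : ℕ → P → ℕ → Prop) (s : ℕ) (p : P) (z : ℕ) : Prop := ∃ s' < s, A s' p z

/-- a family of finite classes, a notion of change, and a notion of linked points -/
structure Cls (Q : ℕ → ℕ → P → P → Prop) (Ch : ℕ → ℕ → P → Prop) (Lk : ℕ → ℕ → P → P → Prop) :
    Prop where
  refl : ∀ m s p, Q m s p p
  same : ∀ m s p q, Lk m s p q → ∀ w, (Q m s p w ↔ Q m s q w)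
  chg : ∀ m s p q, Lk m s p q → (Ch m s p ↔ Ch m s q)
  dn : ∀ m s p q, Lk m s p q → ¬ Ch m s p → Lk m (s - 1) p q
  up : ∀ m s p q, Lk m s p q → ¬ Ch m (s + 1) p → Lk m (s + 1) p q
  lim : ∀ m p, ∃ B : Set P, B.Finite ∧ p ∈ B ∧ ∃ s0 : ℕ, ∀ s ≥ s0, ∀ w ∈ B,
    (∀ q, (Q m s w q ↔ q ∈ B)) ∧ ¬ Ch m s w ∧ Lk m s p w

structure Sys (E : ℕ → ℕ → ℕ → P → Prop) (C : ℕ → ℕ → ℕ → P → (ℕ → Prop) → Prop)
    (Q : ℕ → ℕ → P → P → Prop) (Ch : ℕ → ℕ → P → Prop) (Lk : ℕ → ℕ → P → P → Prop)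
    (A : ℕ → P → ℕ → Prop) : Prop where
  cls : Cls Q Ch Lk
  hA : ∀ s p z, A s p z ↔ Step E C Q Ch (VZ A) s p z
  monoE : ∀ s s' n z p, s ≤ s' → E s n z p → E s' n z p
  locC : ∀ s s' e u p v v', C s e u p v → s ≤ s' → (∀ y < u, (v y ↔ v' y)) → C s' e u p v'

section

variable {E : ℕ → ℕ → ℕ → P → Prop} {C : ℕ → ℕ → ℕ → P → (ℕ → Prop) → Prop}
  {Q : ℕ → ℕ → P → P → Prop} {Ch : ℕ → ℕ → P → Prop} {Lk : ℕ → ℕ → P → P → Prop}
  {A : ℕ → P → ℕ → Prop} {V : ℕ → P → ℕ → Prop}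

/-- linked points stay linked back to the start stage -/
theorem lk_down (hQ : Cls Q Ch Lk) {m s u : ℕ} {p q : P} (hu : u ≤ s)
    (h : ∀ s' < s + 1, u < s' → ¬ Ch m s' p) (hl : Lk m s p q) : Lk m u p q := by
  induction s with
  | zero =>
    have : u = 0 := by omega
    subst this
    exact hl
  | succ s ih =>
    rcases Nat.lt_or_ge s u with h1 | h1
    · have : u = s + 1 := by omega
      subst this
      exact hl
    · have h2 := hQ.dn m (s + 1) p q hl (h (s + 1) (by omega) (by omega))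
      rw [Nat.add_sub_cancel] at h2
      exact ih h1 (fun s' hs' hlt => h s' (by omega) hlt) h2

theorem isSt_class (hQ : Cls Q Ch Lk) {m s u : ℕ} {p q : P} (hu : u ≤ s) (h : IsSt Ch m s p u)
    (hpq : Lk m s p q) : IsSt Ch m s q u := by
  have h0 : ∀ s', u ≤ s' → s' ≤ s → Lk m s' p q := by
    intro s' h1 h2
    exact lk_down hQ h2 (fun t ht hlt => h.2 t ht (by omega)) hpq
  refine ⟨?_, fun s' hs' hlt hc => ?_⟩
  · rcases h.1 with h1 | h1
    · exact Or.inl h1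
    · exact Or.inr ((hQ.chg _ _ _ _ (h0 u le_rfl hu)).1 h1)
  · exact h.2 s' hs' hlt ((hQ.chg _ _ _ _ (h0 s' hlt.le (by omega))).2 hc)

theorem isSt_iff (hQ : Cls Q Ch Lk) {m s u : ℕ} {p q : P} (hu : u ≤ s)
    (hpq : Lk m s p q) : IsSt Ch m s q u ↔ IsSt Ch m s p u := by
  refine ⟨fun h => ?_, fun h => isSt_class hQ hu h hpq⟩
  -- go back along `p`
  obtain ⟨h1, h2⟩ := h
  have key : ∀ k ≤ s - u, ∀ s', s - k ≤ s' → s' ≤ s → u < s' → ¬ Ch m s' p := by
    intro k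
    induction k with
    | zero =>
      intro _ s' g1 g2 g3
      have : s' = s := by omega
      subst this
      exact fun hc => h2 s' (by omega) g3 ((hQ.chg _ _ _ _ hpq).1 hc)
    | succ k ih =>
      intro hk s' g1 g2 g3
      have h3 : Lk m s' p q := lk_down hQ g2 (fun t ht hlt => ih (by omega) t (by omega)
        (by omega) (by omega)) hpq
      exact fun hc => h2 s' (by omega) g3 ((hQ.chg _ _ _ _ h3).1 hc)
  have h3 : ∀ s' < s + 1, u < s' → ¬ Ch m s' p := fun s' g1 g2 =>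
    key (s - u) le_rfl s' (by omega) (by omega) g2
  refine ⟨?_, h3⟩
  rcases h1 with h1 | h1
  · exact Or.inl h1
  · exact Or.inr ((hQ.chg _ _ _ _ (lk_down hQ hu h3 hpq)).2 h1)

theorem st_exists (m s : ℕ) (p : P) : ∃ u ≤ s, IsSt Ch m s p u := by
  induction s with
  | zero => exact ⟨0, le_rfl, Or.inl rfl, fun s' h1 h2 => by omega⟩
  | succ s ih =>
    by_cases hc : Ch m (s + 1) p
    · exact ⟨s + 1, le_rfl, Or.inr hc, fun s' h1 h2 => by omega⟩
    · obtain ⟨u, hu, h1, h2⟩ := ih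
      refine ⟨u, by omega, h1, fun s' h3 h4 => ?_⟩
      rcases Nat.lt_succ_iff_lt_or_eq.1 h3 with h5 | h5
      · exact h2 s' h5 h4
      · rw [h5]
        exact hc

theorem cand_class (hQ : Cls Q Ch Lk) {m s : ℕ} {p q : P} {z : ℕ} (hpq : Lk m s p q) :
    Cand E C Q Ch V m s p z ↔ Cand E C Q Ch V m s q z := by
  unfold Cand
  refine and_congr Iff.rfl (and_congr ?_ (and_congr ?_ ?_))
  · exact exists_congr fun u => and_congr_right fun hu => by
      rw [isSt_iff hQ (Nat.lt_succ_iff.1 hu) hpq]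
  · exact exists_congr fun w => by rw [hQ.same _ _ _ _ hpq]
  · exact forall_congr' fun w => by rw [hQ.same _ _ _ _ hpq]

theorem act_class (hQ : Cls Q Ch Lk) {m s : ℕ} {p q : P} {z : ℕ} (hpq : Lk m s p q) :
    Act E C Q Ch V m s p z ↔ Act E C Q Ch V m s q z :=
  and_congr (cand_class hQ hpq) (forall_congr' fun z' => forall_congr' fun _ =>
    not_congr (cand_class hQ hpq))

/-- The requirement `m` acts only finitely often for `p`. -/
theorem acts_finite (hS : Sys E C Q Ch Lk A) (m : ℕ) (p : P) :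
    ∃ s0, ∀ s ≥ s0, ∀ z, ¬ Cand E C Q Ch (VZ A) m s p z := by
  classical
  obtain ⟨B, hBf, hpB, s1, hB⟩ := hS.cls.lim m p
  let Bad : Set ℕ := {s | s1 ≤ s ∧ m < s ∧ ∃ z, Cand E C Q Ch (VZ A) m s p z}
  have key : ∀ s, ∃ q, s ∈ Bad → q ∈ B ∧ ∃ z, E s m z q ∧ A s q z ∧ z < s ∧
      ∀ y < s, VZ A s q y → ¬ E s m y q := by
    intro s
    by_cases hs : s ∈ Bad
    · obtain ⟨h1, h2, hz⟩ := hs
      have hmin : ∀ z' < Nat.find hz, ¬ Cand E C Q Ch (VZ A) m s p z' :=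
        fun z' h' => Nat.find_min hz h'
      have hc := Nat.find_spec hz
      generalize Nat.find hz = z at hmin hc
      obtain ⟨h3, -, ⟨w, hw, hE, hy⟩, -⟩ := id hc
      have hwB : w ∈ B := ((hB s h1 p hpB).1 w).1 hw
      refine ⟨w, fun _ => ⟨hwB, z, hE, ?_, h3, hy⟩⟩
      exact (hS.hA s w z).2 ⟨m, h2, (act_class hS.cls (hB s h1 w hwB).2.2).1 ⟨hc, hmin⟩⟩
    · exact ⟨p, fun h => absurd h hs⟩
  choose f hf using key
  have hne : ∀ s s', s ∈ Bad → s' ∈ Bad → s < s' → f s ≠ f s' := by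
    intro s s' hs hs' hss he
    obtain ⟨-, z, hE, hA1, hz, -⟩ := hf s hs
    obtain ⟨-, z', -, -, -, hy'⟩ := hf s' hs'
    rw [← he] at hy'
    exact hy' z (by omega) ⟨s, hss, hA1⟩ (hS.monoE s s' m z _ hss.le hE)
  have hinj : Set.InjOn f Bad := by
    intro s hs s' hs' he
    by_contra hn
    rcases lt_or_gt_of_ne hn with h | h
    · exact hne s s' hs hs' h he
    · exact hne s' s hs' hs h he.symm
  have hmaps : Set.MapsTo f Bad B := fun s hs => (hf s hs).1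
  have hfin : Bad.Finite := Set.Finite.of_injOn hmaps hinj hBf
  obtain ⟨b, hb⟩ := hfin.bddAbove
  refine ⟨max (b + 1) (max s1 (m + 1)), fun s hs z hz => ?_⟩
  have h3 : s ∈ Bad := ⟨by omega, by omega, z, hz⟩
  have h4 := hb h3
  omega

/-- From some stage on the computations for `e` are preserved. -/
theorem keep (hS : Sys E C Q Ch Lk A) (e : ℕ) (p : P) :
    ∃ s0, ∀ s ≥ s0, ∀ t ≥ s, ∀ z, (∃ u < z + 1, u < s + 1 ∧ C s e u p (VZ A s p)) →
      ∃ u < z + 1, u < t + 1 ∧ C t e u p (VZ A t p) := by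
  classical
  obtain ⟨s0, h0⟩ := bdd_lt (e + 1) (fun m s => ∀ z, ¬ Cand E C Q Ch (VZ A) m s p z)
    (fun m _ => acts_finite hS m p)
  refine ⟨s0, fun s hs t ht => ?_⟩
  induction t, ht using Nat.le_induction with
  | base => exact fun z h => h
  | succ t ht ih =>
    intro z hz
    obtain ⟨u, hu1, hu2, hu3⟩ := ih z hz
    have hex : ∃ u, C t e u p (VZ A t p) := ⟨u, hu3⟩
    have hle : Nat.find hex ≤ u := Nat.find_min' hex hu3
    have hmin : ∀ u' < Nat.find hex, ¬ C t e u' p (VZ A t p) := fun u' h' => Nat.find_min hex h'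
    have hsp := Nat.find_spec hex
    generalize Nat.find hex = u0 at hle hmin hsp
    refine ⟨u0, by omega, by omega, hS.locC t (t + 1) e u0 p _ _ hsp (Nat.le_succ t)
      fun y hy => ⟨fun ⟨s', h1, h2⟩ => ⟨s', by omega, h2⟩, ?_⟩⟩
    rintro ⟨s', h1, h2⟩
    rcases Nat.lt_succ_iff_lt_or_eq.1 h1 with h3 | h3
    · exact ⟨s', h3, h2⟩
    · exfalso
      subst h3
      obtain ⟨m, hm, hact⟩ := (hS.hA s' p y).1 h2
      have hme : e < m := by
        by_contra hc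
        exact h0 m (by omega) s' (by omega) y hact.1
      have hok := hact.1.2.2.2 p (hS.cls.refl _ _ _) e hme
      obtain ⟨u', g1, g2, g3⟩ := hok ⟨u0, by omega, hsp⟩
      exact hmin u' (by omega) g3

theorem okbound (hS : Sys E C Q Ch Lk A) (e : ℕ) (p : P) :
    ∃ R, ∀ z ≥ R, ∀ s, Ok C s e z p (VZ A s p) := by
  obtain ⟨s0, h0⟩ := keep hS e p
  by_cases hcase : ∃ s1 ≥ s0, ∃ u < s1 + 1, C s1 e u p (VZ A s1 p)
  · obtain ⟨s1, hs1, u1, hu1, hC1⟩ := hcase
    refine ⟨s1, fun z hz s => ?_⟩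
    rintro ⟨u, hu, hC⟩
    by_cases hlt : s < s1
    · exact ⟨u, by omega, hu, hC⟩
    · exact h0 s1 hs1 s (by omega) z ⟨u1, by omega, hu1, hC1⟩
  · refine ⟨s0, fun z hz s => ?_⟩
    rintro ⟨u, hu, hC⟩
    by_cases hlt : s < s0
    · exact ⟨u, by omega, hu, hC⟩
    · exact absurd ⟨s, by omega, u, hu, hC⟩ hcase

/-- The complement of the set is not the `n`-th set. -/
theorem pos (hS : Sys E C Q Ch Lk A) (n : ℕ) (p : P) (h1 : ∀ z, (∀ s, ¬ A s p z) → ∃ t, E t n z p)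
    (h2 : ∀ z s, A s p z → ∀ t, ¬ E t n z p) : False := by
  classical
  obtain ⟨B, hBf, hpB, s1, hB⟩ := hS.cls.lim n p
  obtain ⟨s2, hs2⟩ := acts_finite hS n p
  obtain ⟨R, hR⟩ : ∃ R, ∀ w ∈ B, ∀ z ≥ R, ∀ e < n, ∀ s, Ok C s e z w (VZ A s w) := by
    have : ∀ w ∈ B, ∃ R, ∀ z ≥ R, ∀ e < n, ∀ s, Ok C s e z w (VZ A s w) := by
      intro w _
      obtain ⟨R, hR⟩ := bdd_lt n (fun e z => ∀ s, Ok C s e z w (VZ A s w))
        (fun e _ => okbound hS e w)
      exact ⟨R, fun z hz e he => hR e he z hz⟩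
    have h5 := (Set.Finite.bddAbove (hBf.image fun w =>
      if h : w ∈ B then Classical.choose (this w h) else 0))
    obtain ⟨R, hR⟩ := h5
    refine ⟨R, fun w hw z hz e he s => ?_⟩
    have h6 := hR ⟨w, hw, rfl⟩
    simp only [hw, dite_true] at h6
    exact Classical.choose_spec (this w hw) z (by omega) e he s
  obtain ⟨u, hu, hst⟩ := st_exists (Ch := Ch) n s1 p
  have hst' : ∀ s ≥ s1, IsSt Ch n s p u := by
    intro s hs
    refine ⟨hst.1, fun s' h3 h4 => ?_⟩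
    by_cases h5 : s' < s1 + 1
    · exact hst.2 s' h5 h4
    · exact (hB s' (by omega) p hpB).2.1
  obtain ⟨z, hzc, hz⟩ : ∃ z : ℕ, z.unpair.1 = Nat.pair n u ∧ max s2 R ≤ z :=
    ⟨Nat.pair (Nat.pair n u) (max s2 R), by rw [Nat.unpair_pair], Nat.right_le_pair _ _⟩
  have hzV : ∀ s, ¬ A s p z := by
    intro s hs
    obtain ⟨m, hm, hact⟩ := (hS.hA s p z).1 hs
    obtain ⟨h3, ⟨u', hu', -, h4⟩, -⟩ := hact.1
    rw [hzc] at h4
    have h5 := congrArg Nat.unpair h4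
    rw [Nat.unpair_pair, Nat.unpair_pair] at h5
    have h6 : n = m := congrArg Prod.fst h5
    subst h6
    exact hs2 s (by omega) z hact.1
  obtain ⟨t0, ht0⟩ := h1 z hzV
  refine hs2 (max (max s1 s2) (max t0 (z + 1))) (by omega) z
    ⟨by omega, ⟨u, by omega, hst' _ (by omega), hzc⟩, ⟨p, hS.cls.refl _ _ _,
      hS.monoE t0 _ n z p (by omega) ht0, fun y _ hV => ?_⟩, fun w hw e he => ?_⟩
  · obtain ⟨q, -, hq⟩ := hV
    exact h2 y q hq _
  · exact hR w (((hB _ (by omega) p hpB).1 w).1 hw) z (by omega) e he _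

/-- In a column in which `p` and `q` are linked, the sets of `p` and `q` agree. -/
theorem inv_good (hS : Sys E C Q Ch Lk A) {m u z : ℕ} {p q : P} (hz : z.unpair.1 = Nat.pair m u)
    (hQ : Lk m u p q) (s : ℕ) (h : A s p z) : A s q z := by
  obtain ⟨m', hm', hact⟩ := (hS.hA s p z).1 h
  obtain ⟨h3, ⟨u', hu', hst, h4⟩, -⟩ := hact.1
  rw [hz] at h4
  have h5 := congrArg Nat.unpair h4
  rw [Nat.unpair_pair, Nat.unpair_pair] at h5
  have h6 : m = m' := congrArg Prod.fst h5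
  have h7 : u = u' := congrArg Prod.snd h5
  subst h6
  subst h7
  have h8 : ∀ s', u ≤ s' → s' ≤ s → Lk m s' p q := by
    intro s' g1
    induction s', g1 using Nat.le_induction with
    | base => exact fun _ => hQ
    | succ s' g1 ih =>
      intro g2
      exact hS.cls.up _ _ _ _ (ih (by omega)) (hst.2 (s' + 1) (by omega) (by omega))
  exact (hS.hA s q z).2 ⟨m, hm', (act_class hS.cls (h8 s (by omega) le_rfl)).1 hact⟩

/-- After a change of the class nothing is put into the old column. -/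
theorem inv_bad (hS : Sys E C Q Ch Lk A) {m u z s : ℕ} {p : P} (hz : z.unpair.1 = Nat.pair m u)
    (hus : u < s) (hc : Ch m s p) (t : ℕ) (h : A t p z) : t < s := by
  obtain ⟨m', hm', hact⟩ := (hS.hA t p z).1 h
  obtain ⟨h3, ⟨u', hu', hst, h4⟩, -⟩ := hact.1
  rw [hz] at h4
  have h5 := congrArg Nat.unpair h4
  rw [Nat.unpair_pair, Nat.unpair_pair] at h5
  have h6 : m = m' := congrArg Prod.fst h5
  have h7 : u = u' := congrArg Prod.snd h5
  subst h6
  subst h7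
  by_contra hts
  exact hst.2 s (by omega) hus hc

/-- For each level only finitely many elements are put in. -/
theorem level_finite (hS : Sys E C Q Ch Lk A) (m : ℕ) (p : P) : ∃ N, ∀ z s, A s p z →
    z.unpair.1.unpair.1 = m → z < N := by
  obtain ⟨s0, hs0⟩ := acts_finite hS m p
  refine ⟨s0, fun z s h hz => ?_⟩
  obtain ⟨m', hm', hact⟩ := (hS.hA s p z).1 h
  obtain ⟨h3, ⟨u', hu', hst, h4⟩, -⟩ := hact.1
  rw [h4, Nat.unpair_pair] at hz
  simp only at hz
  subst hz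
  by_contra hc
  exact hs0 s (by omega) z hact.1

/-- If there is no later change then linked points have always been linked. -/
theorem no_chg (hS : Sys E C Q Ch Lk A) {m u : ℕ} {p q : P} (hn : ∀ s, u < s → ¬ Ch m s p)
    (hl : ∃ s0, ∀ s ≥ s0, Lk m s p q) : ∀ s ≥ u, Lk m s p q := by
  obtain ⟨s0, hs0⟩ := hl
  intro s hs
  exact lk_down hS.cls (s := max s0 s) (by omega) (fun s' _ h2 => hn s' (by omega))
    (hs0 _ (by omega))

end

end Pool.Agent.TH769.FB
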