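import Pool.Agent.TH769.FB.Mrk
import Pool.Agent.TH769.LH.Cst

set_option autoImplicit false

/-!
The classes, and the construction.
-/

namespace Pool.Agent.TH769.FB

open Encodable Pool.Agent.Helper227 Pool.Agent.H548R2.Post
open Pool.Agent.TH769.CD (jp jp_congr bdd_lt)
open Pool.Agent.TH769.LH (Dyn R vr dyn EY CY CY_congr)

/-- a bound for the distance to the representative -/
def bb (m : ℕ) : ℕ := (m + 1) * m

section defs

variable {I : Type} (v : ℕ → I → ℕ) (ap : ℕ → I → I)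

/-- apply the maps `ap (c + 1)` for the letters `c` of `τ` -/
def cat (τ : List ℕ) (z : I) : I := τ.foldr (fun c x => ap (c + 1) x) z

/-- all steps of the word satisfy the relation `E` -/
def vE (E : I → I → Prop) (τ : List ℕ) (z : I) : Prop :=
  ∀ i < τ.length, E (ap 0 (cat ap (τ.drop i) z)) (cat ap (τ.drop (i + 1)) z)

/-- all steps of the word look right at stage `s` -/
def vd (s : ℕ) (τ : List ℕ) (z : I) : Prop := vE ap (fun x y => v s x = v s y) τ z

/-- all steps of the word are right -/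
def Tv (τ : List ℕ) (z : I) : Prop := vE ap (fun x y => x = y) τ z

def MemG (m s h : ℕ) (y : I) (a : ℕ) (τ : List ℕ) : Prop :=
  a ≤ h ∧ vd v ap s τ (mva ap a y) ∧ gk v ap m s (cat ap τ (mva ap a y)) + a = τ.length + h

def EC (m s t h : ℕ) (y : I) (Ψ : Prop → I → Prop) : Prop :=
  ∃ a τ, (∀ c ∈ τ, c < m + 1) ∧ MemG v ap m s h y a τ ∧
    Ψ (vd v ap t τ (mva ap a y)) (cat ap τ (mva ap a y))

/-- `q` is in the class of `p` -/
def Q (m s : ℕ) (p q : I) : Prop := EC v ap m s s (gk v ap m s p) p (fun _ x => q = x)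

def PC (m s : ℕ) (V : Prop) (x : I) : Prop := ¬ V ∨ gk v ap m (s - 1) x ≠ gk v ap m s x

/-- the class of `p` changes at stage `s` -/
def Ch (m s : ℕ) (p : I) : Prop :=
  EC v ap m (s - 1) s (gk v ap m (s - 1) p) p (PC v ap m s) ∨
  EC v ap m s s (gk v ap m s p) p (PC v ap m s)

/-- `τ` is a path from `p` to `y` -/
def Pth (m : ℕ) (τ : List ℕ) (p y : I) : Prop :=
  (∀ c ∈ τ, c < m + 1) ∧ cat ap τ y = p ∧ Tv ap τ y

/-- `p` and `q` are linked -/
def Lk (m s : ℕ) (p q : I) : Prop :=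
  ∃ y τ τ', Pth ap m τ p y ∧ Pth ap m τ' q y ∧ τ.length ≤ gk v ap m s p ∧
    τ'.length ≤ gk v ap m s q ∧ gk v ap m s p - τ.length = gk v ap m s q - τ'.length

end defs

section

variable {I : Type} {v : ℕ → I → ℕ} {ap : ℕ → I → I}

theorem cat_append (τ τ' : List ℕ) (z : I) : cat ap (τ ++ τ') z = cat ap τ (cat ap τ' z) := by
  unfold cat
  rw [List.foldr_append]

theorem vE_nil {E : I → I → Prop} (z : I) : vE ap E [] z := fun i hi => absurd hi (Nat.not_lt_zero i)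

theorem vE_cons {E : I → I → Prop} {c : ℕ} {τ : List ℕ} {z : I} :
    vE ap E (c :: τ) z ↔ E (ap 0 (cat ap (c :: τ) z)) (cat ap τ z) ∧ vE ap E τ z := by
  unfold vE
  constructor
  · intro h
    refine ⟨h 0 (by simp), fun i hi => ?_⟩
    exact h (i + 1) (by simpa using hi)
  · rintro ⟨h1, h2⟩ i hi
    rcases Nat.eq_zero_or_pos i with h | h
    · subst h
      exact h1
    · obtain ⟨i', rfl⟩ : ∃ i', i = i' + 1 := ⟨i - 1, by omega⟩
      exact h2 i' (by simpa using hi)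

theorem vE_append {E : I → I → Prop} {τ τ' : List ℕ} {z : I} :
    vE ap E (τ ++ τ') z ↔ vE ap E τ (cat ap τ' z) ∧ vE ap E τ' z := by
  induction τ with
  | nil => exact ⟨fun h => ⟨vE_nil _, h⟩, fun h => h.2⟩
  | cons c τ ih =>
    rw [List.cons_append, vE_cons, vE_cons, ih, ← List.cons_append, cat_append, cat_append]
    tauto

theorem vd_of_Tv {s : ℕ} {τ : List ℕ} {z : I} (h : Tv ap τ z) : vd v ap s τ z :=
  fun i hi => congrArg (v s) (h i hi)

theorem Tv_drop {τ : List ℕ} {z : I} (h : Tv ap τ z) (a : ℕ) : Tv ap (τ.drop a) z := by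
  have h1 := h
  rw [← List.take_append_drop a τ] at h1
  exact (vE_append.1 h1).2

theorem Pth.mva {m : ℕ} {τ : List ℕ} {p y : I} (h : Pth ap m τ p y) {i : ℕ} (hi : i ≤ τ.length) :
    mva ap i p = cat ap (τ.drop i) y := by
  induction i with
  | zero => exact h.2.1.symm
  | succ i ih =>
    rw [mva_succ', ih (by omega)]
    exact h.2.2 i (by omega)

theorem Pth.end_eq {m : ℕ} {τ : List ℕ} {p y : I} (h : Pth ap m τ p y) :
    FB.mva ap τ.length p = y := by
  rw [h.mva le_rfl, List.drop_length]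
  rfl

theorem EC_path {m s t h : ℕ} {τ0 : List ℕ} {p y : I} {Ψ : Prop → I → Prop}
    (hp : Pth ap m τ0 p y) (hh : τ0.length ≤ h) :
    EC v ap m s t h p Ψ ↔ EC v ap m s t (h - τ0.length) y Ψ := by
  have hy := hp.end_eq
  constructor
  · rintro ⟨a, τ, h1, ⟨h2, h3, h4⟩, h5⟩
    rcases Nat.le_total τ0.length a with ha | ha
    · have e : mva ap a p = mva ap (a - τ0.length) y := by
        rw [← hy, mva_add, Nat.sub_add_cancel ha]
      rw [e] at h3 h4 h5
      exact ⟨a - τ0.length, τ, h1, ⟨by omega, h3, by omega⟩, h5⟩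
    · have e := hp.mva ha
      rw [e] at h3 h4 h5
      have hT : Tv ap (τ0.drop a) y := Tv_drop hp.2.2 a
      refine ⟨0, τ ++ τ0.drop a, fun c hc => ?_, ⟨Nat.zero_le _, ?_, ?_⟩, ?_⟩
      · rcases List.mem_append.1 hc with h6 | h6
        · exact h1 c h6
        · exact hp.1 c (List.mem_of_mem_drop h6)
      · exact vE_append.2 ⟨h3, vd_of_Tv hT⟩
      · rw [mva_zero, cat_append, List.length_append, List.length_drop]
        omega
      · rw [mva_zero, cat_append]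
        have e2 : vd v ap t (τ ++ τ0.drop a) y = vd v ap t τ (cat ap (τ0.drop a) y) :=
          propext ⟨fun h => (vE_append.1 h).1, fun h => vE_append.2 ⟨h, vd_of_Tv hT⟩⟩
        rw [e2]
        exact h5
  · rintro ⟨a, τ, h1, ⟨h2, h3, h4⟩, h5⟩
    have e : mva ap (a + τ0.length) p = mva ap a y := by rw [← mva_add, hy]
    refine ⟨a + τ0.length, τ, h1, ⟨by omega, ?_, ?_⟩, ?_⟩
    · rw [e]
      exact h3
    · rw [e]
      omega
    · rw [e]
      exact h5

theorem memG_self (m s : ℕ) (p : I) : MemG v ap m s (gk v ap m s p) p 0 [] :=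
  ⟨Nat.zero_le _, vE_nil _, by rw [mva_zero]; exact Nat.add_comm _ _⟩

theorem noch_at {m s : ℕ} {p : I} (h : ¬ Ch v ap m s p) {a : ℕ} {τ : List ℕ}
    (hτ : ∀ c ∈ τ, c < m + 1) (hM : MemG v ap m (s - 1) (gk v ap m (s - 1) p) p a τ ∨
      MemG v ap m s (gk v ap m s p) p a τ) :
    gk v ap m (s - 1) (cat ap τ (mva ap a p)) = gk v ap m s (cat ap τ (mva ap a p)) := by
  by_contra hc
  refine h ?_
  rcases hM with hM | hM
  · exact Or.inl ⟨a, τ, hτ, hM, Or.inr hc⟩
  · exact Or.inr ⟨a, τ, hτ, hM, Or.inr hc⟩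

theorem gk_same {m s : ℕ} {p : I} (h : ¬ Ch v ap m s p) :
    gk v ap m (s - 1) p = gk v ap m s p :=
  noch_at h (a := 0) (τ := []) (fun c hc => absurd hc (by simp)) (Or.inr (memG_self m s p))

theorem Lk.symm {m s : ℕ} {p q : I} (h : Lk v ap m s p q) : Lk v ap m s q p := by
  obtain ⟨y, τ, τ', h1, h2, h3, h4, h5⟩ := h
  exact ⟨y, τ', τ, h2, h1, h4, h3, h5.symm⟩

theorem lk_code {m s : ℕ} {p q y : I} {τ τ' : List ℕ} (hp : Pth ap m τ p y)
    (hq : Pth ap m τ' q y) (h1 : τ.length ≤ gk v ap m s p) (h2 : τ'.length ≤ gk v ap m s q)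
    (h3 : gk v ap m s p - τ.length = gk v ap m s q - τ'.length) :
    MemG v ap m s (gk v ap m s p) p τ.length τ' ∧ cat ap τ' (mva ap τ.length p) = q := by
  have e1 := hp.end_eq
  have e2 : cat ap τ' (mva ap τ.length p) = q := by rw [e1]; exact hq.2.1
  refine ⟨⟨h1, ?_, ?_⟩, e2⟩
  · rw [e1]
    exact vd_of_Tv hq.2.2
  · rw [e2]
    omega

theorem lk_dn {m s : ℕ} {p q : I} (h : Lk v ap m s p q) (hc : ¬ Ch v ap m s p) :
    Lk v ap m (s - 1) p q ∧ gk v ap m (s - 1) p = gk v ap m s p ∧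
      gk v ap m (s - 1) q = gk v ap m s q := by
  obtain ⟨y, τ, τ', h1, h2, h3, h4, h5⟩ := h
  have h6 := gk_same hc
  obtain ⟨h7, h8⟩ := lk_code h1 h2 h3 h4 h5
  have h9 := noch_at hc h2.1 (Or.inr h7)
  rw [h8] at h9
  exact ⟨⟨y, τ, τ', h1, h2, by omega, by omega, by omega⟩, h6, h9⟩

theorem lk_up {m s : ℕ} {p q : I} (h : Lk v ap m s p q) (hc : ¬ Ch v ap m (s + 1) p) :
    Lk v ap m (s + 1) p q := by
  obtain ⟨y, τ, τ', h1, h2, h3, h4, h5⟩ := h
  have h6 := gk_same hc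
  obtain ⟨h7, h8⟩ := lk_code h1 h2 h3 h4 h5
  have h9 := noch_at hc h2.1 (Or.inl h7)
  rw [h8] at h9
  rw [Nat.add_sub_cancel] at h6 h9
  exact ⟨y, τ, τ', h1, h2, by omega, by omega, by omega⟩

theorem lk_same {m s : ℕ} {p q : I} (h : Lk v ap m s p q) (w : I) :
    Q v ap m s p w ↔ Q v ap m s q w := by
  obtain ⟨y, τ, τ', h1, h2, h3, h4, h5⟩ := h
  unfold Q
  rw [EC_path h1 h3, EC_path h2 h4, h5]

theorem lk_chg {m s : ℕ} {p q : I} (h : Lk v ap m s p q) (hq : Ch v ap m s q) :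
    Ch v ap m s p := by
  by_contra hc
  obtain ⟨-, e1, e2⟩ := lk_dn h hc
  obtain ⟨y, τ, τ', h1, h2, h3, h4, h5⟩ := h
  refine hc ?_
  unfold Ch at hq ⊢
  rw [EC_path h1 (h := gk v ap m (s - 1) p) (by omega), EC_path h1 h3,
    show gk v ap m (s - 1) p - τ.length = gk v ap m (s - 1) q - τ'.length by omega, h5,
    ← EC_path h2 (h := gk v ap m (s - 1) q) (by omega), ← EC_path h2 h4]
  exact hq

/-! Words. -/

theorem TE_path {m : ℕ} {p : I} (n : ℕ) (h : ∀ t < n, TE ap m (mva ap t p)) :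
    ∃ τ : List ℕ, τ.length = n ∧ Pth ap m τ p (mva ap n p) := by
  induction n with
  | zero => exact ⟨[], rfl, fun c hc => absurd hc (by simp), rfl, vE_nil _⟩
  | succ n ih =>
    obtain ⟨τ, h1, h2, h3, h4⟩ := ih fun t ht => h t (by omega)
    obtain ⟨c, hc, h5⟩ := h n (Nat.lt_succ_self n)
    have e : cat ap [c] (mva ap (n + 1) p) = mva ap n p := by
      rw [mva_succ']
      exact h5
    refine ⟨τ ++ [c], by simp [h1], fun x hx => ?_, ?_, vE_append.2 ⟨?_, vE_cons.2 ⟨?_, vE_nil _⟩⟩⟩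
    · rcases List.mem_append.1 hx with h6 | h6
      · exact h2 x h6
      · rw [List.mem_singleton.1 h6]
        exact hc
    · rw [cat_append, e, h3]
    · rw [e]
      exact h4
    · show ap 0 (cat ap [c] (mva ap (n + 1) p)) = mva ap (n + 1) p
      rw [e, mva_succ']

/-- the word with the `l` digits of `w` in base `b` -/
def dg (b l w : ℕ) : List ℕ := (List.range l).map fun i => w / b ^ i % b

theorem dg_length (b l w : ℕ) : (dg b l w).length = l := by simp [dg]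

theorem dg_lt {b : ℕ} (hb : 0 < b) (l w : ℕ) : ∀ c ∈ dg b l w, c < b := by
  intro c hc
  unfold dg at hc
  obtain ⟨i, -, rfl⟩ := List.mem_map.1 hc
  exact Nat.mod_lt _ hb

theorem dg_succ (b l w : ℕ) : dg b (l + 1) w = (w % b) :: dg b l (w / b) := by
  unfold dg
  rw [List.range_succ_eq_map, List.map_cons, List.map_map, pow_zero, Nat.div_one]
  refine congrArg _ (List.map_congr_left fun i _ => ?_)
  simp only [Function.comp, Nat.succ_eq_add_one]
  rw [pow_succ', Nat.div_div_eq_div_mul]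

theorem exists_dg {b : ℕ} {τ : List ℕ} (h : ∀ c ∈ τ, c < b) :
    ∃ w < b ^ τ.length, dg b τ.length w = τ := by
  induction τ with
  | nil => exact ⟨0, by simp, rfl⟩
  | cons c τ ih =>
    obtain ⟨w, hw, h1⟩ := ih fun x hx => h x (List.mem_cons_of_mem _ hx)
    have hc : c < b := h c (by simp)
    refine ⟨c + b * w, ?_, ?_⟩
    · have h2 : b * (w + 1) ≤ b * b ^ τ.length := Nat.mul_le_mul le_rfl hw
      rw [List.length_cons, pow_succ']
      rw [Nat.mul_add, Nat.mul_one] at h2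
      omega
    · have e1 : (c + b * w) % b = c := by
        rw [Nat.add_mul_mod_self_left, Nat.mod_eq_of_lt hc]
      have e2 : (c + b * w) / b = w := by
        rw [Nat.add_mul_div_left _ _ (by omega), Nat.div_eq_of_lt hc, Nat.zero_add]
      rw [List.length_cons, dg_succ, e1, e2, h1]

theorem words_finite (b n : ℕ) : {τ : List ℕ | (∀ c ∈ τ, c < b) ∧ τ.length ≤ n}.Finite := by
  classical
  refine (((Finset.range (n + 1)).finite_toSet).biUnion
    (t := fun l => (fun w => dg b l w) '' (Finset.range (b ^ l) : Set ℕ))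
    fun l _ => (Finset.finite_toSet _).image _).subset ?_
  rintro τ ⟨h1, h2⟩
  obtain ⟨w, hw, he⟩ := exists_dg h1
  refine Set.mem_biUnion (x := τ.length) (by simpa using Nat.lt_succ_of_le h2) ⟨w, by simpa using hw, he⟩

theorem v_lim (hd : Dyn v (mva ap)) {p q : I} (h : p ≠ q) : ∃ s0, ∀ s ≥ s0, v s p ≠ v s q := by
  by_contra hcon
  push Not at hcon
  refine h (hd.ext _ _ fun m => ?_)
  obtain ⟨b, hb, he⟩ := hcon m
  exact le_antisymm (hd.down m b _ _ hb he.le) (hd.down m b _ _ hb he.ge)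

theorem vd_lim (hd : Dyn v (mva ap)) (τ : List ℕ) (z : I) :
    ∃ s0, ∀ s ≥ s0, (vd v ap s τ z ↔ Tv ap τ z) := by
  by_cases h : Tv ap τ z
  · exact ⟨0, fun s _ => ⟨fun _ => h, fun _ => vd_of_Tv h⟩⟩
  · have h0 := h
    unfold Tv vE at h0
    push Not at h0
    obtain ⟨i, hi, hne⟩ := h0
    obtain ⟨s0, hs0⟩ := v_lim hd hne
    exact ⟨s0, fun s hs => ⟨fun h1 => absurd (h1 i hi) (hs0 s hs), fun h1 => absurd h1 h⟩⟩

theorem cls_lim (hd : Dyn v (mva ap)) (m : ℕ) (p : I) : ∃ B : Set I, B.Finite ∧ p ∈ B ∧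
    ∃ s0 : ℕ, ∀ s ≥ s0, ∀ w ∈ B,
      (∀ q, (Q v ap m s w q ↔ q ∈ B)) ∧ ¬ Ch v ap m s w ∧ Lk v ap m s p w := by
  classical
  obtain ⟨τp, hpl, hpp⟩ := TE_path (TG hd m p) fun t ht => TG_edges hd ht
  generalize mva ap (TG hd m p) p = Z at hpp
  let B : Set I := {q | ∃ τ, (∀ c ∈ τ, c < m + 1) ∧ Tv ap τ Z ∧ q = cat ap τ Z ∧
    τ.length = TG hd m q}
  have hWf := words_finite (m + 1) (bb m)
  choose g hg using fun τ : List ℕ => vd_lim hd τ Z
  choose g' hg' using fun z : I => gk_lim hd m z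
  obtain ⟨b, hb⟩ := (hWf.image fun τ => max (g τ) (g' (cat ap τ Z))).bddAbove
  have key : ∀ τ : List ℕ, (∀ c ∈ τ, c < m + 1) → τ.length ≤ bb m → ∀ s ≥ b,
      (vd v ap s τ Z ↔ Tv ap τ Z) ∧ gk v ap m s (cat ap τ Z) = TG hd m (cat ap τ Z) := by
    intro τ h1 h2 s hs
    have h3 := hb ⟨τ, ⟨h1, h2⟩, rfl⟩
    simp only at h3
    exact ⟨hg τ s (by omega), hg' _ s (by omega)⟩
  have hTG : ∀ q, TG hd m q ≤ bb m := fun q => TG_le hd m q
  have hgk : ∀ s q, gk v ap m s q ≤ bb m := fun s q => gk_le v ap m s q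
  have hpB : p ∈ B := ⟨τp, hpp.1, hpp.2.2, hpp.2.1.symm, hpl⟩
  refine ⟨B, ?_, hpB, b + 1, fun s hs w hw => ?_⟩
  · refine (hWf.image fun τ => cat ap τ Z).subset ?_
    rintro q ⟨τ, h1, -, rfl, h3⟩
    exact ⟨τ, ⟨h1, by rw [h3]; exact hTG _⟩, rfl⟩
  · obtain ⟨τw, w1, w2, w3, w4⟩ := hw
    have wl : τw.length ≤ bb m := by rw [w4]; exact hTG _
    have hwp : Pth ap m τw w Z := ⟨w1, w3.symm, w2⟩
    have hws : ∀ s ≥ b, gk v ap m s w = τw.length := by
      intro s hs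
      have := (key τw w1 wl s hs).2
      rw [← w3] at this
      rw [this, w4]
    have hps : gk v ap m s p = τp.length := by
      have := (key τp hpp.1 (by rw [hpl]; exact hTG _) s (by omega)).2
      rw [hpp.2.1] at this
      rw [this, hpl]
    have hEC : ∀ s1 t (Ψ : Prop → I → Prop), b ≤ s1 → EC v ap m s1 t (gk v ap m s1 w) w Ψ →
        ∃ τ, (∀ c ∈ τ, c < m + 1) ∧ τ.length ≤ bb m ∧ Tv ap τ Z ∧
          τ.length = TG hd m (cat ap τ Z) ∧ Ψ (vd v ap t τ Z) (cat ap τ Z) := by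
      intro s1 t Ψ h1 h2
      rw [hws s1 h1, EC_path hwp le_rfl, Nat.sub_self] at h2
      obtain ⟨a, τ, h3, ⟨h4, h5, h6⟩, h7⟩ := h2
      obtain rfl : a = 0 := by omega
      rw [mva_zero] at h5 h6 h7
      have h8 : τ.length ≤ bb m := by
        have := hgk s1 (cat ap τ Z)
        omega
      obtain ⟨h9, h10⟩ := key τ h3 h8 s1 h1
      exact ⟨τ, h3, h8, h9.1 h5, by omega, h7⟩
    have hch : ∀ s1 (_ : b ≤ s1), ¬ EC v ap m s1 s (gk v ap m s1 w) w (PC v ap m s) := by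
      intro s1 h1 h2
      obtain ⟨τ, h3, h4, h5, h6, h7⟩ := hEC s1 s _ h1 h2
      have k1 := key τ h3 h4 s (by omega)
      have k2 := key τ h3 h4 (s - 1) (by omega)
      rcases h7 with h8 | h8
      · exact h8 (k1.1.2 h5)
      · exact h8 (by rw [k1.2, k2.2])
    refine ⟨fun q => ⟨fun h => ?_, ?_⟩, ?_, Z, τp, τw, hpp, hwp, hps.ge, (hws s (by omega)).ge, ?_⟩
    · obtain ⟨τ, h3, h4, h5, h6, h7⟩ := hEC s s _ (by omega) h
      subst h7
      exact ⟨τ, h3, h5, rfl, h6⟩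
    · rintro ⟨τ, h3, h5, rfl, h6⟩
      have h4 : τ.length ≤ bb m := by rw [h6]; exact hTG _
      unfold Q
      rw [hws s (by omega), EC_path hwp le_rfl, Nat.sub_self]
      obtain ⟨h9, h10⟩ := key τ h3 h4 s (by omega)
      refine ⟨0, τ, h3, ⟨le_rfl, h9.2 h5, ?_⟩, rfl⟩
      rw [mva_zero, h10, h6]
    · rintro (h | h)
      · exact hch (s - 1) (by omega) h
      · exact hch s (by omega) h
    · rw [hps, hws s (by omega)]
      omega

theorem cls (hd : Dyn v (mva ap)) : Cls (Q v ap) (Ch v ap) (Lk v ap) where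
  refl m s p := ⟨0, [], fun c hc => absurd hc (by simp), memG_self m s p, rfl⟩
  same m s p q h w := lk_same h w
  chg m s p q h := ⟨lk_chg h.symm, lk_chg h⟩
  dn m s p q h hc := (lk_dn h hc).1
  up m s p q h hc := lk_up h hc
  lim m p := cls_lim hd m p

end

/-! The construction. -/

/-- the history of the construction before stage `s` -/
def Hs (φ : ℕ → R → R) : ℕ → ℕ → R → ℕ → Prop
  | 0 => fun _ _ _ => False
  | s + 1 => fun s' p z => Hs φ s s' p z ∨
      (s' = s ∧ Step EY CY (Q vr φ) (Ch vr φ) (VZ (Hs φ s)) s p z)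

/-- `z` is put into the set of `p` at stage `s` -/
def AA (φ : ℕ → R → R) (s : ℕ) (p : R) (z : ℕ) : Prop :=
  Step EY CY (Q vr φ) (Ch vr φ) (VZ (Hs φ s)) s p z

section

variable {φ : ℕ → R → R}

theorem Hs_iff {s s' : ℕ} {p : R} {z : ℕ} : Hs φ s s' p z ↔ s' < s ∧ AA φ s' p z := by
  induction s with
  | zero => simp [Hs]
  | succ s ih =>
    show (Hs φ s s' p z ∨ (s' = s ∧ Step EY CY (Q vr φ) (Ch vr φ) (VZ (Hs φ s)) s p z)) ↔ _
    rw [ih]
    constructor
    · rintro (h | ⟨h1, h2⟩)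
      · exact ⟨by omega, h.2⟩
      · subst h1
        exact ⟨Nat.lt_succ_self _, h2⟩
    · rintro ⟨h1, h2⟩
      rcases Nat.lt_succ_iff_lt_or_eq.1 h1 with h | h
      · exact Or.inl ⟨h, h2⟩
      · subst h
        exact Or.inr ⟨rfl, h2⟩

theorem step_V {V V' : ℕ → R → ℕ → Prop} {s : ℕ} {p : R} {z : ℕ}
    (h : ∀ p y, (V s p y ↔ V' s p y)) :
    Step EY CY (Q vr φ) (Ch vr φ) V s p z ↔ Step EY CY (Q vr φ) (Ch vr φ) V' s p z := by
  have : V s = V' s := by
    funext p y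
    exact propext (h p y)
  unfold Step Act Cand
  rw [this]

theorem AA_eq (s : ℕ) (p : R) (z : ℕ) :
    AA φ s p z ↔ Step EY CY (Q vr φ) (Ch vr φ) (VZ (AA φ)) s p z := by
  refine step_V fun p y => exists_congr fun s' => and_congr_right fun hs' => ?_
  rw [Hs_iff]
  exact ⟨fun h => h.2, fun h => ⟨hs', h⟩⟩

theorem dyn' (φ : ℕ → R → R) : Dyn vr (mva φ) := dyn (φ 0)

theorem sys (φ : ℕ → R → R) : Sys EY CY (Q vr φ) (Ch vr φ) (Lk vr φ) (AA φ) where
  cls := cls (dyn' φ)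
  hA := AA_eq
  monoE s s' n z p h hE := En_mono h hE
  locC s s' e u p v v' hC hs hv := by
    have h1 := (CY_congr (X := p) (X' := p) (s := s) (e := e) (fun _ _ => rfl) hv).1 hC
    exact hlt_mono hs h1

/-- the set of `p` -/
def VT (φ : ℕ → R → R) (p : R) (z : ℕ) : Prop := ∃ s, AA φ s p z

/-- the distances at `p` and at its image fit together -/
def GG (φ : ℕ → R → R) (m u : ℕ) (p : R) : Prop :=
  gk vr φ m u p = gk vr φ m u (φ 0 p) + 1

theorem link {p : R} {m c : ℕ} (hc : c < m + 1) (hp : φ (c + 1) (φ 0 p) = p) {u : ℕ}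
    (hg : GG φ m u p) : Lk vr φ m u p (φ 0 p) := by
  unfold GG at hg
  refine ⟨φ 0 p, [c], [], ⟨fun x hx => ?_, hp, vE_cons.2 ⟨?_, vE_nil _⟩⟩,
    ⟨fun x hx => absurd hx (by simp), rfl, vE_nil _⟩, ?_, Nat.zero_le _, ?_⟩
  · rw [List.mem_singleton.1 hx]
    exact hc
  · exact congrArg (φ 0) hp
  · simp only [List.length_cons, List.length_nil]
    omega
  · simp only [List.length_cons, List.length_nil]
    omega

theorem good_iff {p : R} {m u z c : ℕ} (hz : z.unpair.1 = Nat.pair m u) (hc : c < m + 1)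
    (hp : φ (c + 1) (φ 0 p) = p) (hg : GG φ m u p) : VT φ p z ↔ VT φ (φ 0 p) z :=
  ⟨fun ⟨s, h1⟩ => ⟨s, inv_good (sys φ) hz (link hc hp hg) s h1⟩,
    fun ⟨s, h1⟩ => ⟨s, inv_good (sys φ) hz (link hc hp hg).symm s h1⟩⟩

theorem bad_chg {p : R} {m u c : ℕ} (hc : c < m + 1) (hp : φ (c + 1) (φ 0 p) = p)
    (H : ∃ s0, ∀ s ≥ s0, GG φ m s p) (hg : ¬ GG φ m u p) :
    (∃ s, u < s ∧ Ch vr φ m s p) ∧ ∃ s, u < s ∧ Ch vr φ m s (φ 0 p) := by
  obtain ⟨s0, h0⟩ := H
  have key : ∀ r : R, (r = p ∨ r = φ 0 p) → (∀ s, u < s → ¬ Ch vr φ m s r) → False := by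
    intro r hr h1
    have h2 : ∀ k ≤ max s0 u - u, GG φ m (max s0 u - k) p := by
      intro k
      induction k with
      | zero => exact fun _ => h0 _ (by omega)
      | succ k ih =>
        intro hk
        have h3 := link hc hp (ih (by omega))
        have h4 : gk vr φ m (max s0 u - k - 1) p = gk vr φ m (max s0 u - k) p ∧
            gk vr φ m (max s0 u - k - 1) (φ 0 p) = gk vr φ m (max s0 u - k) (φ 0 p) := by
          rcases hr with rfl | rfl
          · exact (lk_dn h3 (h1 _ (by omega))).2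
          · exact (lk_dn h3.symm (h1 _ (by omega))).2.symm
        have h5 := ih (by omega)
        unfold GG at h5 ⊢
        rw [show max s0 u - (k + 1) = max s0 u - k - 1 by omega, h4.1, h4.2, h5]
    have h3 := h2 (max s0 u - u) le_rfl
    rw [show max s0 u - (max s0 u - u) = u by omega] at h3
    exact hg h3
  constructor
  · by_contra hcon
    push Not at hcon
    exact key p (Or.inl rfl) hcon
  · by_contra hcon
    push Not at hcon
    exact key _ (Or.inr rfl) hcon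

theorem bad_iff {p : R} {m u s z : ℕ} (hz : z.unpair.1 = Nat.pair m u)
    (hs : u < s) (hc : Ch vr φ m s p) : VT φ p z ↔ VZ (AA φ) s p z :=
  ⟨fun ⟨t, h1⟩ => ⟨t, inv_bad (sys φ) hz hs hc t h1, h1⟩, fun ⟨t, _, h1⟩ => ⟨t, h1⟩⟩

end

end Pool.Agent.TH769.FB
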