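import Pool.Agent.TH769.FB.Op
import Pool.Agent.TH769.LH.Fin

set_option autoImplicit false

/-!
The theorem for a program in one direction and a computable list of total programs in the other
direction.
-/

namespace Pool.Agent.TH769.FB

open Encodable Pool.Agent.Helper227 Pool.Agent.H548R2.Post
open Nat.Partrec (Code)
open Pool.Agent.TH769.TP (Lim Mon Via FF Fn fv lim_FF mon_FF pf_FF)
open Pool.Agent.TH769.CD (bdd_lt pf_add pf_mul pf_div pf_mod pf_pow pf_getD pf_take
  pf_append pf_cons pf_length pf_range pf_natPair pf_unpair pf_encode pf_testBit pf_xorb pf_andb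
  pf_hlt pf_xor pp_exlt pp_alllt pp_imp pp_eq pp_le pp_lt pp_mem pf_decide pf_pre pp_En pf_ext)
open Pool.Agent.TH769.ZA (pf_sub Apx)
open Pool.Agent.TH769.LH (R app shf shf_app app_one apx_shf apx_cons)

attribute [local fun_prop] Primrec
attribute [local fun_prop] Primrec.id Primrec.const Primrec.comp Primrec.pair Primrec.fst Primrec.snd
attribute [local fun_prop] pf_add pf_mul pf_div pf_mod pf_pow pf_getD pf_take pf_append pf_cons
  pf_length pf_range pf_natPair pf_unpair pf_encode pf_testBit pf_xorb pf_andb pf_hlt pf_xor pf_sub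

theorem pf_fv' {β : Type} [Primcodable β] {i : β → Code} {σ : β → List Bool} {n : β → ℕ}
    (hi : Primrec i) (hσ : Primrec σ) (hn : Primrec n) :
    Primrec fun b => fv (i b) (σ b) (n b) := by
  unfold fv
  refine Primrec.list_head?.comp (Primrec.listFilterMap (pf_range (pf_length hσ)) ?_)
  have h : Primrec fun x : β × ℕ => (((x.2.unpair.1, i x.1),
      encode ((σ x.1).take x.2.unpair.2, n x.1)) : (ℕ × Code) × ℕ) := by fun_prop
  exact Nat.Partrec.Code.primrec_evaln.comp h

theorem pf_FF' : Primrec fun x : Code × List Bool => FF x.1 x.2 := by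
  have hh : Primrec₂ fun (a : Code × List Bool) (y : ℕ × List Bool) =>
      cond (decide (y.2.length = y.1))
        (y.2 ++ ((fv a.1 a.2 y.1).map (fun v => v == 1)).toList) y.2 := by
    have h0 : Primrec₂ fun (_ : (Code × List Bool) × (ℕ × List Bool)) (v : ℕ) => (v == 1) :=
      Primrec.beq.comp Primrec.snd (Primrec.const 1)
    have h1 : Primrec fun x : (Code × List Bool) × (ℕ × List Bool) =>
        (fv x.1.1 x.1.2 x.2.1).map (fun v => v == 1) :=
      Primrec.option_map (pf_fv' (by fun_prop) (by fun_prop) (by fun_prop)) h0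
    have h2 : Primrec fun x : (Code × List Bool) × (ℕ × List Bool) =>
        cond (decide (x.2.2.length = x.2.1))
          (x.2.2 ++ ((fv x.1.1 x.1.2 x.2.1).map (fun v => v == 1)).toList) x.2.2 :=
      Primrec.cond (pf_decide (pp_eq (by fun_prop) (by fun_prop)) _)
        (pf_append (by fun_prop) (Primrec.optionToList.comp h1)) (by fun_prop)
    exact h2
  have h := Primrec.nat_rec' (f := fun a : Code × List Bool => a.2.length)
    (g := fun _ => ([] : List Bool)) (pf_length Primrec.snd) (Primrec.const []) hh
  refine h.of_eq fun a => ?_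
  unfold FF
  generalize a.2.length = n
  induction n with
  | zero => rfl
  | succ n ih =>
    change _ = cond (decide ((Fn a.1 a.2 n).length = n))
      (Fn a.1 a.2 n ++ ((fv a.1 a.2 n).map (fun v => v == 1)).toList) (Fn a.1 a.2 n)
    rw [← ih]

theorem via_unique {i : Code} {X Y Z : R} (h : Via i X Y) (h' : Via i X Z) : Y = Z :=
  (lim_FF h).unique (lim_FF h')

/-- One program in one direction, a computable list of total programs in the other direction. -/
theorem main_list (i : Code) (k : ℕ → Code) (hk : Computable k)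
    (ht : ∀ (c : ℕ) (X : R), ∃ Y, Via (k c) X Y) : ∃ e : ℕ,
    (∀ X : R, TLe X (chr (WE X e)) ∧ ¬ TLe (chr (WE X e)) X ∧
      TLe (chr (WE X e)) (jump X) ∧ ¬ TLe (jump X) (chr (WE X e)) ∧
      TLe (jump (chr (WE X e))) (jump X)) ∧
    ∀ (X Y : R) (c : ℕ), Via i X Y → Via (k c) Y X →
      TLe (chr (WE X e)) (chr (WE Y e)) ∧ TLe (chr (WE Y e)) (chr (WE X e)) := by
  choose J hJ using ht
  have ha : ∀ c, Apx ((fun c σ => FF (k c) σ) c) (J c) := fun c =>
    apx_iff.2 fun X => lim_FF (hJ c X)
  have hh : Computable₂ fun (c : ℕ) (σ : List Bool) => FF (k c) σ := by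
    have h1 : Computable fun x : ℕ × List Bool => ((k x.1, x.2) : Code × List Bool) :=
      (hk.comp Computable.fst).pair Computable.snd
    exact pf_FF'.to_comp.comp h1
  obtain ⟨e, h1, h2⟩ := main_str (mon_FF (i := i)) (pf_FF i) ha hh
  exact ⟨e, h1, fun X Y c hX hY => h2 X Y c (lim_FF hX) (via_unique (hJ c Y) hY)⟩

/-- The theorem for the tail equivalence. -/
theorem main_tail : ∃ e : ℕ,
    (∀ X : R, TLe X (chr (WE X e)) ∧ ¬ TLe (chr (WE X e)) X ∧
      TLe (chr (WE X e)) (jump X) ∧ ¬ TLe (jump X) (chr (WE X e)) ∧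
      TLe (jump (chr (WE X e))) (jump X)) ∧
    ∀ (σ τ : List Bool) (X : R), TLe (chr (WE (app σ X) e)) (chr (WE (app τ X) e)) := by
  have hF : Mon fun σ : List Bool => σ.drop 1 := by
    refine ⟨fun σ τ h => ?_, fun σ => by simp⟩
    obtain ⟨ρ, rfl⟩ := h
    cases σ with
    | nil => simp
    | cons a σ => simp
  have pF : Primrec fun σ : List Bool => σ.drop 1 :=
    Primrec.list_drop.comp (Primrec.const 1) Primrec.id
  have hh : Computable₂ fun (c : ℕ) (σ : List Bool) => decide (c = 1) :: σ := by
    have h1 : Primrec fun x : ℕ × List Bool => decide (x.1 = 1) :=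
      PrimrecPred.decide (Primrec.eq.comp Primrec.fst (Primrec.const 1))
    exact (pf_cons h1 Primrec.snd).to_comp
  obtain ⟨e, h1, h2⟩ := main_str hF pF (h := fun c σ => decide (c = 1) :: σ)
    (J := fun c => app [decide (c = 1)]) (fun c => apx_cons _) hh
  refine ⟨e, h1, ?_⟩
  have h3 : ∀ (σ : List Bool) (X : R), TLe (chr (WE (app σ X) e)) (chr (WE X e)) ∧
      TLe (chr (WE X e)) (chr (WE (app σ X) e)) := by
    intro σ X
    induction σ with
    | nil =>
      have : app [] X = X := by
        funext n
        simp [app]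
      rw [this]
      exact ⟨TuringReducible.refl _, TuringReducible.refl _⟩
    | cons b σ ih =>
      have h4 := h2 (app (b :: σ) X) (app σ X) (cond b 1 0)
        (by
          have := apx_iff.1 apx_shf (app (b :: σ) X)
          rwa [shf_app] at this)
        (by
          have h5 := app_one (app (b :: σ) X)
          rw [shf_app] at h5
          have h6 : app (b :: σ) X 0 = b := by
            unfold app
            simp
          rw [h6] at h5
          cases b <;> exact h5)
      exact ⟨TuringReducible.trans h4.1 ih.1, TuringReducible.trans ih.2 h4.2⟩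
  exact fun σ τ X => TuringReducible.trans (h3 σ X).1 (h3 τ X).2

end Pool.Agent.TH769.FB
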