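import Pool.Agent.TH769.FB.Deg

set_option autoImplicit false

/-!
Invariance.
-/

namespace Pool.Agent.TH769.FB

open Encodable Pool.Agent.Helper227 Pool.Agent.H548R2.Post
open Nat.Partrec (Code)
open Pool.Agent.TH769.CD (jp jp_congr bdd_lt pf_add pf_mul pf_div pf_mod pf_pow pf_getD pf_take
  pf_append pf_cons pf_length pf_range pf_natPair pf_unpair pf_encode pf_testBit pf_xorb pf_andb
  pf_hlt pf_xor pp_exlt pp_alllt pp_imp pp_eq pp_le pp_lt pp_mem pf_decide pf_pre pp_En pf_ext
  ext_pre_eq)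
open Pool.Agent.TH769.ZA (val pf_val pf_sub Apx Apx.iter comp_iter si_gen apx_le)
open Pool.Agent.TH769.LH (R vr EY CY)

attribute [local fun_prop] Primrec
attribute [local fun_prop] Primrec.id Primrec.const Primrec.comp Primrec.pair Primrec.fst Primrec.snd
attribute [local fun_prop] pf_add pf_mul pf_div pf_mod pf_pow pf_getD pf_take pf_append pf_cons
  pf_length pf_range pf_natPair pf_unpair pf_encode pf_testBit pf_xorb pf_andb pf_hlt pf_xor pf_sub

section

variable {φ : ℕ → R → R} {h : ℕ → List Bool → List Bool}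

section inv

variable (ha : ∀ c, Apx (h c) (φ c)) (hh : Computable₂ h)

include ha hh

theorem inv_neg (p q W : R) (G : ℕ × ℕ → Prop) (hG : SI W G) (hp : TLe p W)
    (hW : ∀ z, W (2 * z + 1) = true ↔ VT φ q z) (m0 : ℕ)
    (hgood : ∀ m u z, m0 ≤ m → z.unpair.1 = Nat.pair m u → G (m, u) → (VT φ p z ↔ VT φ q z))
    (hbad : ∀ m ≥ m0, ∀ u, ¬ G (m, u) → ∃ s, u < s ∧ Ch vr φ m s p) :
    SI W fun z => ¬ VT φ p z := by
  classical
  obtain ⟨N, hN⟩ := bdd_lt m0 (fun m N => ∀ z, VT φ p z → z.unpair.1.unpair.1 = m → z < N)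
    (fun m _ => by
      obtain ⟨a, ha⟩ := level_finite (sys φ) m p
      refine ⟨a, fun c hc z hz hzm => ?_⟩
      obtain ⟨s, hs⟩ := hz
      have := ha z s hs hzm
      omega)
  let F : List ℕ := (List.range N).filter (fun z => decide (¬ VT φ p z))
  have a1 : SI W fun z : ℕ => m0 ≤ z.unpair.1.unpair.1 ∧
      (G (z.unpair.1.unpair.1, z.unpair.1.unpair.2) ∧ W (2 * z + 1) = false) := by
    refine SI.and (SI.of_prim (pp_le (by fun_prop) (by fun_prop))) (SI.and ?_
      (SI.query.comp (f := fun z : ℕ => (2 * z + 1, false)) (by fun_prop)))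
    exact hG.comp (f := fun z : ℕ => (z.unpair.1.unpair.1, z.unpair.1.unpair.2)) (by fun_prop)
  have a2 : SI W fun z : ℕ => (N ≤ z ∧ z.unpair.1.unpair.1 < m0) ∨ z ∈ F :=
    SI.of_prim (PrimrecPred.or (PrimrecPred.and (pp_le (by fun_prop) (by fun_prop))
      (pp_lt (by fun_prop) (by fun_prop))) (pp_mem (by fun_prop) (by fun_prop)))
  have a3 : SI W fun z : ℕ => ∃ s, z.unpair.1.unpair.2 < s ∧
      (Ch vr φ z.unpair.1.unpair.1 s p ∧ ¬ VZ (AA φ) s p z) := by
    refine SI.ex (p := fun (z s : ℕ) => z.unpair.1.unpair.2 < s ∧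
      (Ch vr φ z.unpair.1.unpair.1 s p ∧ ¬ VZ (AA φ) s p z)) (SI.and
      (SI.of_prim (pp_lt (by fun_prop) (by fun_prop))) (SI.and ?_ ?_))
    · exact ((si_Chg ha hh p).trans hp).comp (f := fun x : ℕ × ℕ =>
        (x.1.unpair.1.unpair.1, x.2)) (by fun_prop)
    · exact ((si_nVV ha hh p).trans hp).comp (f := fun x : ℕ × ℕ => (x.2, x.1))
        (by fun_prop)
  refine (SI.or a1 (SI.or a2 a3)).of_eq fun z => ?_
  have hz : z.unpair.1 = Nat.pair z.unpair.1.unpair.1 z.unpair.1.unpair.2 :=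
    (Nat.pair_unpair _).symm
  constructor
  · rintro (⟨h0, h1, h2⟩ | (⟨h1, h2⟩ | h1) | ⟨s, h1, h2, h3⟩) h4
    · have h5 : VT φ q z := (hgood _ _ z h0 hz h1).1 h4
      rw [(hW z).2 h5] at h2
      exact Bool.false_ne_true h2.symm
    · have := hN _ h2 N le_rfl z h4 rfl
      omega
    · have := (List.mem_filter.1 h1).2
      rw [decide_eq_true_eq] at this
      exact this h4
    · exact h3 ((bad_iff hz h1 h2).1 h4)
  · intro h
    by_cases hm : z.unpair.1.unpair.1 < m0
    · right; left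
      by_cases hzN : z < N
      · exact Or.inr (List.mem_filter.2 ⟨List.mem_range.2 hzN, by simpa using h⟩)
      · exact Or.inl ⟨by omega, hm⟩
    · by_cases hgd : G (z.unpair.1.unpair.1, z.unpair.1.unpair.2)
      · left
        refine ⟨by omega, hgd, ?_⟩
        have h5 : ¬ VT φ q z := fun h6 => h ((hgood _ _ z (by omega) hz hgd).2 h6)
        rw [← hW, Bool.not_eq_true] at h5
        exact h5
      · right; right
        obtain ⟨s, h1, h2⟩ := hbad _ (by omega) _ hgd
        exact ⟨s, h1, h2, fun h3 => h ((bad_iff hz h1 h2).2 h3)⟩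

theorem WX_le_of (X W : R) (hneg : SI W fun z => ¬ VT φ X z) (hX : TLe X W) :
    TLe (WX φ X) W := by
  have hpos : SI W fun m : ℕ => WX φ X m = true := (si_WX ha hh X).trans hX
  have hev : SI W fun m : ℕ => m % 2 = 0 ∧ X (m / 2) = false :=
    SI.and (SI.of_prim (pp_eq (by fun_prop) (by fun_prop)))
      (((SI.query (B := X)).trans hX).comp (f := fun m : ℕ => (m / 2, false)) (by fun_prop))
  have hod : SI W fun m : ℕ => m % 2 = 1 ∧ ¬ VT φ X (m / 2) :=
    SI.and (SI.of_prim (pp_eq (by fun_prop) (by fun_prop)))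
      (hneg.comp (f := fun m : ℕ => m / 2) (by fun_prop))
  rw [tLe_iff_SI]
  have h4 : SI W fun x : ℕ × Bool => (WX φ X x.1 = true ∧ x.2 = true) ∨
      (((x.1 % 2 = 0 ∧ X (x.1 / 2) = false) ∨ (x.1 % 2 = 1 ∧ ¬ VT φ X (x.1 / 2))) ∧
        x.2 = false) := by
    refine SI.or (SI.and (hpos.comp Primrec.fst) (SI.of_prim ?_))
      (SI.and ((SI.or hev hod).comp (f := fun x : ℕ × Bool => x.1) Primrec.fst) (SI.of_prim ?_))
    · exact Primrec.eq.comp Primrec.snd (Primrec.const true)
    · exact Primrec.eq.comp Primrec.snd (Primrec.const false)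
  refine h4.of_eq fun x => ?_
  rcases x with ⟨m, b⟩
  cases b with
  | true => simp
  | false =>
    rcases Nat.even_or_odd' m with ⟨n, rfl | rfl⟩
    · have e1 : (2 * n) % 2 = 0 := by omega
      have e2 : (2 * n) / 2 = n := by omega
      simp [e1, e2, WX_even]
    · have e1 : (2 * n + 1) % 2 = 1 := by omega
      have e2 : (2 * n + 1) / 2 = n := by omega
      have e3 : WX φ X (2 * n + 1) = false ↔ ¬ VT φ X n := by
        rw [← WX_odd, Bool.not_eq_true]
      simp only [e1, e2, e3]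
      simp

/-- a functional reduces -/
theorem image_le (c : ℕ) (X : R) : TLe (φ c X) X := by
  have h1 : Computable (h c) := hh.comp (Computable.const c) Computable.id
  exact apx_le (ha c) h1 X

/-- Invariance under the map, at the ordinary points. -/
theorem WX_eqv (X : R) {c : ℕ} (hc : φ (c + 1) (φ 0 X) = X) (hE : ¬ Exc vr φ X) :
    TLe (WX φ X) (WX φ (φ 0 X)) ∧ TLe (WX φ (φ 0 X)) (WX φ X) := by
  have h1 : TLe X (φ 0 X) := by
    have := image_le ha hh (c + 1) (φ 0 X)
    rwa [hc] at this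
  have h2 : TLe (φ 0 X) X := image_le ha hh 0 X
  have hX : TLe X (WX φ (φ 0 X)) := TuringReducible.trans h1 (le_WX _)
  have hfX : TLe (φ 0 X) (WX φ X) := TuringReducible.trans h2 (le_WX _)
  obtain ⟨m0, hm0⟩ := exh (dyn' φ) (c0 := c) ⟨c, Nat.lt_succ_self c, hc⟩ hE
  have hm0' : ∀ m ≥ m0, ∃ s0, ∀ s ≥ s0, GG φ m s X := hm0
  constructor
  · refine WX_le_of ha hh X _ (inv_neg ha hh X (φ 0 X) _ _
      ((si_good ha hh X).trans hX) hX (fun z => WX_odd _ _) (max m0 c)
      (fun m u z hm hz hG => good_iff hz (by omega) hc hG) (fun m hm u hn => ?_)) hX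
    exact (bad_chg (c := c) (by omega) hc (hm0' m (by omega)) hn).1
  · refine WX_le_of ha hh (φ 0 X) _ (inv_neg ha hh (φ 0 X) X _ _
      ((si_good ha hh X).trans (le_WX X)) hfX (fun z => WX_odd _ _) (max m0 c)
      (fun m u z hm hz hG => (good_iff hz (by omega) hc hG).symm) (fun m hm u hn => ?_)) hfX
    exact (bad_chg (c := c) (by omega) hc (hm0' m (by omega)) hn).2

/-- Invariance under the map. -/
theorem WX_all (X : R) {c : ℕ} (hc : φ (c + 1) (φ 0 X) = X) :
    TLe (WX φ X) (WX φ (φ 0 X)) ∧ TLe (WX φ (φ 0 X)) (WX φ X) := by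
  by_cases hP : Exc vr φ X
  · obtain ⟨p, k1, hp0, hp, hTE, hcyc⟩ := exc_cycle (dyn' φ) hP
    have key : ∀ n, n + 1 ≤ p → TLe (WX φ (φ 0 X)) (WX φ (mva φ (n + 1) X)) ∧
        TLe (WX φ (mva φ (n + 1) X)) (WX φ (φ 0 X)) := by
      intro n
      induction n with
      | zero => exact fun _ => ⟨TuringReducible.refl _, TuringReducible.refl _⟩
      | succ n ih =>
        intro hn
        obtain ⟨h1, h2⟩ := ih (by omega)
        obtain ⟨c', -, hc'⟩ := hTE (n + 1)
        obtain ⟨h3, h4⟩ := WX_eqv ha hh (mva φ (n + 1) X) hc'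
          (hcyc (n + 1) (by omega) (by omega))
        have e : mva φ (n + 1 + 1) X = φ 0 (mva φ (n + 1) X) := mva_succ' _ _
        rw [e]
        exact ⟨TuringReducible.trans h1 h3, TuringReducible.trans h4 h2⟩
    have h5 := key (p - 1) (by omega)
    rw [show p - 1 + 1 = p by omega, hp] at h5
    exact ⟨h5.2, h5.1⟩
  · exact WX_eqv ha hh X hc hP

/-- For a total computable functional `φ 0` and a uniformly computable sequence `φ (c + 1)` of
total functionals, there is a solution of Post's problem which is invariant under `φ 0` at all `X`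
which are regained from `φ 0 X` with the help of one of the functionals `φ (c + 1)`. -/
theorem main : ∃ e : ℕ,
    (∀ X : R, TLe X (chr (WE X e)) ∧ ¬ TLe (chr (WE X e)) X ∧
      TLe (chr (WE X e)) (jump X) ∧ ¬ TLe (jump X) (chr (WE X e)) ∧
      TLe (jump (chr (WE X e))) (jump X)) ∧
    ∀ (X : R) (c : ℕ), φ (c + 1) (φ 0 X) = X → TLe (chr (WE X e)) (chr (WE (φ 0 X) e)) ∧
      TLe (chr (WE (φ 0 X) e)) (chr (WE X e)) := by
  obtain ⟨e, he⟩ := exists_index ha hh
  refine ⟨e, fun X => ?_, fun X c hc => ?_⟩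
  · rw [he X, chr_WX]
    have hl := low ha hh X
    exact ⟨le_WX X, not_WX_le X, WX_le_jump ha hh X,
      fun h => not_jump_le _ (TuringReducible.trans hl h), hl⟩
  · rw [he, he, chr_WX, chr_WX]
    exact WX_all ha hh X hc

end inv

end

end Pool.Agent.TH769.FB
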