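import Pool.Agent.TH769.FB.Fin
import Pool.Agent.TH769.TP.Uni

set_option autoImplicit false

/-!
One index for all programs, which are given by a label.
-/

namespace Pool.Agent.TH769.FB

open Encodable Pool.Agent.Helper227 Pool.Agent.H548R2.Post
open Nat.Partrec (Code)
open Pool.Agent.TH769.TP (Via lab lb pf_lb lb_lt lb_eq pre_lab pre_lab_lt lab_le le_lab)
open Pool.Agent.TH769.CD (pf_add pf_take pf_length pp_eq pp_le pp_lt pf_decide pf_append pf_cons
  pf_encode)
open Pool.Agent.TH769.ZA (pf_sub)
open Pool.Agent.TH769.LH (R)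

attribute [local fun_prop] Primrec
attribute [local fun_prop] Primrec.id Primrec.const Primrec.comp Primrec.pair Primrec.fst Primrec.snd
attribute [local fun_prop] pf_add pf_take pf_length pf_sub pf_append pf_cons pf_encode

/-- the value of the universal program -/
noncomputable def ul (sel : ℕ × ℕ → Code) (x : ℕ × (List Bool × ℕ)) : Part ℕ :=
  cond (decide (x.2.2 < lb x.2.1)) (Part.some 0)
    (cond (decide (lb x.2.1 < x.2.1.length))
      (cond (decide (x.2.2 = lb x.2.1)) (Part.some 1)
        ((sel (x.1, lb x.2.1)).eval (encode (x.2.1.drop (lb x.2.1 + 1), x.2.2 - lb x.2.1 - 1))))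
      Part.none)

theorem pr_ul {sel : ℕ × ℕ → Code} (hs : Computable sel) : Partrec (ul sel) := by
  have h0 : Primrec fun x : ℕ × (List Bool × ℕ) => lb x.2.1 :=
    pf_lb.comp (Primrec.fst.comp Primrec.snd)
  have h1 : Computable fun x : ℕ × (List Bool × ℕ) => decide (x.2.2 < lb x.2.1) :=
    (pf_decide (pp_lt (by fun_prop) h0) _).to_comp
  have h2 : Computable fun x : ℕ × (List Bool × ℕ) => decide (lb x.2.1 < x.2.1.length) :=
    (pf_decide (pp_lt h0 (by fun_prop)) _).to_comp
  have h3 : Computable fun x : ℕ × (List Bool × ℕ) => decide (x.2.2 = lb x.2.1) :=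
    (pf_decide (pp_eq (by fun_prop) h0) _).to_comp
  have h4 : Computable fun x : ℕ × (List Bool × ℕ) => sel (x.1, lb x.2.1) :=
    hs.comp ((Primrec.fst.pair h0).to_comp)
  have h5 : Computable fun x : ℕ × (List Bool × ℕ) =>
      encode (x.2.1.drop (lb x.2.1 + 1), x.2.2 - lb x.2.1 - 1) := by
    have h6 : Primrec fun x : ℕ × (List Bool × ℕ) => x.2.1.drop (lb x.2.1 + 1) :=
      Primrec.list_drop.comp (pf_add h0 (by fun_prop)) (Primrec.fst.comp Primrec.snd)
    have h7 : Primrec fun x : ℕ × (List Bool × ℕ) => x.2.2 - lb x.2.1 - 1 :=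
      pf_sub (pf_sub (Primrec.snd.comp Primrec.snd) h0) (Primrec.const 1)
    exact (Primrec.encode.comp (h6.pair h7)).to_comp
  exact Partrec.cond h1 (Computable.const 0).partrec (Partrec.cond h2
    (Partrec.cond h3 (Computable.const 1).partrec (Code.eval_part.comp h4 h5)) Partrec.none)

theorem exists_ul {sel : ℕ × ℕ → Code} (hs : Computable sel) : ∃ U : Code,
    ∀ (c : ℕ) (σ : List Bool) (m : ℕ),
      (Code.curry U c).eval (encode (σ, m)) = ul sel (c, (σ, m)) := by
  obtain ⟨U, hU⟩ := Nat.Partrec.Code.exists_code.1 (pr_ul hs)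
  refine ⟨U, fun c σ m => ?_⟩
  rw [Code.eval_curry, hU]
  have : Nat.pair c (encode (σ, m)) = encode (c, (σ, m)) := rfl
  rw [this]
  simp only [encodek, Part.coe_some, Part.bind_some]
  exact Part.map_id' (fun _ => rfl) _

section

variable {sel : ℕ × ℕ → Code} {U : Code}
  (hU : ∀ (c : ℕ) (σ : List Bool) (m : ℕ),
      (Code.curry U c).eval (encode (σ, m)) = ul sel (c, (σ, m)))

include hU

theorem via_lab {c n : ℕ} {X Y : R} (h : Via (sel (c, n)) X Y) :
    Via (Code.curry U c) (lab n X) (lab n Y) := by
  intro m v
  have h1 : ∀ s, s ≤ n → lb (pre (lab n X) s) = s := by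
    intro s hs
    have h2 := lb_lt X hs
    have h3 : lb (pre (lab n X) s) ≤ (pre (lab n X) s).length := List.findIdx_le_length
    rw [length_pre] at h2 h3
    omega
  rcases Nat.lt_or_ge m n with h4 | h4
  · have e : lab n Y m = false := by
      unfold lab
      rw [if_pos h4]
    rw [e]
    constructor
    · rintro ⟨s, hs⟩
      rw [hU] at hs
      unfold ul at hs
      simp only at hs
      rcases Nat.lt_or_ge n s with h5 | h5
      · obtain ⟨t, rfl⟩ : ∃ t, s = n + 1 + t := ⟨s - (n + 1), by omega⟩
        rw [lb_eq, decide_eq_true h4, cond_true] at hs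
        simpa using hs
      · rw [h1 s h5, length_pre, decide_eq_false (p := s < s) (lt_irrefl s), cond_false] at hs
        by_cases h6 : m < s
        · rw [decide_eq_true h6, cond_true] at hs
          simpa using hs
        · rw [decide_eq_false h6, cond_false] at hs
          exact absurd hs (Part.notMem_none _)
    · intro hv
      refine ⟨n + 1 + 0, ?_⟩
      rw [hU]
      unfold ul
      simp only
      rw [lb_eq, decide_eq_true h4, cond_true, hv]
      simp
  · have h2 : ∀ s, s ≤ n → v ∉ ul sel (c, (pre (lab n X) s, m)) := by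
      intro s hs hv
      unfold ul at hv
      simp only at hv
      rw [h1 s hs, length_pre, decide_eq_false (p := s < s) (lt_irrefl s), cond_false,
        decide_eq_false (show ¬ m < s by omega), cond_false] at hv
      exact Part.notMem_none _ hv
    have h3 : ∀ s, ul sel (c, (pre (lab n X) (n + 1 + s), m)) =
        cond (decide (m = n)) (Part.some 1)
          ((sel (c, n)).eval (encode (pre X s, m - n - 1))) := by
      intro s
      unfold ul
      simp only
      rw [lb_eq, decide_eq_false (show ¬ m < n by omega), cond_false,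
        decide_eq_true (p := n < _) (by rw [length_pre]; omega), cond_true, pre_lab]
      congr 4
      rw [List.drop_append]
      simp
    have h5 : (∃ s, v ∈ (Code.curry U c).eval (encode (pre (lab n X) s, m))) ↔
        ∃ s, v ∈ cond (decide (m = n)) (Part.some 1)
          ((sel (c, n)).eval (encode (pre X s, m - n - 1))) := by
      constructor
      · rintro ⟨s, hs⟩
        rw [hU] at hs
        rcases Nat.lt_or_ge n s with h6 | h6
        · obtain ⟨t, rfl⟩ : ∃ t, s = n + 1 + t := ⟨s - (n + 1), by omega⟩
          rw [h3] at hs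
          exact ⟨t, hs⟩
        · exact absurd hs (h2 s h6)
      · rintro ⟨s, hs⟩
        refine ⟨n + 1 + s, ?_⟩
        rw [hU, h3]
        exact hs
    rw [h5]
    unfold lab
    rcases Nat.eq_or_lt_of_le h4 with h6 | h6
    · subst h6
      rw [if_neg (lt_irrefl _), if_pos rfl]
      simp only [decide_true, cond_true, Part.mem_some_iff, exists_const, Bool.toNat_true]
    · rw [if_neg (by omega), if_neg (by omega)]
      simp only [decide_eq_false (show ¬ m = n by omega), cond_false]
      exact h (m - n - 1) v

theorem via_zero (c : ℕ) : Via (Code.curry U c) (fun _ => false) (fun _ => false) := by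
  have h1 : ∀ s, lb (pre (fun _ => false) s) = s := by
    intro s
    have e : pre (fun _ => false) s = List.replicate s false := by
      refine List.ext_getElem (by simp) fun k h1 h2 => ?_
      rw [getElem_pre, List.getElem_replicate]
    have h3 : lb (pre (fun _ => false) s) ≤ (pre (fun _ => false) s).length :=
      List.findIdx_le_length
    rw [length_pre] at h3
    by_contra hc
    have h4 : lb (pre (fun _ => false) s) < (pre (fun _ => false) s).length := by
      rw [length_pre]
      omega
    unfold lb at h4
    rw [List.findIdx_lt_length, e] at h4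
    obtain ⟨b, h5, h6⟩ := h4
    rw [List.eq_of_mem_replicate h5] at h6
    exact absurd h6 (by simp)
  intro m v
  constructor
  · rintro ⟨s, hs⟩
    rw [hU] at hs
    unfold ul at hs
    simp only at hs
    rw [h1 s, length_pre, decide_eq_false (p := s < s) (lt_irrefl s), cond_false] at hs
    by_cases h6 : m < s
    · rw [decide_eq_true h6, cond_true] at hs
      simpa using hs
    · rw [decide_eq_false h6, cond_false] at hs
      exact absurd hs (Part.notMem_none _)
  · intro hv
    refine ⟨m + 1, ?_⟩
    rw [hU]
    unfold ul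
    simp only
    rw [h1, decide_eq_true (Nat.lt_succ_self m), cond_true, hv]
    simp

end

theorem lab_cases (Z : R) : (Z = fun _ => false) ∨ ∃ n X, Z = lab n X := by
  classical
  by_cases h : ∃ n, Z n = true
  · right
    refine ⟨Nat.find h, fun k => Z (k + Nat.find h + 1), ?_⟩
    funext k
    unfold lab
    rcases Nat.lt_trichotomy k (Nat.find h) with h1 | h1 | h1
    · rw [if_pos h1]
      exact Bool.not_eq_true _ ▸ Nat.find_min h h1
    · rw [if_neg (by omega), if_pos h1, h1]
      exact Nat.find_spec h
    · rw [if_neg (by omega), if_neg (by omega)]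
      congr 1
      omega
  · left
    push Not at h
    funext k
    simpa using h k

/-- One index for all programs. -/
theorem main_lab (k : ℕ → Code) (hk : Computable k)
    (ht : ∀ (c : ℕ) (X : R), ∃ Y, Via (k c) X Y) : ∃ e : ℕ,
    (∀ (n : ℕ) (X : R), TLe X (chr (WE (lab n X) e)) ∧ ¬ TLe (chr (WE (lab n X) e)) X ∧
      TLe (chr (WE (lab n X) e)) (jump X) ∧ ¬ TLe (jump X) (chr (WE (lab n X) e)) ∧
      TLe (jump (chr (WE (lab n X) e))) (jump X)) ∧
    ∀ (i : Code) (X Y : R) (c : ℕ), Via i X Y → Via (k c) Y X →
      TLe (chr (WE (lab (encode i) X) e)) (chr (WE (lab (encode i) Y) e)) ∧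
      TLe (chr (WE (lab (encode i) Y) e)) (chr (WE (lab (encode i) X) e)) := by
  let sel : ℕ × ℕ → Code := fun x =>
    Nat.casesOn x.1 (Denumerable.ofNat Code x.2) fun c => k c
  have hs : Computable sel := by
    have h1 : Computable fun x : (ℕ × ℕ) × ℕ => k x.2 := hk.comp Computable.snd
    have h2 : Computable fun x : ℕ × ℕ => Denumerable.ofNat Code x.2 :=
      (Computable.ofNat Code).comp Computable.snd
    exact Computable.nat_casesOn Computable.fst h2 h1
  obtain ⟨U, hU⟩ := exists_ul hs
  have hcur : Computable fun c : ℕ => Code.curry U (c + 1) :=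
    (Code.primrec₂_curry.comp (Primrec.const U) (Primrec.succ)).to_comp
  have htot : ∀ (c : ℕ) (Z : R), ∃ Z', Via (Code.curry U (c + 1)) Z Z' := by
    intro c Z
    rcases lab_cases Z with h | ⟨n, X, h⟩
    · exact ⟨_, by rw [h]; exact via_zero hU (c + 1)⟩
    · obtain ⟨Y, hY⟩ := ht c X
      exact ⟨lab n Y, by rw [h]; exact via_lab hU (c := c + 1) (n := n) hY⟩
  obtain ⟨e, h1, h2⟩ := main_list (Code.curry U 0) _ hcur htot
  refine ⟨e, fun n X => ?_, fun i X Y c hi hj => ?_⟩
  · obtain ⟨a1, a2, a3, a4, a5⟩ := h1 (lab n X)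
    have l1 := lab_le n X
    have l2 := le_lab n X
    exact ⟨l2.trans a1, fun h => a2 (h.trans l2), a3.trans l1.jump,
      fun h => a4 (l1.jump.trans h), a5.trans l1.jump⟩
  · have hi' : Via (sel (0, encode i)) X Y := by
      show Via (Denumerable.ofNat Code (encode i)) X Y
      rw [Denumerable.ofNat_encode]
      exact hi
    exact h2 _ _ c (via_lab hU hi') (via_lab hU (c := c + 1) (n := encode i) hj)

end Pool.Agent.TH769.FB
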