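import Pool.Agent.TH769.FB.Core
import Pool.Agent.TH769.LH.Mrk

set_option autoImplicit false

/-!
Edges, roots and markers for a map and a sequence of maps in the other direction.
-/

namespace Pool.Agent.TH769.FB

open Pool.Agent.TH769.CD (bdd_lt)
open Pool.Agent.TH769.TL (gr gr_le gr_congr gr_shift gr_le_last)
open Pool.Agent.TH769.LH (lst lst_spec lst_eq lst_congr nn TNn nn_lim TNn_cases TM tm_fin Dyn Per
  per_cycle Tr Mk_tr Mk)

section defs

variable {I : Type} (v : ℕ → I → ℕ) (ap : ℕ → I → I)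

/-- the iterates of `ap 0` -/
def mva (i : ℕ) (p : I) : I := (ap 0)^[i] p

/-- the edge from `p` to `ap 0 p` looks right at stage `s`, for one of the first `k + 1` maps -/
def ED (k s : ℕ) (p : I) : Prop := ∃ c < k + 1, v s (ap (c + 1) (ap 0 p)) = v s p

/-- the distance to the first root -/
noncomputable def dd (k s : ℕ) (p : I) : ℕ := lst (fun i => ¬ ED v ap k s (mva ap i p)) (s + 1)

/-- the distance to the root, if there is one, and to the first marker otherwise -/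
noncomputable def nk (k s : ℕ) (p : I) : ℕ :=
  if dd v ap k s p < s + 1 then dd v ap k s p else nn v (mva ap) k s p

/-- the distance to the representative -/
noncomputable def gk (k s : ℕ) (p : I) : ℕ := gr k (fun j => nk v ap j s p) (k + 1)

/-- the edge from `p` to `ap 0 p` is right, for one of the first `k + 1` maps -/
def TE (k : ℕ) (p : I) : Prop := ∃ c < k + 1, ap (c + 1) (ap 0 p) = p

/-- there is a root ahead -/
def TRt (k : ℕ) (p : I) : Prop := ∃ i, ¬ TE ap k (mva ap i p)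

/-- the exceptional points -/
def Exc (p : I) : Prop := (∃ k, ¬ TRt ap k p) ∧ Per v (mva ap) p

theorem gk_le (k s : ℕ) (p : I) : gk v ap k s p ≤ (k + 1) * k := gr_le _ _ _

end defs

section

variable {I : Type} {v : ℕ → I → ℕ} {ap : ℕ → I → I}

theorem mva_zero (p : I) : mva ap 0 p = p := rfl

theorem mva_succ (i : ℕ) (p : I) : mva ap (i + 1) p = mva ap i (ap 0 p) :=
  Function.iterate_succ_apply _ _ _

theorem mva_succ' (i : ℕ) (p : I) : mva ap (i + 1) p = ap 0 (mva ap i p) :=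
  Function.iterate_succ_apply' _ _ _

theorem mva_add (i j : ℕ) (p : I) : mva ap i (mva ap j p) = mva ap (i + j) p :=
  (Function.iterate_add_apply _ _ _ _).symm

theorem TE_mono {k k' : ℕ} (h : k ≤ k') {p : I} (h1 : TE ap k p) : TE ap k' p := by
  obtain ⟨c, hc, h2⟩ := h1
  exact ⟨c, by omega, h2⟩

theorem TRt_succ {k : ℕ} {p : I} (h : TE ap k p) : TRt ap k (ap 0 p) ↔ TRt ap k p := by
  constructor
  · rintro ⟨i, hi⟩
    exact ⟨i + 1, by rwa [mva_succ]⟩
  · rintro ⟨i, hi⟩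
    rcases Nat.eq_zero_or_pos i with h1 | h1
    · subst h1
      exact absurd h hi
    · refine ⟨i - 1, ?_⟩
      rwa [← mva_succ, show i - 1 + 1 = i by omega]

theorem e_lim (hd : Dyn v (mva ap)) (k : ℕ) (z : I) :
    ∃ s0, ∀ s ≥ s0, (ED v ap k s z ↔ TE ap k z) := by
  by_cases h : TE ap k z
  · refine ⟨0, fun s _ => ⟨fun _ => h, fun _ => ?_⟩⟩
    obtain ⟨c, hc, h1⟩ := h
    exact ⟨c, hc, by rw [h1]⟩
  · obtain ⟨s0, h0⟩ := bdd_lt (k + 1) (fun c s => v s (ap (c + 1) (ap 0 z)) ≠ v s z)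
      (fun c hc => by
        by_contra hcon
        push Not at hcon
        refine h ⟨c, hc, hd.ext _ _ fun m => ?_⟩
        obtain ⟨b, hb, he⟩ := hcon m
        exact le_antisymm (hd.down m b _ _ hb he.le) (hd.down m b _ _ hb he.ge))
    refine ⟨s0, fun s hs => ⟨fun h1 => ?_, fun h1 => absurd h1 h⟩⟩
    obtain ⟨c, hc, h2⟩ := h1
    exact absurd h2 (h0 c hc s hs)

theorem dd_lim (hd : Dyn v (mva ap)) {k : ℕ} {z : I} {i : ℕ} (h : ¬ TE ap k (mva ap i z))
    (hm : ∀ t < i, TE ap k (mva ap t z)) : ∃ s0, ∀ s ≥ s0, dd v ap k s z = i := by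
  obtain ⟨s1, h1⟩ := bdd_lt (i + 1)
    (fun t s => (ED v ap k s (mva ap t z) ↔ TE ap k (mva ap t z))) (fun t _ => e_lim hd k _)
  refine ⟨max s1 i, fun s hs => ?_⟩
  refine lst_eq (p := fun i => ¬ ED v ap k s (mva ap i z)) ?_ (fun j hj => ?_) (by omega)
  · exact fun h2 => h ((h1 i (Nat.lt_succ_self i) s (by omega)).1 h2)
  · exact fun h2 => h2 ((h1 j (by omega) s (by omega)).2 (hm j hj))

theorem dd_inf {k s : ℕ} {z : I} (h : ¬ TRt ap k z) : dd v ap k s z = s + 1 := by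
  obtain ⟨g1, g2, g3⟩ := lst_spec (fun i => ¬ ED v ap k s (mva ap i z)) (s + 1)
  rcases Nat.lt_or_ge (lst (fun i => ¬ ED v ap k s (mva ap i z)) (s + 1)) (s + 1) with h1 | h1
  · exfalso
    have h2 := g3 h1
    unfold TRt at h
    push Not at h
    obtain ⟨c, hc, h3⟩ := h (lst (fun i => ¬ ED v ap k s (mva ap i z)) (s + 1))
    exact h2 ⟨c, hc, by rw [h3]⟩
  · exact le_antisymm g1 h1

open Classical in
/-- the limit of `nk` -/
noncomputable def Tn (hd : Dyn v (mva ap)) (k : ℕ) (z : I) : ℕ :=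
  if h : TRt ap k z then Nat.find h else TNn hd k z

theorem nk_lim (hd : Dyn v (mva ap)) (k : ℕ) (z : I) :
    ∃ s0, ∀ s ≥ s0, nk v ap k s z = Tn hd k z := by
  classical
  by_cases h : TRt ap k z
  · obtain ⟨s1, h1⟩ := dd_lim hd (Nat.find_spec h) (fun t ht => not_not.1 (Nat.find_min h ht))
    refine ⟨max s1 (Nat.find h), fun s hs => ?_⟩
    unfold nk Tn
    rw [h1 s (by omega), if_pos (by omega), dif_pos h]
  · obtain ⟨s1, h1⟩ := nn_lim hd k z
    refine ⟨s1, fun s hs => ?_⟩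
    unfold nk Tn
    rw [dd_inf h, if_neg (by omega), dif_neg h, h1 s hs]

/-- all edges before the limit position are right -/
theorem Tn_edges (hd : Dyn v (mva ap)) {k : ℕ} {z : I} {t : ℕ} (ht : t < Tn hd k z) :
    TE ap k (mva ap t z) := by
  classical
  unfold Tn at ht
  split_ifs at ht with h
  · exact not_not.1 (Nat.find_min h ht)
  · unfold TRt at h
    push Not at h
    exact h t

theorem Tn_root (hd : Dyn v (mva ap)) {k : ℕ} {z : I} (h : ¬ TE ap k z) : Tn hd k z = 0 := by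
  classical
  have h1 : TRt ap k z := ⟨0, h⟩
  unfold Tn
  rw [dif_pos h1]
  exact (Nat.find_eq_zero h1).2 h

theorem Tn_rt (hd : Dyn v (mva ap)) {k : ℕ} {z : I} (h : TE ap k z) (h1 : TRt ap k z) :
    Tn hd k z = Tn hd k (ap 0 z) + 1 := by
  classical
  have h2 : TRt ap k (ap 0 z) := (TRt_succ h).2 h1
  unfold Tn
  rw [dif_pos h1, dif_pos h2]
  refine (Nat.find_eq_iff h1).2 ⟨?_, fun j hj => ?_⟩
  · have := Nat.find_spec h2
    rwa [← mva_succ] at this
  · rcases Nat.eq_zero_or_pos j with h3 | h3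
    · subst h3
      exact not_not.2 h
    · have := Nat.find_min h2 (show j - 1 < Nat.find h2 by omega)
      rwa [← mva_succ, show j - 1 + 1 = j by omega] at this

theorem Tn_mk (hd : Dyn v (mva ap)) {k : ℕ} {z : I} (h : TE ap k z) (h1 : ¬ TRt ap k z) :
    (TM v (mva ap) k z → Tn hd k z = 0) ∧
    (¬ TM v (mva ap) k z → Tn hd k z = Tn hd k (ap 0 z) + 1) := by
  classical
  have h2 : ¬ TRt ap k (ap 0 z) := fun h3 => h1 ((TRt_succ h).1 h3)
  unfold Tn
  rw [dif_neg h1, dif_neg h2]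
  exact TNn_cases hd rfl k z

noncomputable def TG (hd : Dyn v (mva ap)) (k : ℕ) (z : I) : ℕ :=
  gr k (fun j => Tn hd j z) (k + 1)

theorem TG_edges (hd : Dyn v (mva ap)) {k : ℕ} {z : I} {t : ℕ} (ht : t < TG hd k z) :
    TE ap k (mva ap t z) :=
  Tn_edges hd (lt_of_lt_of_le ht (gr_le_last k (fun j => Tn hd j z) (k + 1)))

theorem TG_le (hd : Dyn v (mva ap)) (k : ℕ) (z : I) : TG hd k z ≤ (k + 1) * k := gr_le _ _ _

theorem gk_lim (hd : Dyn v (mva ap)) (k : ℕ) (z : I) :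
    ∃ s0, ∀ s ≥ s0, gk v ap k s z = TG hd k z := by
  obtain ⟨s0, h0⟩ := bdd_lt (k + 1) (fun j s => nk v ap j s z = Tn hd j z)
    (fun j _ => nk_lim hd j z)
  exact ⟨s0, fun s hs => gr_congr (fun j hj => h0 j hj s hs) (by omega)⟩

theorem tg_shift (hd : Dyn v (mva ap)) {z : I} {c0 : ℕ} (he : TE ap c0 z)
    (h : ¬ Exc v ap z) : ∃ k0, ∀ k ≥ k0, TG hd k z = TG hd k (ap 0 z) + 1 := by
  have hcase : ∃ j0, ∀ j ≥ j0, Tn hd j z = Tn hd j (ap 0 z) + 1 := by
    by_cases hr : ∀ k, TRt ap k z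
    · exact ⟨c0, fun j hj => Tn_rt hd (TE_mono hj he) (hr j)⟩
    · push Not at hr
      obtain ⟨k1, hk1⟩ := hr
      have hP : ¬ Per v (mva ap) z := fun hP => h ⟨⟨k1, hk1⟩, hP⟩
      obtain ⟨j0, hj0⟩ := tm_fin hd hP
      refine ⟨max c0 (max k1 j0), fun j hj => ?_⟩
      have h1 : ¬ TRt ap j z := by
        rintro ⟨i, hi⟩
        exact hk1 ⟨i, fun h2 => hi (TE_mono (by omega) h2)⟩
      exact (Tn_mk hd (TE_mono (by omega) he) h1).2 (hj0 j (by omega))
  obtain ⟨j0, hj0⟩ := hcase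
  refine gr_shift (j0 := j0) (fun j => ?_) hj0
  by_cases h1 : TE ap j z
  · by_cases h2 : TRt ap j z
    · exact Or.inr (Tn_rt hd h1 h2)
    · by_cases h3 : TM v (mva ap) j z
      · exact Or.inl ((Tn_mk hd h1 h2).1 h3)
      · exact Or.inr ((Tn_mk hd h1 h2).2 h3)
  · exact Or.inl (Tn_root hd h1)

theorem exh (hd : Dyn v (mva ap)) {z : I} {c0 : ℕ} (he : TE ap c0 z)
    (h : ¬ Exc v ap z) : ∃ m0, ∀ m ≥ m0, ∃ s0, ∀ s ≥ s0,
      gk v ap m s z = gk v ap m s (ap 0 z) + 1 := by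
  obtain ⟨m0, hm0⟩ := tg_shift hd he h
  refine ⟨m0, fun m hm => ?_⟩
  obtain ⟨s1, h1⟩ := gk_lim hd m z
  obtain ⟨s2, h2⟩ := gk_lim hd m (ap 0 z)
  refine ⟨max s1 s2, fun s hs => ?_⟩
  rw [h1 s (by omega), h2 s (by omega), hm0 m hm]

theorem exc_cycle (hd : Dyn v (mva ap)) {z : I} (h : Exc v ap z) :
    ∃ p k1, 0 < p ∧ mva ap p z = z ∧ (∀ i, TE ap k1 (mva ap i z)) ∧
    ∀ i < p, 0 < i → ¬ Exc v ap (mva ap i z) := by
  obtain ⟨⟨k1, hk1⟩, hP⟩ := h
  obtain ⟨p, hp0, hp, hc⟩ := per_cycle hd hP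
  unfold TRt at hk1
  push Not at hk1
  exact ⟨p, k1, hp0, hp, hk1, fun i hi h0 hE => hc i hi h0 hE.2⟩

end

/-! Comparison. -/

/-- the data on `J` describe those on `I` in a region -/
structure TrA {I J : Type} (v : ℕ → I → ℕ) (ap : ℕ → I → I) (v' : ℕ → J → ℕ) (ap' : ℕ → J → J)
    (φ : J → I) (rk : J → ℕ) (ok : J → Prop) (b K N : ℕ) : Prop where
  hv : ∀ p, ok p → rk p ≤ K → ∀ m ≤ N, v' m p = v m (φ p)
  ha : ∀ c p, φ (ap' c p) = ap c (φ p)
  hr : ∀ c p, rk (ap' c p) ≤ rk p + 1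
  hok : ∀ c < b, ∀ p, ok p → ok (ap' c p)
  hb : 0 < b

section

variable {I J : Type} {v : ℕ → I → ℕ} {ap : ℕ → I → I} {v' : ℕ → J → ℕ} {ap' : ℕ → J → J}
  {φ : J → I} {rk : J → ℕ} {ok : J → Prop} {b K N : ℕ}

theorem phi_mva (h : TrA v ap v' ap' φ rk ok b K N) (i : ℕ) (p : J) :
    φ (mva ap' i p) = mva ap i (φ p) := by
  induction i with
  | zero => rfl
  | succ i ih => rw [mva_succ', mva_succ', h.ha, ih]

theorem rk_mva (h : TrA v ap v' ap' φ rk ok b K N) (i : ℕ) (p : J) :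
    rk (mva ap' i p) ≤ rk p + i := by
  induction i with
  | zero => exact le_rfl
  | succ i ih =>
    have := h.hr 0 (mva ap' i p)
    rw [mva_succ']
    omega

theorem ok_mva (h : TrA v ap v' ap' φ rk ok b K N) (i : ℕ) (p : J) (ho : ok p) :
    ok (mva ap' i p) := by
  induction i with
  | zero => exact ho
  | succ i ih =>
    rw [mva_succ']
    exact h.hok 0 h.hb _ ih

theorem TrA.tr (h : TrA v ap v' ap' φ rk ok b K N) :
    Tr v (mva ap) v' (mva ap') φ rk ok K N :=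
  ⟨h.hv, phi_mva h, rk_mva h, ok_mva h⟩

theorem ED_tr (h : TrA v ap v' ap' φ rk ok b K N) {k s : ℕ} {p : J} (hk : k + 1 < b) (hs : s ≤ N)
    (hp : rk p + 2 ≤ K) (ho : ok p) : ED v' ap' k s p ↔ ED v ap k s (φ p) := by
  refine exists_congr fun c => and_congr_right fun hc => ?_
  have h1 := h.hr 0 p
  have h2 := h.hr (c + 1) (ap' 0 p)
  rw [h.hv p ho (by omega) s hs, h.hv _ (h.hok (c + 1) (by omega) _ (h.hok 0 h.hb p ho)) (by omega)
    s hs, h.ha, h.ha]

theorem dd_tr (h : TrA v ap v' ap' φ rk ok b K N) {k s : ℕ} {p : J} (hk : k + 1 < b) (hs : s ≤ N)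
    (hp : rk p + N + 2 ≤ K) (ho : ok p) : dd v' ap' k s p = dd v ap k s (φ p) := by
  refine lst_congr fun i hi => not_congr ?_
  have h1 := rk_mva h i p
  rw [ED_tr h hk hs (by omega) (ok_mva h i p ho), phi_mva h]

theorem nn_tr (h : TrA v ap v' ap' φ rk ok b K N) {k s : ℕ} {p : J} (hk : k ≤ N) (hs : s ≤ N)
    (hp : rk p + 3 * N ≤ K) (ho : ok p) :
    nn v' (mva ap') k s p = nn v (mva ap) k s (φ p) := by
  refine lst_congr fun i hi => ?_
  have h1 := rk_mva h i p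
  rw [Mk_tr h.tr hk hs (by omega) (ok_mva h i p ho), phi_mva h]

theorem nk_tr (h : TrA v ap v' ap' φ rk ok b K N) {k s : ℕ} {p : J} (hk : k ≤ N) (hkb : k + 1 < b)
    (hs : s ≤ N) (hp : rk p + 3 * N + 2 ≤ K) (ho : ok p) : nk v' ap' k s p = nk v ap k s (φ p) := by
  unfold nk
  rw [dd_tr h hkb hs (by omega) ho, nn_tr h hk hs (by omega) ho]

theorem gk_tr (h : TrA v ap v' ap' φ rk ok b K N) {k s : ℕ} {p : J} (hk : k ≤ N) (hkb : k + 1 < b)
    (hs : s ≤ N) (hp : rk p + 3 * N + 2 ≤ K) (ho : ok p) : gk v' ap' k s p = gk v ap k s (φ p) :=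
  gr_congr (fun j hj => nk_tr h (by omega) (by omega) hs hp ho) (by omega)

end

end Pool.Agent.TH769.FB
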