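import Pool.Agent.TH769.FB.Cst

set_option autoImplicit false

/-!
The classes in finite terms, and the construction on nodes.
-/

namespace Pool.Agent.TH769.FB

open Encodable Pool.Agent.Helper227 Pool.Agent.H548R2.Post
open Nat.Partrec (Code)
open Pool.Agent.TH769.CD (jp jp_congr bdd_lt)
open Pool.Agent.TH769.ZA (val val_congr val_eq val_le)
open Pool.Agent.TH769.LH (Dyn R vr dyn EY CY CY_congr)

section

variable {I : Type}

/-- the member of the class of `p` with the code `a, l, w` -/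
def nd (ap : ℕ → I → I) (m : ℕ) (p : I) (a l w : ℕ) : I := cat ap (dg (m + 1) l w) (mva ap a p)

/-- `EC` with bounded quantifiers -/
def EF (v : ℕ → I → ℕ) (ap : ℕ → I → I) (m s t h : ℕ) (p : I) (Ψ : Prop → I → Prop) : Prop :=
  ∃ a < bb m + 1, ∃ l < bb m + 1, ∃ w < (m + 1) ^ l, MemG v ap m s h p a (dg (m + 1) l w) ∧
    Ψ (vd v ap t (dg (m + 1) l w) (mva ap a p)) (nd ap m p a l w)

variable {v : ℕ → I → ℕ} {ap : ℕ → I → I}

theorem EC_fin {m s t h : ℕ} {p : I} {Ψ : Prop → I → Prop} (hh : h ≤ bb m) :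
    EC v ap m s t h p Ψ ↔ EF v ap m s t h p Ψ := by
  constructor
  · rintro ⟨a, τ, h1, h2, h3⟩
    obtain ⟨w, hw, he⟩ := exists_dg h1
    obtain ⟨g1, g2, g3⟩ := id h2
    have h4 : gk v ap m s (cat ap τ (mva ap a p)) ≤ bb m := gk_le v ap m s _
    refine ⟨a, by omega, τ.length, by omega, w, hw, ?_⟩
    unfold nd
    rw [he]
    exact ⟨h2, h3⟩
  · rintro ⟨a, -, l, -, w, -, h2, h3⟩
    exact ⟨a, dg (m + 1) l w, dg_lt (Nat.succ_pos m) l w, h2, h3⟩

theorem ex_class {m s : ℕ} {p : I} {φ : I → Prop} :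
    (∃ q, Q v ap m s p q ∧ φ q) ↔ ∃ a < bb m + 1, ∃ l < bb m + 1, ∃ w < (m + 1) ^ l,
      MemG v ap m s (gk v ap m s p) p a (dg (m + 1) l w) ∧ φ (nd ap m p a l w) := by
  constructor
  · rintro ⟨q, h1, h2⟩
    unfold Q at h1
    rw [EC_fin (gk_le v ap m s p)] at h1
    obtain ⟨a, ha, l, hl, w, hw, h3, h4⟩ := h1
    subst h4
    exact ⟨a, ha, l, hl, w, hw, h3, h2⟩
  · rintro ⟨a, ha, l, hl, w, hw, h3, h4⟩
    exact ⟨_, (EC_fin (gk_le v ap m s p)).2 ⟨a, ha, l, hl, w, hw, h3, rfl⟩, h4⟩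

theorem all_class {m s : ℕ} {p : I} {φ : I → Prop} :
    (∀ q, Q v ap m s p q → φ q) ↔ ∀ a < bb m + 1, ∀ l < bb m + 1, ∀ w < (m + 1) ^ l,
      MemG v ap m s (gk v ap m s p) p a (dg (m + 1) l w) → φ (nd ap m p a l w) := by
  have h := not_congr (ex_class (v := v) (ap := ap) (m := m) (s := s) (p := p)
    (φ := fun q => ¬ φ q))
  push Not at h
  exact h

end

/-- the finite form of the conditions for a candidate -/
def FC (m s z : ℕ) (St : ℕ → Prop) (G : ℕ → ℕ → ℕ → Prop) (EE W : ℕ → ℕ → ℕ → ℕ → Prop)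
    (C : ℕ → ℕ → ℕ → ℕ → ℕ → Prop) : Prop :=
  z < s ∧ (∃ u < s + 1, St u ∧ z.unpair.1 = Nat.pair m u) ∧
  (∃ a < bb m + 1, ∃ l < bb m + 1, ∃ w < (m + 1) ^ l, G a l w ∧
    (EE a l w z ∧ ∀ y < s, W a l w y → ¬ EE a l w y)) ∧
  ∀ a < bb m + 1, ∀ l < bb m + 1, ∀ w < (m + 1) ^ l, G a l w → ∀ e < m,
    (∃ u < s + 1, C e u a l w) → ∃ u < z + 1, u < s + 1 ∧ C e u a l w

theorem cand_FC {φ : ℕ → R → R} {V : ℕ → R → ℕ → Prop} {m s z : ℕ} {p : R} :
    Cand EY CY (Q vr φ) (Ch vr φ) V m s p z ↔ FC m s z (fun u => IsSt (Ch vr φ) m s p u)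
      (fun a l w => MemG vr φ m s (gk vr φ m s p) p a (dg (m + 1) l w))
      (fun a l w y => En s m y (nd φ m p a l w))
      (fun a l w y => V s (nd φ m p a l w) y)
      (fun e u a l w => CY s e u (nd φ m p a l w) (V s (nd φ m p a l w))) := by
  unfold Cand FC Ok
  rw [ex_class (φ := fun w => EY s m z w ∧ ∀ y < s, V s w y → ¬ EY s m y w), all_class]
  rfl

theorem FC_congr {m s z : ℕ} {St St' : ℕ → Prop} {G G' : ℕ → ℕ → ℕ → Prop}
    {EE W EE' W' : ℕ → ℕ → ℕ → ℕ → Prop} {C C' : ℕ → ℕ → ℕ → ℕ → ℕ → Prop}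
    (h1 : ∀ u < s + 1, (St u ↔ St' u))
    (h2 : ∀ a < bb m + 1, ∀ l < bb m + 1, ∀ w < (m + 1) ^ l, (G a l w ↔ G' a l w))
    (h3 : ∀ a < bb m + 1, ∀ l < bb m + 1, ∀ w < (m + 1) ^ l, ∀ y, (EE a l w y ↔ EE' a l w y))
    (h4 : ∀ a < bb m + 1, ∀ l < bb m + 1, ∀ w < (m + 1) ^ l, ∀ y < s,
      (W a l w y ↔ W' a l w y))
    (h5 : ∀ a < bb m + 1, ∀ l < bb m + 1, ∀ w < (m + 1) ^ l, ∀ e, ∀ u < s + 1,
      (C e u a l w ↔ C' e u a l w)) :
    FC m s z St G EE W C ↔ FC m s z St' G' EE' W' C' := by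
  unfold FC
  refine and_congr Iff.rfl (and_congr ?_ (and_congr ?_ ?_))
  · exact exists_congr fun u => and_congr_right fun hu => by rw [h1 u hu]
  · refine exists_congr fun a => and_congr_right fun ha => exists_congr fun l =>
      and_congr_right fun hl => exists_congr fun w => and_congr_right fun hw =>
      and_congr (h2 a ha l hl w hw) (and_congr (h3 a ha l hl w hw z) ?_)
    exact forall_congr' fun y => forall_congr' fun hy => imp_congr (h4 a ha l hl w hw y hy)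
      (not_congr (h3 a ha l hl w hw y))
  · refine forall_congr' fun a => forall_congr' fun ha => forall_congr' fun l =>
      forall_congr' fun hl => forall_congr' fun w =>
      forall_congr' fun hw => imp_congr (h2 a ha l hl w hw) (forall_congr' fun e =>
        forall_congr' fun _ => imp_congr ?_ ?_)
    · exact exists_congr fun u => and_congr_right fun hu => h5 a ha l hl w hw e u hu
    · exact exists_congr fun u => and_congr_right fun _ => and_congr_right fun hu =>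
        h5 a ha l hl w hw e u hu

/-! Nodes. -/

/-- a node is a word; it stands for the composition of the corresponding maps -/
abbrev Nd : Type := List ℕ

def apN (c : ℕ) (p : Nd) : Nd := c :: p

def okN (b : ℕ) (p : Nd) : Prop := ∀ c ∈ p, c < b

/-- the oracle at a node -/
def ph (φ : ℕ → R → R) (X : R) (p : Nd) : R := p.foldr (fun c x => φ c x) X

def vY (Y : Nd → R) (m : ℕ) (p : Nd) : ℕ := val (Y p) m

noncomputable def gN (Y : Nd → R) (m s : ℕ) (p : Nd) : ℕ := gk (vY Y) apN m s p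

def MN (Y : Nd → R) (m s h : ℕ) (p : Nd) (a l w : ℕ) : Prop :=
  MemG (vY Y) apN m s h p a (dg (m + 1) l w)

def EN (Y : Nd → R) (m s t h : ℕ) (p : Nd) : Prop :=
  ∃ a < bb m + 1, ∃ l < bb m + 1, ∃ w < (m + 1) ^ l, MN Y m s h p a l w ∧
    (¬ vd (vY Y) apN t (dg (m + 1) l w) (mva apN a p) ∨
      gN Y m (t - 1) (nd apN m p a l w) ≠ gN Y m t (nd apN m p a l w))

def ChgN (Y : Nd → R) (m s : ℕ) (p : Nd) : Prop :=
  EN Y m (s - 1) s (gN Y m (s - 1) p) p ∨ EN Y m s s (gN Y m s p) p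

def StN (Y : Nd → R) (m s : ℕ) (p : Nd) (u : ℕ) : Prop :=
  (u = 0 ∨ ChgN Y m u p) ∧ ∀ s' < s + 1, u < s' → ¬ ChgN Y m s' p

def FN (Y : Nd → R) (V : ℕ → Nd → ℕ → Prop) (m s : ℕ) (p : Nd) (z : ℕ) : Prop :=
  FC m s z (fun u => StN Y m s p u) (fun a l w => MN Y m s (gN Y m s p) p a l w)
    (fun a l w y => En s m y (Y (nd apN m p a l w)))
    (fun a l w y => V s (nd apN m p a l w) y)
    (fun e u a l w => CY s e u (Y (nd apN m p a l w)) (V s (nd apN m p a l w)))

def SN (Y : Nd → R) (V : ℕ → Nd → ℕ → Prop) (s : ℕ) (p : Nd) (z : ℕ) : Prop :=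
  ∃ m < s, FN Y V m s p z ∧ ∀ z' < z, ¬ FN Y V m s p z'

/-- the oracles at the nodes are right up to length `K` -/
def GdY (φ : ℕ → R → R) (X : R) (Y : Nd → R) (K N : ℕ) : Prop :=
  ∀ p, okN (N + 1) p → p.length ≤ K → ∀ i < N, Y p i = ph φ X p i

section

variable {φ : ℕ → R → R} {X : R} {Y : Nd → R} {K N : ℕ}

theorem ok_cons {b c : ℕ} {p : Nd} (hc : c < b) (ho : okN b p) : okN b (apN c p) := by
  intro x hx
  rcases List.mem_cons.1 hx with h | h
  · rw [h]
    exact hc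
  · exact ho x h

theorem tr_of (hY : GdY φ X Y K N) :
    TrA vr φ (vY Y) apN (ph φ X) List.length (okN (N + 1)) (N + 1) K N where
  hv p ho hp m hm := val_congr fun i hi => hY p ho hp i (by omega)
  ha c p := rfl
  hr c p := le_rfl
  hok c hc p ho := ok_cons hc ho
  hb := Nat.succ_pos N

theorem gN_eq (hY : GdY φ X Y K N) {m s : ℕ} {p : Nd} (hm : m < N) (hs : s ≤ N)
    (ho : okN (N + 1) p) (hp : p.length + 3 * N + 2 ≤ K) :
    gN Y m s p = gk vr φ m s (ph φ X p) := gk_tr (tr_of hY) hm.le (by omega) hs hp ho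

theorem ph_cat (τ : List ℕ) (p : Nd) : ph φ X (cat apN τ p) = cat φ τ (ph φ X p) := by
  induction τ with
  | nil => rfl
  | cons c τ ih =>
    show φ (c + 1) (ph φ X (cat apN τ p)) = φ (c + 1) (cat φ τ (ph φ X p))
    rw [ih]

theorem len_cat (τ : List ℕ) (p : Nd) : (cat apN τ p).length = τ.length + p.length := by
  induction τ with
  | nil => simp [cat]
  | cons c τ ih =>
    show (cat apN τ p).length + 1 = (c :: τ).length + p.length
    rw [ih, List.length_cons]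
    omega

theorem ok_cat {b : ℕ} {τ : List ℕ} (hτ : ∀ c ∈ τ, c + 1 < b) {p : Nd} (ho : okN b p) :
    okN b (cat apN τ p) := by
  induction τ with
  | nil => exact ho
  | cons c τ ih =>
    exact ok_cons (hτ c (by simp)) (ih fun x hx => hτ x (List.mem_cons_of_mem _ hx))

theorem ph_mva (i : ℕ) (p : Nd) : ph φ X (mva apN i p) = mva φ i (ph φ X p) := by
  induction i with
  | zero => rfl
  | succ i ih =>
    rw [mva_succ', mva_succ', ← ih]
    rfl

theorem len_mva (i : ℕ) (p : Nd) : (mva apN i p).length = i + p.length := by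
  induction i with
  | zero => simp [mva]
  | succ i ih =>
    rw [mva_succ']
    show (mva apN i p).length + 1 = _
    omega

theorem ok_mvaN {b : ℕ} (hb : 0 < b) (i : ℕ) {p : Nd} (ho : okN b p) : okN b (mva apN i p) := by
  induction i with
  | zero => exact ho
  | succ i ih =>
    rw [mva_succ']
    exact ok_cons hb ih

theorem vdN_iff (hY : GdY φ X Y K N) {m s : ℕ} {τ : List ℕ} {p : Nd} (hτ : ∀ c ∈ τ, c < m + 1)
    (hm : m < N) (hs : s ≤ N) (ho : okN (N + 1) p) (hp : p.length + τ.length + 1 ≤ K) :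
    vd (vY Y) apN s τ p ↔ vd vr φ s τ (ph φ X p) := by
  have h := tr_of hY
  have hok : ∀ i, okN (N + 1) (cat apN (τ.drop i) p) := fun i =>
    ok_cat (fun c hc => by have := hτ c (List.mem_of_mem_drop hc); omega) ho
  have hlen : ∀ i, (cat apN (τ.drop i) p).length + 1 ≤ K := fun i => by
    rw [len_cat, List.length_drop]
    omega
  have e1 : ∀ i, vY Y s (apN 0 (cat apN (τ.drop i) p)) = vr s (φ 0 (cat φ (τ.drop i) (ph φ X p))) :=
    fun i => by
      rw [h.hv _ (ok_cons (Nat.succ_pos N) (hok i)) (hlen i) s hs, h.ha, ph_cat]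
  have e2 : ∀ i, vY Y s (cat apN (τ.drop i) p) = vr s (cat φ (τ.drop i) (ph φ X p)) :=
    fun i => by
      have := hlen i
      rw [h.hv _ (hok i) (by omega) s hs, ph_cat]
  unfold vd vE
  refine forall_congr' fun i => forall_congr' fun hi => ?_
  beta_reduce
  rw [e1, e2]

theorem memG_iff (hY : GdY φ X Y K N) {m s h a : ℕ} {τ : List ℕ} {p : Nd}
    (hτ : ∀ c ∈ τ, c < m + 1) (hm : m < N) (hs : s ≤ N) (ho : okN (N + 1) p)
    (hp : p.length + a + τ.length + 3 * N + 2 ≤ K) :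
    MemG (vY Y) apN m s h p a τ ↔ MemG vr φ m s h (ph φ X p) a τ := by
  have ho' : okN (N + 1) (mva apN a p) := ok_mvaN (Nat.succ_pos N) a ho
  have hl := len_mva a p
  have e1 : vd (vY Y) apN s τ (mva apN a p) ↔ vd vr φ s τ (mva φ a (ph φ X p)) := by
    rw [vdN_iff hY hτ hm hs ho' (by omega), ph_mva]
  have e2 : gk (vY Y) apN m s (cat apN τ (mva apN a p)) =
      gk vr φ m s (cat φ τ (mva φ a (ph φ X p))) := by
    have h1 := len_cat τ (mva apN a p)
    have h2 := gN_eq hY (m := m) (s := s) (p := cat apN τ (mva apN a p)) hm hs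
      (ok_cat (fun c hc => by have := hτ c hc; omega) ho') (by omega)
    unfold gN at h2
    rw [h2, ph_cat, ph_mva]
  unfold MemG
  rw [e1, e2]

theorem ph_nd (m : ℕ) (p : Nd) (a l w : ℕ) :
    ph φ X (nd apN m p a l w) = nd φ m (ph φ X p) a l w := by
  unfold nd
  rw [ph_cat, ph_mva]

theorem len_nd {m : ℕ} {p : Nd} {a l : ℕ} (w : ℕ) (ha : a < bb m + 1) (hl : l < bb m + 1) :
    (nd apN m p a l w).length ≤ p.length + 2 * bb m := by
  unfold nd
  rw [len_cat, dg_length, len_mva]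
  omega

theorem ok_nd {m b : ℕ} {p : Nd} (hm : m + 1 < b) (ho : okN b p) (a l w : ℕ) :
    okN b (nd apN m p a l w) := by
  refine ok_cat (fun c hc => ?_) (ok_mvaN (by omega) a ho)
  have := dg_lt (Nat.succ_pos m) l w c hc
  omega

theorem MN_iff (hY : GdY φ X Y K N) {m s h : ℕ} {p : Nd} (hm : m < N) (hs : s ≤ N)
    (ho : okN (N + 1) p) (hp : p.length + 2 * bb m + 3 * N + 2 ≤ K) {a l w : ℕ}
    (ha : a < bb m + 1) (hl : l < bb m + 1) :
    MN Y m s h p a l w ↔ MemG vr φ m s h (ph φ X p) a (dg (m + 1) l w) := by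
  have h1 := dg_length (m + 1) l w
  exact memG_iff hY (dg_lt (Nat.succ_pos m) l w) hm hs ho (by omega)

theorem EN_iff (hY : GdY φ X Y K N) {m s t h : ℕ} {p : Nd} (hm : m < N) (hs : s ≤ N)
    (ht : t ≤ N) (ho : okN (N + 1) p) (hp : p.length + 2 * bb m + 3 * N + 2 ≤ K) :
    EN Y m s t h p ↔ EF vr φ m s t h (ph φ X p) (PC vr φ m t) := by
  unfold EN EF
  refine exists_congr fun a => and_congr_right fun ha => exists_congr fun l =>
    and_congr_right fun hl => exists_congr fun w => and_congr_right fun hw => ?_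
  have h1 := len_nd (p := p) w ha hl
  have h2 := ok_nd (p := p) (show m + 1 < N + 1 by omega) ho a l w
  have h3 := len_mva a p
  have h4 := dg_length (m + 1) l w
  have h5 : (dg m.succ l w).length = l := dg_length _ _ _
  rw [MN_iff hY hm hs ho hp ha hl, vdN_iff hY (dg_lt (Nat.succ_pos m) l w) hm ht
    (ok_mvaN (Nat.succ_pos N) a ho) (by omega), gN_eq hY hm ht h2 (by omega),
    gN_eq hY hm (show t - 1 ≤ N by omega) h2 (by omega), ph_nd, ph_mva]
  rfl

theorem ChgN_iff (hY : GdY φ X Y K N) {m s : ℕ} {p : Nd} (hm : m < N) (hs : s ≤ N)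
    (ho : okN (N + 1) p) (hp : p.length + 2 * bb m + 3 * N + 2 ≤ K) :
    ChgN Y m s p ↔ Ch vr φ m s (ph φ X p) := by
  unfold ChgN Ch
  rw [EN_iff hY hm (by omega) hs ho hp, EN_iff hY hm hs hs ho hp,
    gN_eq hY hm (by omega) ho (by omega), gN_eq hY hm hs ho (by omega),
    EC_fin (gk_le vr φ m (s - 1) _), EC_fin (gk_le vr φ m s _)]

theorem StN_iff (hY : GdY φ X Y K N) {m s u : ℕ} {p : Nd} (hm : m < N) (hs : s ≤ N)
    (hu : u ≤ N) (ho : okN (N + 1) p) (hp : p.length + 2 * bb m + 3 * N + 2 ≤ K) :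
    StN Y m s p u ↔ IsSt (Ch vr φ) m s (ph φ X p) u := by
  unfold StN IsSt
  rw [ChgN_iff hY hm hu ho hp]
  refine and_congr Iff.rfl (forall_congr' fun s' => forall_congr' fun hs' => ?_)
  rw [ChgN_iff hY hm (by omega) ho hp]

theorem FN_iff (hY : GdY φ X Y K N) {V : ℕ → Nd → ℕ → Prop}
    {V' : ℕ → R → ℕ → Prop} {m s z : ℕ} {p : Nd} (hm : m < N) (hs : s ≤ N)
    (ho : okN (N + 1) p) (hp : p.length + 2 * bb m + 3 * N + 2 ≤ K)
    (hV : ∀ q, okN (N + 1) q → q.length ≤ p.length + 2 * bb m →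
      ∀ y < s, (V s q y ↔ V' s (ph φ X q) y)) :
    FN Y V m s p z ↔ Cand EY CY (Q vr φ) (Ch vr φ) V' m s (ph φ X p) z := by
  rw [cand_FC]
  unfold FN
  have hrk := fun (a l w : ℕ) (ha : a < bb m + 1) (hl : l < bb m + 1) =>
    len_nd (m := m) (p := p) w ha hl
  have hok := fun (a l w : ℕ) => ok_nd (p := p) (show m + 1 < N + 1 by omega) ho a l w
  have hdig : ∀ a < bb m + 1, ∀ l < bb m + 1, ∀ w, ∀ i < N, Y (nd apN m p a l w) i =
      nd φ m (ph φ X p) a l w i := by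
    intro a ha l hl w i hi
    have h1 := hrk a l w ha hl
    rw [hY _ (hok a l w) (by omega) i hi, ph_nd]
  have hVV : ∀ a < bb m + 1, ∀ l < bb m + 1, ∀ w, ∀ y < s, (V s (nd apN m p a l w) y ↔
      V' s (nd φ m (ph φ X p) a l w) y) := by
    intro a ha l hl w y hy
    rw [hV _ (hok a l w) (hrk a l w ha hl) y hy, ph_nd]
  refine FC_congr (fun u hu => StN_iff hY hm hs (by omega) ho (by omega))
    (fun a ha l hl w hw => ?_) (fun a ha l hl w hw y => ?_)
    (fun a ha l hl w hw => hVV a ha l hl w) (fun a ha l hl w hw e u hu => ?_)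
  · rw [gN_eq hY hm hs ho (by omega), MN_iff hY hm hs ho hp ha hl]
  · exact En_congr fun i hi => hdig a ha l hl w i (by omega)
  · exact CY_congr (fun i hi => hdig a ha l hl w i (by omega))
      (fun y hy => hVV a ha l hl w y (by omega))

theorem bb_le {m s : ℕ} (h : m < s) : bb m ≤ s * s := by
  unfold bb
  exact Nat.mul_le_mul (by omega) (by omega)

theorem SN_iff (hY : GdY φ X Y K N) {V : ℕ → Nd → ℕ → Prop}
    {V' : ℕ → R → ℕ → Prop} {s z : ℕ} {p : Nd} (hs : s ≤ N) (ho : okN (N + 1) p)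
    (hp : p.length + 2 * (s * s) + 3 * N + 2 ≤ K)
    (hV : ∀ q, okN (N + 1) q → q.length ≤ p.length + 2 * (s * s) → ∀ y < s,
      (V s q y ↔ V' s (ph φ X q) y)) :
    SN Y V s p z ↔ Step EY CY (Q vr φ) (Ch vr φ) V' s (ph φ X p) z := by
  unfold SN Step Act
  refine exists_congr fun m => and_congr_right fun hm => ?_
  have hb := bb_le hm
  have hc : ∀ z, (FN Y V m s p z ↔ Cand EY CY (Q vr φ) (Ch vr φ) V' m s (ph φ X p) z) :=
    fun z => FN_iff hY (by omega) hs ho (by omega) fun q hq hr y hy =>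
      hV q hq (by omega) y hy
  exact and_congr (hc z) (forall_congr' fun z' => forall_congr' fun _ => not_congr (hc z'))

end

end Pool.Agent.TH769.FB
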