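import Pool.Agent.TH769.FB.Sim

set_option autoImplicit false

/-!
The operator for a partial functional.
-/

namespace Pool.Agent.TH769.FB

open Encodable Pool.Agent.Helper227 Pool.Agent.H548R2.Post
open Nat.Partrec (Code)
open Pool.Agent.TH769.TP (Lim Mon Via FF Mx UU Cnt Unb filt_range si_U case_unb case_bdd case_eq
  case_back pp_Mx lim_exists pf_iter)
open Pool.Agent.TH769.CD (jp jp_congr bdd_lt pf_add pf_mul pf_div pf_mod pf_pow pf_getD pf_take
  pf_append pf_cons pf_length pf_range pf_natPair pf_unpair pf_encode pf_testBit pf_xorb pf_andb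
  pf_hlt pf_xor pp_exlt pp_alllt pp_imp pp_eq pp_le pp_lt pp_mem pf_decide pf_pre pp_En pf_ext
  ext_pre_eq)
open Pool.Agent.TH769.ZA (val pf_val pf_sub Apx Apx.iter comp_iter si_gen apx_le)
open Pool.Agent.TH769.LH (R)

attribute [local fun_prop] Primrec
attribute [local fun_prop] Primrec.id Primrec.const Primrec.comp Primrec.pair Primrec.fst Primrec.snd
attribute [local fun_prop] pf_add pf_mul pf_div pf_mod pf_pow pf_getD pf_take pf_append pf_cons
  pf_length pf_range pf_natPair pf_unpair pf_encode pf_testBit pf_xorb pf_andb pf_hlt pf_xor pf_sub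

def U1 (e : ℕ) (F : List Bool → List Bool) : R → ℕ → Prop := UU e (H1 F) (R1 F)

def U2 (e : ℕ) (F : List Bool → List Bool) : R → ℕ → Prop := UU e (H2 F) (R2 F)

def UW (e : ℕ) (F : List Bool → List Bool) (X : R) (n : ℕ) : Prop :=
  (n % 3 = 0 ∧ X (n / 3) = true) ∨ (n % 3 = 1 ∧ U1 e F X (n / 3)) ∨
    (n % 3 = 2 ∧ U2 e F X (n / 3))

open Classical in
noncomputable def WP (e : ℕ) (F : List Bool → List Bool) (X : R) : R :=
  fun n => decide (UW e F X n)

section

variable {F : List Bool → List Bool} {X Y : R} {e : ℕ}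

theorem WP_iff (n : ℕ) : WP e F X n = true ↔ UW e F X n := by
  unfold WP
  exact @decide_eq_true_iff _ (Classical.propDecidable _)

theorem WP_iff' (n : ℕ) : WP e F X n = false ↔ ¬ UW e F X n := by
  rw [← WP_iff, Bool.not_eq_true]

theorem UW0 (n : ℕ) : UW e F X (3 * n) ↔ X n = true := by
  unfold UW
  rw [show 3 * n / 3 = n by omega, show 3 * n % 3 = 0 by omega]
  simp

theorem UW1 (n : ℕ) : UW e F X (3 * n + 1) ↔ U1 e F X n := by
  unfold UW
  rw [show (3 * n + 1) / 3 = n by omega, show (3 * n + 1) % 3 = 1 by omega]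
  simp

theorem UW2 (n : ℕ) : UW e F X (3 * n + 2) ↔ U2 e F X n := by
  unfold UW
  rw [show (3 * n + 2) / 3 = n by omega, show (3 * n + 2) % 3 = 2 by omega]
  simp

theorem le_WP (X : R) : TLe X (WP e F X) := by
  have hf : Computable fun n : ℕ => 3 * n := by
    have : Primrec fun n : ℕ => 3 * n := by fun_prop
    exact this.to_comp
  refine tLe_of_computable hf fun n => ?_
  rw [Bool.eq_iff_iff, WP_iff, UW0]

theorem si_UW (pF : Primrec F) (X : R) : SI X (UW e F X) := by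
  refine SI.or (SI.and (SI.of_prim (pp_eq (by fun_prop) (by fun_prop)))
    (SI.query.comp (f := fun m : ℕ => (m / 3, true)) (by fun_prop))) (SI.or (SI.and
    (SI.of_prim (pp_eq (by fun_prop) (by fun_prop))) ?_) (SI.and
    (SI.of_prim (pp_eq (by fun_prop) (by fun_prop))) ?_))
  · exact (si_U (pH1 pF) (pR1 pF) X).comp (f := fun m : ℕ => m / 3) (by fun_prop)
  · exact (si_U (pH2 pF) (pR2 pF) X).comp (f := fun m : ℕ => m / 3) (by fun_prop)

theorem WP_le (pF : Primrec F) {V : R} (hX : TLe X V) (h1 : SI V fun m => ¬ U1 e F X m)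
    (h2 : SI V fun m => ¬ U2 e F X m) : TLe (WP e F X) V := by
  have hpos : SI V (UW e F X) := (si_UW pF X).trans hX
  have hneg : SI V fun m => ¬ UW e F X m := by
    have g0 : SI V fun m : ℕ => m % 3 = 0 ∧ X (m / 3) = false :=
      SI.and (SI.of_prim (pp_eq (by fun_prop) (by fun_prop)))
        (((SI.query (B := X)).trans hX).comp (f := fun m : ℕ => (m / 3, false)) (by fun_prop))
    have g1 : SI V fun m : ℕ => m % 3 = 1 ∧ ¬ U1 e F X (m / 3) :=
      SI.and (SI.of_prim (pp_eq (by fun_prop) (by fun_prop)))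
        (h1.comp (f := fun m : ℕ => m / 3) (by fun_prop))
    have g2 : SI V fun m : ℕ => m % 3 = 2 ∧ ¬ U2 e F X (m / 3) :=
      SI.and (SI.of_prim (pp_eq (by fun_prop) (by fun_prop)))
        (h2.comp (f := fun m : ℕ => m / 3) (by fun_prop))
    refine (SI.or g0 (SI.or g1 g2)).of_eq fun m => ?_
    unfold UW
    have hm : m % 3 < 3 := Nat.mod_lt _ (by norm_num)
    cases hx : X (m / 3) <;> (interval_cases h : m % 3 <;> simp)
  rw [tLe_iff_SI]
  have h4 : SI V fun x : ℕ × Bool => (UW e F X x.1 ∧ x.2 = true) ∨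
      (¬ UW e F X x.1 ∧ x.2 = false) := by
    refine SI.or (SI.and (hpos.comp Primrec.fst) (SI.of_prim ?_))
      (SI.and (hneg.comp (f := fun x : ℕ × Bool => x.1) Primrec.fst) (SI.of_prim ?_))
    · exact Primrec.eq.comp Primrec.snd (Primrec.const true)
    · exact Primrec.eq.comp Primrec.snd (Primrec.const false)
  refine h4.of_eq fun x => ?_
  rcases x with ⟨n, b⟩
  cases b with
  | true => simp [WP_iff]
  | false => simp [WP_iff']

theorem si_not (X : R) : (SI (WP e F X) fun m => ¬ U1 e F X m) ∧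
    SI (WP e F X) fun m => ¬ U2 e F X m := by
  refine ⟨?_, ?_⟩
  · refine ((SI.query (B := WP e F X)).comp (f := fun m : ℕ => (3 * m + 1, false))
      (by fun_prop)).of_eq fun m => ?_
    rw [WP_iff', UW1]
  · refine ((SI.query (B := WP e F X)).comp (f := fun m : ℕ => (3 * m + 2, false))
      (by fun_prop)).of_eq fun m => ?_
    rw [WP_iff', UW2]

/-- `WP` at `X` has the degree of the value of the given operator at `Z`. -/
structure Rp (e : ℕ) (F : List Bool → List Bool) (X Z : R) : Prop where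
  zx : TLe Z X
  xz : TLe X Z
  le : TLe (WP e F X) (chr (WE Z e))
  ge : TLe (chr (WE Z e)) (WP e F X)

theorem rp_of (pF : Primrec F) {Z : R} (hZ : TLe Z (chr (WE Z e)))
    (zx : TLe Z X) (xz : TLe X Z)
    (hf : ∀ V, TLe X V → (SI V fun z => z ∉ WE Z e) → (SI V fun m => ¬ U1 e F X m) ∧
      SI V fun m => ¬ U2 e F X m)
    (hb : (SI (WP e F X) fun z => z ∉ WE Z e)) : Rp e F X Z := by
  refine ⟨zx, xz, ?_, ?_⟩
  · have hX : TLe X (chr (WE Z e)) := TuringReducible.trans xz hZ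
    obtain ⟨h1, h2⟩ := hf _ hX (by
      refine ((SI.query (B := chr (WE Z e))).comp (f := fun m : ℕ => (m, false))
        (by fun_prop)).of_eq fun m => ?_
      simp [chr])
    exact WP_le pF hX h1 h2
  · have h1 : SI (WP e F X) fun z => z ∈ WE Z e := by
      have h2 : SI Z fun z => z ∈ WE Z e :=
        SI.iff_ceIn.1 (ceIn_iff_exists_WE.2 ⟨e, rfl⟩)
      exact h2.trans (TuringReducible.trans zx (le_WP X))
    rw [tLe_iff_SI]
    have h4 : SI (WP e F X) fun x : ℕ × Bool => (x.1 ∈ WE Z e ∧ x.2 = true) ∨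
        (x.1 ∉ WE Z e ∧ x.2 = false) := by
      refine SI.or (SI.and (h1.comp Primrec.fst) (SI.of_prim ?_))
        (SI.and (hb.comp (f := fun x : ℕ × Bool => x.1) Primrec.fst) (SI.of_prim ?_))
      · exact Primrec.eq.comp Primrec.snd (Primrec.const true)
      · exact Primrec.eq.comp Primrec.snd (Primrec.const false)
    refine h4.of_eq fun x => ?_
    rcases x with ⟨n, b⟩
    cases b <;> simp [chr]

theorem exists_rp (hF : Mon F) (pF : Primrec F) (hp : ∀ Z : R, TLe Z (chr (WE Z e))) (X : R) :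
    Rp e F X (ZX F X) := by
  classical
  by_cases h1 : ∃ n, ¬ ∃ Z, Lim (F^[n]) X Z
  · have h2 := Nat.find_spec h1
    have h3 : ∀ q < Nat.find h1, ∃ Z, Lim (F^[q]) X Z :=
      fun q hq => not_not.1 (Nat.find_min h1 hq)
    have h0 : Nat.find h1 ≠ 0 := by
      intro h4
      rw [h4] at h2
      exact h2 ⟨X, Lim.id X⟩
    obtain ⟨n, hn⟩ : ∃ n, Nat.find h1 = n + 1 := ⟨Nat.find h1 - 1, by omega⟩
    rw [hn] at h2 h3
    have h4 := h3 n (Nat.lt_succ_self n)
    have hl := H1_lim hF h4 h2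
    have u1 : Unb (R1 F n) X := (unb_R1 hF).2 h4
    have u2 : ¬ Unb (R1 F (n + 1)) X := fun h => h2 ((unb_R1 hF).1 h)
    have hpn : Primrec (H1 F n) := (pH1 pF).comp (f := fun x : ℕ × List Bool => H1 F x.1 x.2)
      (g := fun σ => (n, σ)) (by fun_prop)
    refine rp_of pF (hp _) (hl.le hpn) le_ZX (fun V hV hW => ⟨?_, ?_⟩) ?_
    · exact case_eq (pH1 pF) (pR1 pF) (cnt_R1 hF) u1 u2 hl hV hW
    · exact (case_bdd (cnt_R2 hF) fun h => h2 ((unb_R2 hF).1 h (n + 1))).trans hV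
    · exact case_back (cnt_R1 hF) u1 u2 hl (si_not X).1
  · push Not at h1
    have hl := H2_lim hF h1
    have u1 : Unb (R2 F 0) X := (unb_R2 hF).2 h1
    have hpn : Primrec (H2 F 0) := (pH2 pF).comp (f := fun x : ℕ × List Bool => H2 F x.1 x.2)
      (g := fun σ => (0, σ)) (by fun_prop)
    refine rp_of pF (hp _) (hl.le hpn) le_ZX (fun V hV hW => ⟨?_, ?_⟩) ?_
    · exact (case_unb (pH1 pF) (pR1 pF) (cnt_R1 hF) fun n => (unb_R1 hF).2 (h1 n)).trans hV
    · exact case_eq (pH2 pF) (pR2 pF) (cnt_R2 hF) u1 not_unb_R2 hl hV hW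
    · exact case_back (cnt_R2 hF) u1 not_unb_R2 hl (si_not X).2

/-! The index. -/

theorem index_S1' (pF : Primrec F) (e : ℕ) :
    S1 fun x : List Bool × ℕ => (x.2 % 3 = 0 ∧ x.1[x.2 / 3]? = some true) ∨
    (x.2 % 3 = 1 ∧ Mx e (H1 F) (R1 F) x.1 (x.2 / 3)) ∨
    (x.2 % 3 = 2 ∧ Mx e (H2 F) (R2 F) x.1 (x.2 / 3)) := by
  refine S1.of_prim (PrimrecPred.or (PrimrecPred.and (pp_eq (by fun_prop) (by fun_prop))
    (pp_eq (Primrec.list_getElem?.comp (by fun_prop) (by fun_prop)) (by fun_prop)))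
    (PrimrecPred.or (PrimrecPred.and (pp_eq (by fun_prop) (by fun_prop)) ?_)
    (PrimrecPred.and (pp_eq (by fun_prop) (by fun_prop)) ?_)))
  · exact pp_Mx e (pH1 pF) (pR1 pF) (by fun_prop) (by fun_prop)
  · exact pp_Mx e (pH2 pF) (pR2 pF) (by fun_prop) (by fun_prop)

theorem exists_index' (pF : Primrec F) (e : ℕ) :
    ∃ e' : ℕ, ∀ X : R, WE X e' = {m | WP e F X m = true} := by
  obtain ⟨c, hc⟩ := Nat.Partrec.Code.exists_code.1 (index_S1' pF e).re
  refine ⟨encode c, fun X => ?_⟩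
  ext m
  simp only [WE, Set.mem_ofPred_eq, Denumerable.ofNat_encode]
  rw [WP_iff]
  have h1 : (∃ k : ℕ, (c.eval (encode ((List.range k).map X, m))).Dom) ↔
      ∃ k : ℕ, (m % 3 = 0 ∧ (pre X k)[m / 3]? = some true) ∨
      (m % 3 = 1 ∧ Mx e (H1 F) (R1 F) (pre X k) (m / 3)) ∨
      (m % 3 = 2 ∧ Mx e (H2 F) (R2 F) (pre X k) (m / 3)) := by
    refine exists_congr fun k => ?_
    rw [hc]
    simp [Part.assert, pre]
  rw [h1]
  unfold UW U1 U2 UU
  constructor
  · rintro ⟨k, ⟨h, h'⟩ | ⟨h, h'⟩ | ⟨h, h'⟩⟩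
    · refine Or.inl ⟨h, ?_⟩
      by_cases hk : m / 3 < k
      · rw [pre_getElem? _ _ _ hk] at h'
        simpa using h'
      · rw [pre_getElem?_none _ _ _ (by omega)] at h'
        cases h'
    · exact Or.inr (Or.inl ⟨h, k, h'⟩)
    · exact Or.inr (Or.inr ⟨h, k, h'⟩)
  · rintro (⟨h, h'⟩ | ⟨h, k, h'⟩ | ⟨h, k, h'⟩)
    · exact ⟨m / 3 + 1, Or.inl ⟨h, by rw [pre_getElem? _ _ _ (Nat.lt_succ_self _), h']⟩⟩
    · exact ⟨k, Or.inr (Or.inl ⟨h, h'⟩)⟩
    · exact ⟨k, Or.inr (Or.inr ⟨h, h'⟩)⟩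

theorem chr_WP : chr {m | WP e F X m = true} = WP e F X := by
  funext m
  simp [chr]

end

/-- The theorem for a partial functional on finite strings and a sequence of total functionals in
the other direction. -/
theorem main_str {F : List Bool → List Bool} (hF : Mon F) (pF : Primrec F)
    {h : ℕ → List Bool → List Bool} {J : ℕ → R → R} (hJ : ∀ c, Apx (h c) (J c))
    (hh : Computable₂ h) : ∃ e : ℕ,
    (∀ X : R, TLe X (chr (WE X e)) ∧ ¬ TLe (chr (WE X e)) X ∧
      TLe (chr (WE X e)) (jump X) ∧ ¬ TLe (jump X) (chr (WE X e)) ∧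
      TLe (jump (chr (WE X e))) (jump X)) ∧
    ∀ (X Y : R) (c : ℕ), Lim F X Y → J c Y = X →
      TLe (chr (WE X e)) (chr (WE Y e)) ∧ TLe (chr (WE Y e)) (chr (WE X e)) := by
  obtain ⟨e, h1, h2⟩ := main_seq hJ hh
  have hp : ∀ Z : R, TLe Z (chr (WE Z e)) := fun Z => (h1 Z).1
  obtain ⟨e', he'⟩ := exists_index' pF e
  refine ⟨e', fun X => ?_, fun X Y c hXY hYX => ?_⟩
  · rw [he' X, chr_WP]
    have hZ := exists_rp hF pF hp X
    obtain ⟨a, b, c, d, f⟩ := h1 (ZX F X)
    refine ⟨le_WP X, fun h => b ?_, ?_, fun h => d ?_, ?_⟩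
    · exact TuringReducible.trans hZ.ge (TuringReducible.trans h hZ.xz)
    · exact TuringReducible.trans hZ.le (TuringReducible.trans c hZ.zx.jump)
    · exact TuringReducible.trans hZ.zx.jump (TuringReducible.trans h hZ.le)
    · exact TuringReducible.trans hZ.le.jump (TuringReducible.trans f hZ.zx.jump)
  · rw [he' X, he' Y, chr_WP, chr_WP]
    have r := exists_rp hF pF hp X
    have r' := exists_rp hF pF hp Y
    have h4 := h2 (ZX F X) c (pu_ZX hF hXY hYX)
    rw [sh_ZX hF hXY] at h4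
    exact ⟨TuringReducible.trans r.le (TuringReducible.trans h4.1 r'.ge),
      TuringReducible.trans r'.le (TuringReducible.trans h4.2 r.ge)⟩

end Pool.Agent.TH769.FB
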