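import Pool.Agent.TH769.FB.Inv
import Pool.Agent.TH769.TP.Cod

set_option autoImplicit false

/-!
Sequences of oracles: the shift, and the functionals which put a new member in front.
-/

namespace Pool.Agent.TH769.FB

open Encodable Pool.Agent.Helper227 Pool.Agent.H548R2.Post
open Nat.Partrec (Code)
open Pool.Agent.TH769.TP (Lim Mon Via FF)
open Pool.Agent.TH769.CD (jp jp_congr bdd_lt pf_add pf_mul pf_div pf_mod pf_pow pf_getD pf_take
  pf_append pf_cons pf_length pf_range pf_natPair pf_unpair pf_encode pf_testBit pf_xorb pf_andb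
  pf_hlt pf_xor pp_exlt pp_alllt pp_imp pp_eq pp_le pp_lt pp_mem pf_decide pf_pre pp_En pf_ext
  ext_pre_eq)
open Pool.Agent.TH769.ZA (val pf_val pf_sub Apx Apx.iter comp_iter si_gen apx_le)
open Pool.Agent.TH769.LH (R)

attribute [local fun_prop] Primrec
attribute [local fun_prop] Primrec.id Primrec.const Primrec.comp Primrec.pair Primrec.fst Primrec.snd
attribute [local fun_prop] pf_add pf_mul pf_div pf_mod pf_pow pf_getD pf_take pf_append pf_cons
  pf_length pf_range pf_natPair pf_unpair pf_encode pf_testBit pf_xorb pf_andb pf_hlt pf_xor pf_sub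

theorem apx_iff {g : List Bool → List Bool} {T : R → R} : Apx g T ↔ ∀ X, Lim g X (T X) :=
  ⟨fun h X => ⟨h.ok X, h.long X⟩, fun h => ⟨fun X => (h X).ok, fun X => (h X).long⟩⟩

/-- the values of `g`, as long as they are defined -/
def rn (g : ℕ → Option Bool) : ℕ → List Bool
  | 0 => []
  | n + 1 => cond (decide ((rn g n).length = n)) (rn g n ++ (g n).toList) (rn g n)

theorem rn_prefix (g : ℕ → Option Bool) {n m : ℕ} (h : n ≤ m) : rn g n <+: rn g m := by
  induction m, h using Nat.le_induction with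
  | base => exact List.prefix_rfl
  | succ m _ ih =>
    refine ih.trans ?_
    rw [rn]
    cases decide ((rn g m).length = m)
    · exact List.prefix_rfl
    · exact List.prefix_append _ _

theorem rn_ok {g : ℕ → Option Bool} {Y : R} (h : ∀ n b, g n = some b → b = Y n) (n : ℕ) :
    ∃ n' ≤ n, rn g n = pre Y n' := by
  induction n with
  | zero => exact ⟨0, le_rfl, rfl⟩
  | succ n ih =>
    obtain ⟨n', h1, h2⟩ := ih
    rw [rn, h2, length_pre]
    by_cases hn : n' = n
    · subst hn
      rw [decide_eq_true rfl, cond_true]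
      cases hv : g n' with
      | none => exact ⟨n', by omega, by simp⟩
      | some v =>
        refine ⟨n' + 1, le_rfl, ?_⟩
        rw [pre_succ, h n' v hv]
        rfl
    · rw [decide_eq_false hn, cond_false]
      exact ⟨n', by omega, rfl⟩

theorem rn_full {g : ℕ → Option Bool} {N : ℕ} (h : ∀ n < N, g n ≠ none) :
    (rn g N).length = N := by
  induction N with
  | zero => rfl
  | succ N ih =>
    have h1 := ih fun n hn => h n (by omega)
    obtain ⟨v, hv⟩ := Option.ne_none_iff_exists'.1 (h N (Nat.lt_succ_self N))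
    rw [rn, h1, decide_eq_true rfl, cond_true, hv, List.length_append, h1]
    rfl

theorem pf_rn {β : Type} [Primcodable β] {g : β → ℕ → Option Bool}
    (hg : Primrec fun x : β × ℕ => g x.1 x.2) {N : β → ℕ} (hN : Primrec N) :
    Primrec fun b => rn (g b) (N b) := by
  have hh : Primrec₂ fun (b : β) (y : ℕ × List Bool) =>
      cond (decide (y.2.length = y.1)) (y.2 ++ (g b y.1).toList) y.2 := by
    have h1 : Primrec fun x : β × (ℕ × List Bool) => g x.1 x.2.1 :=
      hg.comp (f := fun x : β × ℕ => g x.1 x.2) (g := fun x : β × (ℕ × List Bool) => (x.1, x.2.1))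
        (by fun_prop)
    have h2 : Primrec fun x : β × (ℕ × List Bool) =>
        cond (decide (x.2.2.length = x.2.1)) (x.2.2 ++ (g x.1 x.2.1).toList) x.2.2 :=
      Primrec.cond (pf_decide (pp_eq (by fun_prop) (by fun_prop)) _)
        (pf_append (by fun_prop) (Primrec.optionToList.comp h1)) (by fun_prop)
    exact h2
  have h := Primrec.nat_rec' (f := N) (g := fun _ => ([] : List Bool)) hN (Primrec.const []) hh
  refine h.of_eq fun b => ?_
  generalize N b = n
  induction n with
  | zero => rfl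
  | succ n ih =>
    change _ = cond (decide ((rn (g b) n).length = n)) (rn (g b) n ++ (g b n).toList) (rn (g b) n)
    rw [← ih]

/-- `rn` gives a functional -/
theorem lim_rn {X Y : R} {g : List Bool → ℕ → Option Bool}
    (h : ∀ s n b, g (pre X s) n = some b → b = Y n)
    (h' : ∀ n, ∃ M, ∀ s ≥ M, g (pre X s) n ≠ none) :
    Lim (fun σ => rn (g σ) σ.length) X Y := by
  refine ⟨fun s => ?_, fun N => ?_⟩
  · obtain ⟨n', -, h1⟩ := rn_ok (h s) (pre X s).length
    exact ⟨n', h1⟩
  · obtain ⟨a, ha⟩ := bdd_lt N (fun n s => g (pre X s) n ≠ none) (fun n _ => h' n)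
    refine ⟨max N a, fun s hs => ?_⟩
    have h1 := rn_full (g := g (pre X s)) (N := N) fun n hn => ha n hn s (by omega)
    have h2 := (rn_prefix (g (pre X s)) (n := N) (m := (pre X s).length)
      (by rw [length_pre]; omega)).length_le
    rw [h1] at h2
    exact h2

theorem pre_get {X : R} {s n : ℕ} {b : Bool} (h : (pre X s)[n]? = some b) : b = X n := by
  by_cases h1 : n < s
  · rw [pre_getElem? _ _ _ h1] at h
    simpa using h.symm
  · rw [pre_getElem?_none _ _ _ (by omega)] at h
    cases h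

theorem pre_get' (X : R) (n : ℕ) : ∃ M, ∀ s ≥ M, (pre X s)[n]? ≠ none :=
  ⟨n + 1, fun s hs => by rw [pre_getElem? _ _ _ (by omega)]; simp⟩

/-- the shift -/
def sh (Z : R) : R := fun m => Z (Nat.pair (m.unpair.1 + 1) m.unpair.2)

/-- the first member -/
def f0 (Z : R) : R := fun m => Z (Nat.pair 0 m)

/-- put a new member in front -/
def pu (J : R → R) (Z : R) : R := fun m =>
  if m.unpair.1 = 0 then J (f0 Z) m.unpair.2 else Z (Nat.pair (m.unpair.1 - 1) m.unpair.2)

def jh (J : ℕ → R → R) : ℕ → R → R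
  | 0 => sh
  | c + 1 => pu (J c)

def g0 (σ : List Bool) (m : ℕ) : Option Bool := σ[Nat.pair (m.unpair.1 + 1) m.unpair.2]?

def g1 (σ : List Bool) (m : ℕ) : Option Bool := σ[Nat.pair 0 m]?

def g2 (η σ : List Bool) (m : ℕ) : Option Bool :=
  cond (decide (m.unpair.1 = 0)) η[m.unpair.2]? σ[Nat.pair (m.unpair.1 - 1) m.unpair.2]?

def h0 (σ : List Bool) : List Bool := rn (g0 σ) σ.length

def h1 (σ : List Bool) : List Bool := rn (g1 σ) σ.length

def h2 (η σ : List Bool) : List Bool := rn (g2 η σ) σ.length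

def hj (h : ℕ → List Bool → List Bool) : ℕ → List Bool → List Bool
  | 0 => h0
  | c + 1 => fun σ => h2 (h c (h1 σ)) σ

theorem lim_h0 (Z : R) : Lim h0 Z (sh Z) :=
  lim_rn (g := g0) (fun s n _ h =>
    pre_get (X := Z) (s := s) (n := Nat.pair (n.unpair.1 + 1) n.unpair.2) h)
    (fun n => pre_get' Z (Nat.pair (n.unpair.1 + 1) n.unpair.2))

theorem lim_h1 (Z : R) : Lim h1 Z (f0 Z) :=
  lim_rn (g := g1) (fun s n _ h => pre_get (X := Z) (s := s) (n := Nat.pair 0 n) h)
    (fun n => pre_get' Z (Nat.pair 0 n))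

theorem lim_h2 {h : List Bool → List Bool} {J : R → R} (hJ : Apx h J) (Z : R) :
    Lim (fun σ => h2 (h (h1 σ)) σ) Z (pu J Z) := by
  have hl : Lim (fun σ => h (h1 σ)) Z (J (f0 Z)) := (lim_h1 Z).comp (apx_iff.1 hJ _)
  refine lim_rn (g := fun σ => g2 (h (h1 σ)) σ) (fun s n b hb => ?_) (fun n => ?_)
  · unfold g2 at hb
    unfold pu
    by_cases h1' : n.unpair.1 = 0
    · rw [decide_eq_true h1', cond_true] at hb
      rw [if_pos h1']
      obtain ⟨L, hL⟩ := hl.ok s
      have hL : h (h1 (pre Z s)) = pre (J (f0 Z)) L := hL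
      rw [hL] at hb
      exact pre_get hb
    · rw [decide_eq_false h1', cond_false] at hb
      rw [if_neg h1']
      exact pre_get hb
  · unfold g2
    by_cases h1' : n.unpair.1 = 0
    · obtain ⟨M, hM⟩ := hl.long (n.unpair.2 + 1)
      refine ⟨M, fun s hs => ?_⟩
      have h2' : n.unpair.2 + 1 ≤ (h (h1 (pre Z s))).length := hM s hs
      rw [decide_eq_true h1', cond_true, List.getElem?_eq_getElem (by omega)]
      simp
    · obtain ⟨M, hM⟩ := pre_get' Z (Nat.pair (n.unpair.1 - 1) n.unpair.2)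
      refine ⟨M, fun s hs => ?_⟩
      rw [decide_eq_false h1', cond_false]
      exact hM s hs

theorem apx_hj {h : ℕ → List Bool → List Bool} {J : ℕ → R → R} (hJ : ∀ c, Apx (h c) (J c)) :
    ∀ c, Apx (hj h c) (jh J c) := by
  intro c
  cases c with
  | zero => exact apx_iff.2 lim_h0
  | succ c => exact apx_iff.2 (lim_h2 (hJ c))

theorem comp_hj {h : ℕ → List Bool → List Bool} (hh : Computable₂ h) : Computable₂ (hj h) := by
  have e0 : Primrec h0 := by
    refine pf_rn (g := g0) ?_ (by fun_prop)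
    exact Primrec.list_getElem?.comp (by fun_prop) (by fun_prop)
  have e1 : Primrec h1 := by
    refine pf_rn (g := g1) ?_ (by fun_prop)
    exact Primrec.list_getElem?.comp (by fun_prop) (by fun_prop)
  have e2 : Primrec fun x : List Bool × List Bool => h2 x.1 x.2 := by
    refine pf_rn (g := fun x : List Bool × List Bool => g2 x.1 x.2) ?_ (by fun_prop)
    refine Primrec.cond (pf_decide (pp_eq (by fun_prop) (by fun_prop)) _)
      (Primrec.list_getElem?.comp (by fun_prop) (by fun_prop))
      (Primrec.list_getElem?.comp (by fun_prop) (by fun_prop))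
  have e3 : Computable fun x : (ℕ × List Bool) × ℕ => h2 (h x.2 (h1 x.1.2)) x.1.2 := by
    have a1 : Computable fun x : (ℕ × List Bool) × ℕ => x.1.2 :=
      Computable.snd.comp Computable.fst
    exact e2.to_comp.comp ((hh.comp Computable.snd (e1.to_comp.comp a1)).pair a1)
  have e4 : Computable fun x : ℕ × List Bool =>
      (Nat.casesOn x.1 (h0 x.2) fun c => h2 (h c (h1 x.2)) x.2 : List Bool) :=
    Computable.nat_casesOn Computable.fst (e0.to_comp.comp Computable.snd) e3
  refine e4.of_eq ?_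
  rintro ⟨c, σ⟩
  cases c <;> rfl

/-- The theorem for sequences of oracles. -/
theorem main_seq {h : ℕ → List Bool → List Bool} {J : ℕ → R → R} (hJ : ∀ c, Apx (h c) (J c))
    (hh : Computable₂ h) : ∃ e : ℕ,
    (∀ X : R, TLe X (chr (WE X e)) ∧ ¬ TLe (chr (WE X e)) X ∧
      TLe (chr (WE X e)) (jump X) ∧ ¬ TLe (jump X) (chr (WE X e)) ∧
      TLe (jump (chr (WE X e))) (jump X)) ∧
    ∀ (Z : R) (c : ℕ), pu (J c) (sh Z) = Z → TLe (chr (WE Z e)) (chr (WE (sh Z) e)) ∧
      TLe (chr (WE (sh Z) e)) (chr (WE Z e)) := by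
  obtain ⟨e, a, b⟩ := main (apx_hj hJ) (comp_hj hh)
  exact ⟨e, a, b⟩

end Pool.Agent.TH769.FB
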