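import Pool.Agent.TH769.FB.Lab
import Pool.Agent.H548R2.Post.T49

set_option autoImplicit false

/-!
The list of all primitive recursive functionals.
-/

namespace Pool.Agent.TH769.FB

open Encodable Pool.Agent.Helper227 Pool.Agent.H548R2.Post
open Nat.Partrec (Code)
open Pool.Agent.TH769.TP (Via lab)
open Pool.Agent.TH769.CD (pf_add pf_take pf_length pp_eq pp_le pp_lt pf_decide pf_append pf_cons
  pf_encode pf_unpair)
open Pool.Agent.TH769.ZA (pf_sub)
open Pool.Agent.TH769.LH (R)

/-- `X` is obtained from `Y` by a primitive recursive functional -/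
def PrimFrom (X Y : ℕ → Bool) : Prop :=
  ∃ (δ : ℕ × List Bool → Bool) (u : ℕ → ℕ), Primrec δ ∧ Primrec u ∧
    ∀ n, X n = δ (n, pre Y (u n))

/-- the universal function for the primitive recursive functions -/
noncomputable def uvp (x : ℕ × ℕ) : Part ℕ :=
  cond (t49_nr (Denumerable.ofNat Code x.1)) ((Denumerable.ofNat Code x.1).eval x.2) (Part.some 0)

theorem uvp_partrec : Partrec uvp := by
  refine Partrec.cond ?_ ?_ ?_
  · exact (t49_nr_prim.comp ((Primrec.ofNat Code).comp Primrec.fst)).to_comp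
  · exact Code.eval_part.comp ((Primrec.ofNat Code).comp Primrec.fst).to_comp Computable.snd
  · exact (Computable.const 0).partrec

theorem uvp_dom (x : ℕ × ℕ) : (uvp x).Dom := by
  unfold uvp
  cases h : t49_nr (Denumerable.ofNat Code x.1)
  · exact trivial
  · obtain ⟨v, hv⟩ := t49_total _ h x.2
    exact Part.dom_iff_mem.2 ⟨v, hv⟩

noncomputable def VV (c n : ℕ) : ℕ := (uvp (c, n)).get (uvp_dom (c, n))

theorem comp_VV : Computable₂ VV := Partrec.of_eq_tot uvp_partrec fun x => Part.get_mem (uvp_dom x)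

theorem VV_complete {f : ℕ → ℕ} (hf : Primrec f) : ∃ c, ∀ n, VV c n = f n := by
  obtain ⟨c, hc, hev⟩ := t49_complete (Primrec.nat_iff.1 hf)
  refine ⟨encode c, fun n => ?_⟩
  have h2 : f n ∈ uvp (encode c, n) := by
    unfold uvp
    rw [Denumerable.ofNat_encode, hc]
    exact hev n
  exact Part.get_eq_of_mem h2 _

attribute [local irreducible] VV

/-- the list of all primitive recursive functionals -/
noncomputable def JP (c : ℕ) (Y : R) : R :=
  fun n => decide (VV c.unpair.1 (encode (n, pre Y (VV c.unpair.2 n))) = 1)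

theorem JP_complete {X Y : R} (h : PrimFrom X Y) : ∃ c, JP c Y = X := by
  obtain ⟨δ, u, hδ, hu, hX⟩ := h
  have hf : Primrec fun m : ℕ => encode (δ ((decode (α := ℕ × List Bool) m).getD (0, []))) :=
    Primrec.encode.comp (hδ.comp (Primrec.option_getD.comp Primrec.decode (Primrec.const _)))
  obtain ⟨c1, h1⟩ := VV_complete hf
  obtain ⟨c2, h2⟩ := VV_complete hu
  refine ⟨Nat.pair c1 c2, ?_⟩
  funext n
  unfold JP
  rw [Nat.unpair_pair, h1, h2, encodek, Option.getD_some, hX]
  cases δ (n, pre Y (u n)) <;> simp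

/-- the program for the list -/
noncomputable def qq (x : ℕ × (List Bool × ℕ)) : Part ℕ :=
  cond (decide (VV x.1.unpair.2 x.2.2 ≤ x.2.1.length))
    (Part.some (cond (decide (VV x.1.unpair.1
      (encode (x.2.2, x.2.1.take (VV x.1.unpair.2 x.2.2))) = 1)) 1 0)) Part.none

theorem qq_partrec : Partrec qq := by
  have u1 : Computable fun x : ℕ × (List Bool × ℕ) => x.1.unpair.1 :=
    (Primrec.fst.comp (Primrec.unpair.comp Primrec.fst)).to_comp
  have u2 : Computable fun x : ℕ × (List Bool × ℕ) => x.1.unpair.2 :=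
    (Primrec.snd.comp (Primrec.unpair.comp Primrec.fst)).to_comp
  have s2 : Computable fun x : ℕ × (List Bool × ℕ) => x.2.2 :=
    (Primrec.snd.comp Primrec.snd).to_comp
  have s1 : Computable fun x : ℕ × (List Bool × ℕ) => x.2.1 :=
    (Primrec.fst.comp Primrec.snd).to_comp
  have h1 : Computable fun x : ℕ × (List Bool × ℕ) => VV x.1.unpair.2 x.2.2 :=
    comp_VV.comp u2 s2
  have hle : Computable fun y : ℕ × List Bool => decide (y.1 ≤ y.2.length) :=
    (pf_decide (pp_le Primrec.fst (pf_length Primrec.snd)) _).to_comp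
  have heq : Computable fun y : ℕ => decide (y = 1) :=
    (pf_decide (pp_eq Primrec.id (Primrec.const 1)) _).to_comp
  have h2 : Computable fun x : ℕ × (List Bool × ℕ) =>
      decide (VV x.1.unpair.2 x.2.2 ≤ x.2.1.length) :=
    hle.comp (f := fun y : ℕ × List Bool => decide (y.1 ≤ y.2.length))
      (g := fun x : ℕ × (List Bool × ℕ) => (VV x.1.unpair.2 x.2.2, x.2.1)) (h1.pair s1)
  have htk : Computable fun y : ℕ × (ℕ × List Bool) => encode (y.1, y.2.2.take y.2.1) :=
    (Primrec.encode.comp (Primrec.fst.pair (pf_take (Primrec.fst.comp Primrec.snd)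
      (Primrec.snd.comp Primrec.snd)))).to_comp
  have h3 : Computable fun x : ℕ × (List Bool × ℕ) =>
      encode (x.2.2, x.2.1.take (VV x.1.unpair.2 x.2.2)) :=
    htk.comp (f := fun y : ℕ × (ℕ × List Bool) => encode (y.1, y.2.2.take y.2.1))
      (g := fun x : ℕ × (List Bool × ℕ) => (x.2.2, (VV x.1.unpair.2 x.2.2, x.2.1)))
      (s2.pair (h1.pair s1))
  have h5 : Computable fun x : ℕ × (List Bool × ℕ) => VV x.1.unpair.1
      (encode (x.2.2, x.2.1.take (VV x.1.unpair.2 x.2.2))) := comp_VV.comp u1 h3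
  have h4 : Computable fun x : ℕ × (List Bool × ℕ) => decide (VV x.1.unpair.1
      (encode (x.2.2, x.2.1.take (VV x.1.unpair.2 x.2.2))) = 1) :=
    heq.comp (f := fun y : ℕ => decide (y = 1)) (g := fun x : ℕ × (List Bool × ℕ) =>
      VV x.1.unpair.1 (encode (x.2.2, x.2.1.take (VV x.1.unpair.2 x.2.2)))) h5
  have h6 : Computable fun x : ℕ × (List Bool × ℕ) => cond (decide (VV x.1.unpair.1
      (encode (x.2.2, x.2.1.take (VV x.1.unpair.2 x.2.2))) = 1)) 1 0 :=
    Computable.cond h4 (Computable.const 1) (Computable.const 0)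
  exact Partrec.cond h2 h6.partrec Partrec.none

theorem exists_list : ∃ k : ℕ → Code, Computable k ∧ ∀ (c : ℕ) (X : R), Via (k c) X (JP c X) := by
  obtain ⟨U, hU⟩ := Nat.Partrec.Code.exists_code.1 qq_partrec
  have hev : ∀ (c : ℕ) (σ : List Bool) (m : ℕ),
      (Code.curry U c).eval (encode (σ, m)) = qq (c, (σ, m)) := by
    intro c σ m
    rw [Code.eval_curry, hU]
    have : Nat.pair c (encode (σ, m)) = encode (c, (σ, m)) := rfl
    rw [this]
    simp only [encodek, Part.coe_some, Part.bind_some]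
    exact Part.map_id' (fun _ => rfl) _
  refine ⟨fun c => Code.curry U c, (Code.primrec₂_curry.comp (Primrec.const U)
    Primrec.id).to_comp, fun c X n v => ?_⟩
  have h1 : ∀ s, v ∈ (Code.curry U c).eval (encode (pre X s, n)) ↔
      VV c.unpair.2 n ≤ s ∧ v = (JP c X n).toNat := by
    intro s
    rw [hev]
    unfold qq JP
    simp only
    rw [length_pre]
    by_cases h2 : VV c.unpair.2 n ≤ s
    · rw [decide_eq_true h2, cond_true, take_pre _ _ _ h2, Part.mem_some_iff]
      simp only [h2, true_and]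
      cases decide (VV c.unpair.1 (encode (n, pre X (VV c.unpair.2 n))) = 1) <;> simp
    · rw [decide_eq_false h2, cond_false]
      simp only [h2, false_and, iff_false]
      exact Part.notMem_none _
  constructor
  · rintro ⟨s, hs⟩
    exact ((h1 s).1 hs).2
  · intro hv
    exact ⟨VV c.unpair.2 n, (h1 _).2 ⟨le_rfl, hv⟩⟩

theorem exists_merge (k : ℕ → Code) (hk : Computable k)
    (ht : ∀ (c : ℕ) (X : R), ∃ Y, Via (k c) X Y) : ∃ k' : ℕ → Code, Computable k' ∧
    (∀ (c : ℕ) (X : R), ∃ Y, Via (k' c) X Y) ∧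
    ∀ X Y : R, ((∃ c, Via (k c) Y X) ∨ PrimFrom X Y) → ∃ c, Via (k' c) Y X := by
  obtain ⟨q, hq, hv⟩ := exists_list
  have h1 : Computable fun c : ℕ => decide (c % 2 = 0) :=
    (pf_decide (pp_eq (CD.pf_mod Primrec.id (Primrec.const 2)) (Primrec.const 0)) _).to_comp
  have h2 : Computable fun c : ℕ => c / 2 := (CD.pf_div Primrec.id (Primrec.const 2)).to_comp
  refine ⟨fun c => cond (decide (c % 2 = 0)) (k (c / 2)) (q (c / 2)),
    Computable.cond h1 (hk.comp h2) (hq.comp h2), fun c X => ?_, fun X Y h => ?_⟩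
  · beta_reduce
    by_cases h : c % 2 = 0
    · rw [decide_eq_true h, cond_true]
      exact ht _ X
    · rw [decide_eq_false h, cond_false]
      exact ⟨_, hv _ X⟩
  · rcases h with ⟨c, hc⟩ | h
    · refine ⟨2 * c, ?_⟩
      have e1 : 2 * c % 2 = 0 := by omega
      have e2 : 2 * c / 2 = c := by omega
      beta_reduce
      rw [decide_eq_true e1, cond_true, e2]
      exact hc
    · obtain ⟨c, hc⟩ := JP_complete h
      refine ⟨2 * c + 1, ?_⟩
      have e1 : ¬ (2 * c + 1) % 2 = 0 := by omega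
      have e2 : (2 * c + 1) / 2 = c := by omega
      beta_reduce
      rw [decide_eq_false e1, cond_false, e2]
      have := hv c Y
      rwa [hc] at this

/-- Part 1 of the theorem. -/
theorem final_one (i : Code) (k : ℕ → Code) (hk : Computable k)
    (ht : ∀ (c : ℕ) (X : R), ∃ Y, Via (k c) X Y) : ∃ e : ℕ,
    (∀ X : R, TLe X (chr (WE X e)) ∧ ¬ TLe (chr (WE X e)) X ∧
      TLe (chr (WE X e)) (jump X) ∧ ¬ TLe (jump X) (chr (WE X e)) ∧
      TLe (jump (chr (WE X e))) (jump X)) ∧
    ∀ X Y : R, Via i X Y → ((∃ c, Via (k c) Y X) ∨ PrimFrom X Y) →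
      TLe (chr (WE X e)) (chr (WE Y e)) ∧ TLe (chr (WE Y e)) (chr (WE X e)) := by
  obtain ⟨k', hk', ht', hm⟩ := exists_merge k hk ht
  obtain ⟨e, h1, h2⟩ := main_list i k' hk' ht'
  refine ⟨e, h1, fun X Y hX hY => ?_⟩
  obtain ⟨c, hc⟩ := hm X Y hY
  exact h2 X Y c hX hc

/-- Part 2 of the theorem. -/
theorem final_all (k : ℕ → Code) (hk : Computable k)
    (ht : ∀ (c : ℕ) (X : R), ∃ Y, Via (k c) X Y) : ∃ e : ℕ,
    (∀ (n : ℕ) (X : R), TLe X (chr (WE (lab n X) e)) ∧ ¬ TLe (chr (WE (lab n X) e)) X ∧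
      TLe (chr (WE (lab n X) e)) (jump X) ∧ ¬ TLe (jump X) (chr (WE (lab n X) e)) ∧
      TLe (jump (chr (WE (lab n X) e))) (jump X)) ∧
    ∀ (i : Code) (X Y : R), Via i X Y → ((∃ c, Via (k c) Y X) ∨ PrimFrom X Y) →
      TLe (chr (WE (lab (encode i) X) e)) (chr (WE (lab (encode i) Y) e)) ∧
      TLe (chr (WE (lab (encode i) Y) e)) (chr (WE (lab (encode i) X) e)) := by
  obtain ⟨k', hk', ht', hm⟩ := exists_merge k hk ht
  obtain ⟨e, h1, h2⟩ := main_lab k' hk' ht'
  refine ⟨e, h1, fun i X Y hX hY => ?_⟩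
  obtain ⟨c, hc⟩ := hm X Y hY
  exact h2 i X Y c hX hc

end Pool.Agent.TH769.FB
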