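import Pool.Agent.TH769.FB.Nod
import Pool.Agent.TH769.LH.Prm

set_option autoImplicit false

/-!
The construction on nodes is primitive recursive in finite data.
-/

namespace Pool.Agent.TH769.FB

open Encodable Pool.Agent.Helper227 Pool.Agent.H548R2.Post
open Nat.Partrec (Code)
open Pool.Agent.TH769.CD (jp jp_congr bdd_lt pf_add pf_mul pf_div pf_mod pf_pow pf_getD pf_take
  pf_append pf_cons pf_length pf_range pf_natPair pf_unpair pf_encode pf_testBit pf_xorb pf_andb
  pf_hlt pf_xor pp_exlt pp_alllt pp_imp pp_eq pp_le pp_lt pp_mem pf_decide pf_pre pp_En pf_ext)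
open Pool.Agent.TH769.ZA (val pf_val pf_sub)
open Pool.Agent.TH769.TL (gr)
open Pool.Agent.TH769.LH (R lst nn Mk Bk Kk pf_lst pf_gr EY CY)

attribute [local fun_prop] Primrec
attribute [local fun_prop] Primrec.id Primrec.const Primrec.comp Primrec.pair Primrec.fst Primrec.snd
attribute [local fun_prop] pf_add pf_mul pf_div pf_mod pf_pow pf_getD pf_take pf_append pf_cons
  pf_length pf_range pf_natPair pf_unpair pf_encode pf_testBit pf_xorb pf_andb pf_hlt pf_xor pf_sub

section

variable {α β : Type} [Primcodable α] [Primcodable β]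

@[local fun_prop] theorem pf_apN {c : β → ℕ} {p : β → Nd} (hc : Primrec c) (hp : Primrec p) :
    Primrec fun b => apN (c b) (p b) := Primrec.list_cons.comp hc hp

@[local fun_prop] theorem pf_mva {i : β → ℕ} {p : β → Nd} (hi : Primrec i) (hp : Primrec p) :
    Primrec fun b => mva apN (i b) (p b) := by
  have h1 : Primrec₂ fun (_ : β) (q : Nd) => apN 0 q := pf_apN (Primrec.const 0) Primrec.snd
  exact Primrec.nat_iterate hi hp h1

@[local fun_prop] theorem pf_cat {τ : β → List ℕ} {p : β → Nd} (hτ : Primrec τ)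
    (hp : Primrec p) : Primrec fun b => cat apN (τ b) (p b) := by
  have h1 : Primrec₂ fun (_ : β) (x : ℕ × Nd) => apN (x.1 + 1) x.2 :=
    pf_apN (pf_add (Primrec.fst.comp Primrec.snd) (Primrec.const 1))
      (Primrec.snd.comp Primrec.snd)
  exact Primrec.list_foldr hτ hp h1

@[local fun_prop] theorem pf_dg {m l w : β → ℕ} (hm : Primrec m) (hl : Primrec l)
    (hw : Primrec w) : Primrec fun b => dg (m b) (l b) (w b) := by
  have h1 : Primrec₂ fun (b : β) (i : ℕ) => w b / m b ^ i % m b := by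
    have : Primrec fun x : β × ℕ => w x.1 / m x.1 ^ x.2 % m x.1 := by fun_prop
    exact this
  exact Primrec.list_map (pf_range hl) h1

@[local fun_prop] theorem pf_drop {i : β → ℕ} {τ : β → List ℕ} (hi : Primrec i)
    (hτ : Primrec τ) : Primrec fun b => (τ b).drop (i b) := Primrec.list_drop.comp hi hτ

@[local fun_prop] theorem pf_nd {m a l w : β → ℕ} {p : β → Nd} (hm : Primrec m)
    (hp : Primrec p) (ha : Primrec a) (hl : Primrec l) (hw : Primrec w) :
    Primrec fun b => nd apN (m b) (p b) (a b) (l b) (w b) := by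
  unfold nd
  fun_prop

@[local fun_prop] theorem pf_bb {m : β → ℕ} (hm : Primrec m) : Primrec fun b => bb (m b) := by
  unfold bb
  fun_prop

section gen

variable {v : α → ℕ → Nd → ℕ}

theorem pf_v (hv : Primrec fun x : α × ℕ × Nd => v x.1 x.2.1 x.2.2) {a : β → α} {m : β → ℕ}
    {p : β → Nd} (ha : Primrec a) (hm : Primrec m) (hp : Primrec p) :
    Primrec fun b => v (a b) (m b) (p b) :=
  hv.comp (f := fun x : α × ℕ × Nd => v x.1 x.2.1 x.2.2) (g := fun b => (a b, m b, p b))
    (by fun_prop)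

theorem pp_Bk (hv : Primrec fun x : α × ℕ × Nd => v x.1 x.2.1 x.2.2) {a : β → α}
    {k s : β → ℕ} {p : β → Nd} (ha : Primrec a) (hk : Primrec k) (hs : Primrec s)
    (hp : Primrec p) : PrimrecPred fun b => Bk (v (a b)) (mva apN) (k b) (s b) (p b) := by
  refine PrimrecPred.and (pp_alllt (by fun_prop) (pp_le (pf_v hv (by fun_prop) (by fun_prop)
    (by fun_prop)) (pf_v hv (by fun_prop) (by fun_prop) (by fun_prop))))
    (pp_exlt (by fun_prop) (PrimrecPred.and (pp_lt (by fun_prop) (by fun_prop))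
    (pp_eq (pf_v hv (by fun_prop) (by fun_prop) (by fun_prop))
      (pf_v hv (by fun_prop) (by fun_prop) (by fun_prop)))))

theorem pp_Kk (hv : Primrec fun x : α × ℕ × Nd => v x.1 x.2.1 x.2.2) {a : β → α}
    {s : β → ℕ} {p : β → Nd} (ha : Primrec a) (hs : Primrec s)
    (hp : Primrec p) : PrimrecPred fun b => Kk (v (a b)) (mva apN) (s b) (p b) := by
  refine pp_alllt (by fun_prop) (pp_le (pf_v hv (by fun_prop) (by fun_prop)
    (by fun_prop)) (pf_v hv (by fun_prop) (by fun_prop) (by fun_prop)))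

theorem pp_Mk (hv : Primrec fun x : α × ℕ × Nd => v x.1 x.2.1 x.2.2) {a : β → α}
    {k s : β → ℕ} {p : β → Nd} (ha : Primrec a) (hk : Primrec k) (hs : Primrec s)
    (hp : Primrec p) : PrimrecPred fun b => Mk (v (a b)) (mva apN) (k b) (s b) (p b) := by
  refine PrimrecPred.and (pp_Bk hv ha hk hs hp) (PrimrecPred.or (PrimrecPred.not
    (pp_Kk hv ha hs hp)) (pp_exlt (by fun_prop) (PrimrecPred.and (pp_lt (by fun_prop)
    (by fun_prop)) (PrimrecPred.and (pp_Bk hv (by fun_prop) (by fun_prop) (by fun_prop)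
    (by fun_prop)) (PrimrecPred.and (pp_alllt (by fun_prop) (pp_imp (pp_lt (by fun_prop)
    (by fun_prop)) (PrimrecPred.not (pp_Bk hv (by fun_prop) (by fun_prop) (by fun_prop)
    (by fun_prop))))) (pp_Kk hv (by fun_prop) (by fun_prop) (by fun_prop)))))))

theorem pf_nn (hv : Primrec fun x : α × ℕ × Nd => v x.1 x.2.1 x.2.2) {a : β → α}
    {k s : β → ℕ} {p : β → Nd} (ha : Primrec a) (hk : Primrec k) (hs : Primrec s)
    (hp : Primrec p) : Primrec fun b => nn (v (a b)) (mva apN) (k b) (s b) (p b) := by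
  refine pf_lst (q := fun b i => Mk (v (a b)) (mva apN) (k b) (s b) (mva apN i (p b))) ?_
    (by fun_prop)
  exact pp_Mk hv (by fun_prop) (by fun_prop) (by fun_prop) (by fun_prop)

theorem pp_ED (hv : Primrec fun x : α × ℕ × Nd => v x.1 x.2.1 x.2.2) {a : β → α}
    {k s : β → ℕ} {p : β → Nd} (ha : Primrec a) (hk : Primrec k) (hs : Primrec s)
    (hp : Primrec p) : PrimrecPred fun b => ED (v (a b)) apN (k b) (s b) (p b) := by
  refine pp_exlt (by fun_prop) (pp_eq (pf_v hv (by fun_prop) (by fun_prop) (by fun_prop))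
    (pf_v hv (by fun_prop) (by fun_prop) (by fun_prop)))

theorem pf_dd (hv : Primrec fun x : α × ℕ × Nd => v x.1 x.2.1 x.2.2) {a : β → α}
    {k s : β → ℕ} {p : β → Nd} (ha : Primrec a) (hk : Primrec k) (hs : Primrec s)
    (hp : Primrec p) : Primrec fun b => dd (v (a b)) apN (k b) (s b) (p b) := by
  refine pf_lst (q := fun b i => ¬ ED (v (a b)) apN (k b) (s b) (mva apN i (p b))) ?_
    (by fun_prop)
  exact PrimrecPred.not (pp_ED hv (by fun_prop) (by fun_prop) (by fun_prop) (by fun_prop))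

theorem pf_nk (hv : Primrec fun x : α × ℕ × Nd => v x.1 x.2.1 x.2.2) {a : β → α}
    {k s : β → ℕ} {p : β → Nd} (ha : Primrec a) (hk : Primrec k) (hs : Primrec s)
    (hp : Primrec p) : Primrec fun b => nk (v (a b)) apN (k b) (s b) (p b) := by
  unfold nk
  exact Primrec.ite (pp_lt (pf_dd hv ha hk hs hp) (by fun_prop)) (pf_dd hv ha hk hs hp)
    (pf_nn hv ha hk hs hp)

theorem pf_gk (hv : Primrec fun x : α × ℕ × Nd => v x.1 x.2.1 x.2.2) {a : β → α}
    {k s : β → ℕ} {p : β → Nd} (ha : Primrec a) (hk : Primrec k) (hs : Primrec s)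
    (hp : Primrec p) : Primrec fun b => gk (v (a b)) apN (k b) (s b) (p b) := by
  refine pf_gr (q := fun b i => nk (v (a b)) apN i (s b) (p b)) ?_ hk (by fun_prop)
  exact pf_nk hv (by fun_prop) (by fun_prop) (by fun_prop) (by fun_prop)

theorem pp_vd (hv : Primrec fun x : α × ℕ × Nd => v x.1 x.2.1 x.2.2) {a : β → α}
    {s : β → ℕ} {τ : β → List ℕ} {p : β → Nd} (ha : Primrec a) (hs : Primrec s)
    (hτ : Primrec τ) (hp : Primrec p) :
    PrimrecPred fun b => vd (v (a b)) apN (s b) (τ b) (p b) := by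
  refine pp_alllt (pf_length hτ) (pp_eq (pf_v hv (by fun_prop) (by fun_prop) (by fun_prop))
    (pf_v hv (by fun_prop) (by fun_prop) (by fun_prop)))

theorem pp_MemG (hv : Primrec fun x : α × ℕ × Nd => v x.1 x.2.1 x.2.2) {a : β → α}
    {m s h y : β → ℕ} {τ : β → List ℕ} {p : β → Nd} (ha : Primrec a) (hm : Primrec m)
    (hs : Primrec s) (hh : Primrec h) (hp : Primrec p) (hy : Primrec y) (hτ : Primrec τ) :
    PrimrecPred fun b => MemG (v (a b)) apN (m b) (s b) (h b) (p b) (y b) (τ b) := by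
  refine PrimrecPred.and (pp_le hy hh) (PrimrecPred.and (pp_vd hv ha hs hτ (by fun_prop))
    (pp_eq (pf_add ?_ hy) (pf_add (pf_length hτ) hh)))
  exact pf_gk hv ha hm hs (by fun_prop)

end gen

section st

variable {Y : α → Nd → R} {V : α → ℕ → Nd → ℕ → Prop}

theorem pf_Y (hY : Primrec fun x : α × Nd × ℕ => Y x.1 x.2.1 x.2.2) {a : β → α} {p : β → Nd}
    {i : β → ℕ} (ha : Primrec a) (hp : Primrec p) (hi : Primrec i) :
    Primrec fun b => Y (a b) (p b) (i b) :=
  hY.comp (f := fun x : α × Nd × ℕ => Y x.1 x.2.1 x.2.2) (g := fun b => (a b, p b, i b))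
    (by fun_prop)

theorem pf_vY (hY : Primrec fun x : α × Nd × ℕ => Y x.1 x.2.1 x.2.2) :
    Primrec fun x : α × ℕ × Nd => vY (Y x.1) x.2.1 x.2.2 :=
  pf_val (Y := fun x : α × ℕ × Nd => Y x.1 x.2.2) (pf_Y hY (by fun_prop) (by fun_prop)
    (by fun_prop)) (by fun_prop)

theorem pf_gN (hY : Primrec fun x : α × Nd × ℕ => Y x.1 x.2.1 x.2.2) {a : β → α}
    {m s : β → ℕ} {p : β → Nd} (ha : Primrec a) (hm : Primrec m) (hs : Primrec s)
    (hp : Primrec p) : Primrec fun b => gN (Y (a b)) (m b) (s b) (p b) :=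
  pf_gk (v := fun a => vY (Y a)) (pf_vY hY) ha hm hs hp

theorem pp_MN (hY : Primrec fun x : α × Nd × ℕ => Y x.1 x.2.1 x.2.2) {e : β → α}
    {m s h a l w : β → ℕ} {p : β → Nd} (he : Primrec e) (hm : Primrec m) (hs : Primrec s)
    (hh : Primrec h) (hp : Primrec p) (ha : Primrec a) (hl : Primrec l) (hw : Primrec w) :
    PrimrecPred fun b => MN (Y (e b)) (m b) (s b) (h b) (p b) (a b) (l b) (w b) :=
  pp_MemG (v := fun a => vY (Y a)) (pf_vY hY) he hm hs hh hp ha (by fun_prop)

theorem pp_EN (hY : Primrec fun x : α × Nd × ℕ => Y x.1 x.2.1 x.2.2) {e : β → α}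
    {m s t h : β → ℕ} {p : β → Nd} (he : Primrec e) (hm : Primrec m) (hs : Primrec s)
    (ht : Primrec t) (hh : Primrec h) (hp : Primrec p) :
    PrimrecPred fun b => EN (Y (e b)) (m b) (s b) (t b) (h b) (p b) := by
  refine pp_exlt (by fun_prop) (pp_exlt (by fun_prop) (pp_exlt (by fun_prop)
    (PrimrecPred.and ?_ (PrimrecPred.or (PrimrecPred.not ?_) (PrimrecPred.not
      (pp_eq ?_ ?_))))))
  · exact pp_MN hY (by fun_prop) (by fun_prop) (by fun_prop) (by fun_prop) (by fun_prop)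
      (by fun_prop) (by fun_prop) (by fun_prop)
  · exact pp_vd (v := fun a => vY (Y a)) (pf_vY hY) (by fun_prop) (by fun_prop) (by fun_prop)
      (by fun_prop)
  · exact pf_gN hY (by fun_prop) (by fun_prop) (by fun_prop) (by fun_prop)
  · exact pf_gN hY (by fun_prop) (by fun_prop) (by fun_prop) (by fun_prop)

theorem pp_ChgN (hY : Primrec fun x : α × Nd × ℕ => Y x.1 x.2.1 x.2.2) {a : β → α}
    {m s : β → ℕ} {p : β → Nd} (ha : Primrec a) (hm : Primrec m) (hs : Primrec s)
    (hp : Primrec p) : PrimrecPred fun b => ChgN (Y (a b)) (m b) (s b) (p b) := by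
  refine PrimrecPred.or ?_ ?_
  · exact pp_EN hY ha hm (by fun_prop) hs (pf_gN hY ha hm (by fun_prop) hp) hp
  · exact pp_EN hY ha hm hs hs (pf_gN hY ha hm hs hp) hp

theorem pp_StN (hY : Primrec fun x : α × Nd × ℕ => Y x.1 x.2.1 x.2.2) {a : β → α}
    {m s u : β → ℕ} {p : β → Nd} (ha : Primrec a) (hm : Primrec m) (hs : Primrec s)
    (hp : Primrec p) (hu : Primrec u) :
    PrimrecPred fun b => StN (Y (a b)) (m b) (s b) (p b) (u b) := by
  refine PrimrecPred.and (PrimrecPred.or (pp_eq (by fun_prop) (by fun_prop))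
    (pp_ChgN hY ha hm hu hp)) (pp_alllt (by fun_prop) (pp_imp (pp_lt (by fun_prop) (by fun_prop))
    (PrimrecPred.not (pp_ChgN hY (by fun_prop) (by fun_prop) (by fun_prop) (by fun_prop)))))

theorem pp_V (hV : PrimrecPred fun x : α × ℕ × Nd × ℕ => V x.1 x.2.1 x.2.2.1 x.2.2.2)
    {a : β → α} {s y : β → ℕ} {p : β → Nd} (ha : Primrec a) (hs : Primrec s) (hp : Primrec p)
    (hy : Primrec y) : PrimrecPred fun b => V (a b) (s b) (p b) (y b) :=
  hV.comp (p := fun x : α × ℕ × Nd × ℕ => V x.1 x.2.1 x.2.2.1 x.2.2.2)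
    (f := fun b => (a b, s b, p b, y b)) (by fun_prop)

theorem pp_CY (hY : Primrec fun x : α × Nd × ℕ => Y x.1 x.2.1 x.2.2)
    (hV : PrimrecPred fun x : α × ℕ × Nd × ℕ => V x.1 x.2.1 x.2.2.1 x.2.2.2)
    {a : β → α} {s e u : β → ℕ} {p : β → Nd} (ha : Primrec a) (hs : Primrec s) (he : Primrec e)
    (hu : Primrec u) (hp : Primrec p) :
    PrimrecPred fun b => CY (s b) (e b) (u b) (Y (a b) (p b)) (V (a b) (s b) (p b)) := by
  classical
  refine pp_eq (pf_hlt hs he he (pf_pre ?_ hu)) (by fun_prop)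
  unfold jp
  refine Primrec.ite (pp_eq (by fun_prop) (by fun_prop)) ?_ (pf_decide ?_ _)
  · exact pf_Y hY (by fun_prop) (by fun_prop) (by fun_prop)
  · exact pp_V hV (by fun_prop) (by fun_prop) (by fun_prop) (by fun_prop)

theorem pp_EY (hY : Primrec fun x : α × Nd × ℕ => Y x.1 x.2.1 x.2.2)
    {a : β → α} {s e u : β → ℕ} {p : β → Nd} (ha : Primrec a) (hs : Primrec s) (he : Primrec e)
    (hu : Primrec u) (hp : Primrec p) :
    PrimrecPred fun b => En (s b) (e b) (u b) (Y (a b) (p b)) :=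
  pp_En (Y := fun b => Y (a b) (p b)) (pf_Y hY (by fun_prop) (by fun_prop) (by fun_prop)) hs he hu

theorem pp_FN (hY : Primrec fun x : α × Nd × ℕ => Y x.1 x.2.1 x.2.2)
    (hV : PrimrecPred fun x : α × ℕ × Nd × ℕ => V x.1 x.2.1 x.2.2.1 x.2.2.2)
    {a : β → α} {m s z : β → ℕ} {p : β → Nd} (ha : Primrec a) (hm : Primrec m) (hs : Primrec s)
    (hp : Primrec p) (hz : Primrec z) :
    PrimrecPred fun b => FN (Y (a b)) (V (a b)) (m b) (s b) (p b) (z b) := by
  refine PrimrecPred.and (pp_lt (by fun_prop) (by fun_prop)) (PrimrecPred.and ?_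
    (PrimrecPred.and ?_ ?_))
  · refine pp_exlt (by fun_prop) (PrimrecPred.and ?_ (pp_eq (by fun_prop) (by fun_prop)))
    exact pp_StN hY (by fun_prop) (by fun_prop) (by fun_prop) (by fun_prop) (by fun_prop)
  · refine pp_exlt (by fun_prop) (pp_exlt (by fun_prop) (pp_exlt (by fun_prop)
      (PrimrecPred.and ?_
      (PrimrecPred.and ?_ (pp_alllt (by fun_prop) (pp_imp ?_ (PrimrecPred.not ?_)))))))
    · exact pp_MN hY (by fun_prop) (by fun_prop) (by fun_prop) (pf_gN hY (by fun_prop)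
        (by fun_prop) (by fun_prop) (by fun_prop)) (by fun_prop) (by fun_prop) (by fun_prop)
        (by fun_prop)
    · exact pp_EY hY (by fun_prop) (by fun_prop) (by fun_prop) (by fun_prop) (by fun_prop)
    · exact pp_V hV (by fun_prop) (by fun_prop) (by fun_prop) (by fun_prop)
    · exact pp_EY hY (by fun_prop) (by fun_prop) (by fun_prop) (by fun_prop) (by fun_prop)
  · refine pp_alllt (by fun_prop) (pp_alllt (by fun_prop) (pp_alllt (by fun_prop)
      (pp_imp ?_ (pp_alllt (by fun_prop)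
      (pp_imp (pp_exlt (by fun_prop) ?_) (pp_exlt (by fun_prop) (PrimrecPred.and
      (pp_lt (by fun_prop) (by fun_prop)) ?_)))))))
    · exact pp_MN hY (by fun_prop) (by fun_prop) (by fun_prop) (pf_gN hY (by fun_prop)
        (by fun_prop) (by fun_prop) (by fun_prop)) (by fun_prop) (by fun_prop) (by fun_prop)
        (by fun_prop)
    · exact pp_CY hY hV (by fun_prop) (by fun_prop) (by fun_prop) (by fun_prop) (by fun_prop)
    · exact pp_CY hY hV (by fun_prop) (by fun_prop) (by fun_prop) (by fun_prop) (by fun_prop)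

theorem pp_SN (hY : Primrec fun x : α × Nd × ℕ => Y x.1 x.2.1 x.2.2)
    (hV : PrimrecPred fun x : α × ℕ × Nd × ℕ => V x.1 x.2.1 x.2.2.1 x.2.2.2)
    {a : β → α} {s z : β → ℕ} {p : β → Nd} (ha : Primrec a) (hs : Primrec s)
    (hp : Primrec p) (hz : Primrec z) :
    PrimrecPred fun b => SN (Y (a b)) (V (a b)) (s b) (p b) (z b) := by
  refine pp_exlt hs (PrimrecPred.and ?_ (pp_alllt (by fun_prop) (PrimrecPred.not ?_)))
  · exact pp_FN hY hV (by fun_prop) (by fun_prop) (by fun_prop) (by fun_prop) (by fun_prop)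
  · exact pp_FN hY hV (by fun_prop) (by fun_prop) (by fun_prop) (by fun_prop) (by fun_prop)

end st

end

end Pool.Agent.TH769.FB
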