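import Pool.Agent.TH769.FB.Par

set_option autoImplicit false

/-!
A functional on finite strings, and the sequence of its iterates.
-/

namespace Pool.Agent.TH769.FB

open Encodable Pool.Agent.Helper227 Pool.Agent.H548R2.Post
open Nat.Partrec (Code)
open Pool.Agent.TH769.TP (Lim Mon Via FF Mx UU Cnt Unb filt_range si_U case_unb case_bdd case_eq
  case_back pp_Mx lim_exists pf_iter)
open Pool.Agent.TH769.CD (jp jp_congr bdd_lt pf_add pf_mul pf_div pf_mod pf_pow pf_getD pf_take
  pf_append pf_cons pf_length pf_range pf_natPair pf_unpair pf_encode pf_testBit pf_xorb pf_andb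
  pf_hlt pf_xor pp_exlt pp_alllt pp_imp pp_eq pp_le pp_lt pp_mem pf_decide pf_pre pp_En pf_ext
  ext_pre_eq)
open Pool.Agent.TH769.ZA (val pf_val pf_sub Apx Apx.iter comp_iter si_gen apx_le)
open Pool.Agent.TH769.LH (R)

attribute [local fun_prop] Primrec
attribute [local fun_prop] Primrec.id Primrec.const Primrec.comp Primrec.pair Primrec.fst Primrec.snd
attribute [local fun_prop] pf_add pf_mul pf_div pf_mod pf_pow pf_getD pf_take pf_append pf_cons
  pf_length pf_range pf_natPair pf_unpair pf_encode pf_testBit pf_xorb pf_andb pf_hlt pf_xor pf_sub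

/-- the counter for the `n`-th iterate -/
def R1 (F : List Bool → List Bool) (n : ℕ) (σ : List Bool) (k : ℕ) : Prop := k ≤ (F^[n] σ).length

/-- the counter for all iterates -/
def R2 (F : List Bool → List Bool) (n : ℕ) (σ : List Bool) (k : ℕ) : Prop :=
  n = 0 ∧ k ≤ (F^[k] σ).length

def bt (F : List Bool → List Bool) (σ : List Bool) (m : ℕ) : Bool :=
  (F^[m.unpair.1] σ).getD m.unpair.2 false

/-- the sequence of the iterates, up to the `n`-th -/
def H1 (F : List Bool → List Bool) (n : ℕ) (σ : List Bool) : List Bool :=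
  (List.range (F^[n] σ).length).map fun m => cond (decide (m.unpair.1 ≤ n)) (bt F σ m) false

open Classical in
/-- the sequence of all iterates -/
noncomputable def H2 (F : List Bool → List Bool) (_ : ℕ) (σ : List Bool) : List Bool :=
  (List.range σ.length).filterMap
    (fun m => if m + 1 ≤ (F^[m + 1] σ).length then some (bt F σ m) else none)

open Classical in
/-- the `k`-th iterate, if it is total -/
noncomputable def FI (F : List Bool → List Bool) (X : R) (k : ℕ) : R :=
  if h : ∃ Z, Lim (F^[k]) X Z then Classical.choose h else fun _ => false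

/-- the sequence of the iterates -/
noncomputable def ZX (F : List Bool → List Bool) (X : R) : R :=
  fun m => FI F X m.unpair.1 m.unpair.2

section

variable {F : List Bool → List Bool} {X Y : R}

theorem len_mono (hF : Mon F) {k k' : ℕ} (h : k ≤ k') (σ : List Bool) :
    (F^[k'] σ).length ≤ (F^[k] σ).length := by
  induction k', h using Nat.le_induction with
  | base => exact le_rfl
  | succ k' _ ih =>
    rw [Function.iterate_succ_apply']
    exact (hF.short _).trans ih

theorem len_pre_mono (hF : Mon F) (k : ℕ) {σ τ : List Bool} (h : σ <+: τ) :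
    (F^[k] σ).length ≤ (F^[k] τ).length := ((hF.iter k).mono _ _ h).length_le

theorem cnt_R1 (hF : Mon F) : Cnt (R1 F) :=
  ⟨fun n _ _ _ hs h => le_trans h (len_pre_mono hF n hs),
    fun n σ _ h => le_trans h (len_mono hF (Nat.le_succ n) σ),
    fun _ _ _ _ hk h => le_trans hk h⟩

theorem cnt_R2 (hF : Mon F) : Cnt (R2 F) :=
  ⟨fun _ _ _ k hs h => ⟨h.1, le_trans h.2 (len_pre_mono hF k hs)⟩,
    fun _ _ _ h => absurd h.1 (Nat.succ_ne_zero _),
    fun _ σ _ _ hk h => ⟨h.1, hk.trans (le_trans h.2 (len_mono hF hk σ))⟩⟩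

theorem unb_R1 (hF : Mon F) {n : ℕ} : Unb (R1 F n) X ↔ ∃ Z, Lim (F^[n]) X Z := by
  constructor
  · intro h
    exact lim_exists (hF.iter n).mono h
  · rintro ⟨Z, hZ⟩ k
    obtain ⟨M, hM⟩ := hZ.long k
    exact ⟨M, hM M le_rfl⟩

theorem unb_R2 (hF : Mon F) : Unb (R2 F 0) X ↔ ∀ k, ∃ Z, Lim (F^[k]) X Z := by
  constructor
  · intro h k
    refine (unb_R1 hF).1 fun j => ?_
    obtain ⟨s, -, hs⟩ := h (max j k)
    exact ⟨s, le_trans (le_max_left j k) (le_trans hs (len_mono hF (le_max_right j k) _))⟩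
  · intro h k
    obtain ⟨s, hs⟩ := (unb_R1 hF).2 (h k) k
    exact ⟨s, rfl, hs⟩

theorem not_unb_R2 {n : ℕ} : ¬ Unb (R2 F (n + 1)) X := by
  intro h
  obtain ⟨s, hs⟩ := h 0
  exact absurd hs.1 (Nat.succ_ne_zero _)

theorem lim_anti (hF : Mon F) {k k' : ℕ} (h : k ≤ k') (h1 : ∃ Z, Lim (F^[k']) X Z) :
    ∃ Z, Lim (F^[k]) X Z := by
  refine (unb_R1 hF).1 fun j => ?_
  obtain ⟨s, hs⟩ := (unb_R1 hF).2 h1 j
  exact ⟨s, le_trans hs (len_mono hF h _)⟩

theorem lim_FI {k : ℕ} (h : ∃ Z, Lim (F^[k]) X Z) : Lim (F^[k]) X (FI F X k) := by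
  unfold FI
  rw [dif_pos h]
  exact Classical.choose_spec h

theorem FI_zero : FI F X 0 = X := by
  have h : ∃ Z, Lim (F^[0]) X Z := ⟨X, Lim.id X⟩
  exact ((Lim.id X).unique (lim_FI h)).symm

theorem bt_eq {k : ℕ} (hk : ∀ j ≤ k, ∃ Z, Lim (F^[j]) X Z) {s m : ℕ} (hm : m.unpair.1 ≤ k)
    (hl : m.unpair.2 < (F^[m.unpair.1] (pre X s)).length) : bt F (pre X s) m = ZX F X m := by
  obtain ⟨n, hn⟩ := (lim_FI (hk _ hm)).ok s
  unfold bt ZX
  rw [hn, length_pre] at hl
  rw [hn]
  exact pre_getD _ _ _ _ hl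

theorem H1_lim (hF : Mon F) {n : ℕ} (h : ∃ Z, Lim (F^[n]) X Z)
    (h' : ¬ ∃ Z, Lim (F^[n + 1]) X Z) : Lim (H1 F n) X (ZX F X) := by
  refine ⟨fun s => ⟨(F^[n] (pre X s)).length, ?_⟩, fun N => ?_⟩
  · unfold H1 pre
    refine List.map_congr_left fun m hm => ?_
    rw [List.mem_range] at hm
    by_cases h1 : m.unpair.1 ≤ n
    · rw [decide_eq_true h1, cond_true]
      have h2 := Nat.unpair_right_le m
      have h3 := len_mono hF h1 (pre X s)
      exact bt_eq (fun j hj => lim_anti hF hj h) h1 (lt_of_le_of_lt h2 (lt_of_lt_of_le hm h3))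
    · rw [decide_eq_false h1, cond_false]
      unfold ZX FI
      rw [dif_neg fun h2 => h' (lim_anti hF (by omega) h2)]
  · obtain ⟨s, hs⟩ := (unb_R1 hF).2 h N
    refine ⟨s, fun t ht => ?_⟩
    unfold H1
    rw [List.length_map, List.length_range]
    exact le_trans hs (len_pre_mono hF n (pre_prefix X ht))

theorem H2_lim (hF : Mon F) (h : ∀ k, ∃ Z, Lim (F^[k]) X Z) : Lim (H2 F 0) X (ZX F X) := by
  classical
  have hd : ∀ s m m', m' ≤ m → m + 1 ≤ (F^[m + 1] (pre X s)).length →
      m' + 1 ≤ (F^[m' + 1] (pre X s)).length := fun s m m' hm h =>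
    le_trans (by omega) (le_trans h (len_mono hF (show m' + 1 ≤ m + 1 by omega) _))
  refine ⟨fun s => ?_, fun N => ?_⟩
  · obtain ⟨t, h1, h2, h3, -⟩ := filt_range (hd s) (bt F (pre X s)) (pre X s).length
    refine ⟨t, ?_⟩
    unfold H2
    rw [h2]
    unfold pre
    refine List.map_congr_left fun m hm => ?_
    have h4 := h3 m (List.mem_range.1 hm)
    have h5 := Nat.unpair_right_le m
    have h6 := Nat.unpair_left_le m
    have h7 := len_mono hF (show m.unpair.1 ≤ m + 1 by omega) (pre X s)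
    exact bt_eq (fun j _ => h j) le_rfl (by omega)
  · obtain ⟨s0, -, hs0⟩ := (unb_R2 hF).2 h N
    refine ⟨max s0 N, fun s hs => ?_⟩
    obtain ⟨t, h1, h2, h3, h4⟩ := filt_range (hd s) (bt F (pre X s)) (pre X s).length
    unfold H2
    rw [h2, List.length_map, List.length_range]
    by_contra hc
    have h6 : t < N := by omega
    have h8 := len_pre_mono hF N (pre_prefix X (show s0 ≤ s by omega))
    have h9 := len_mono hF (show t + 1 ≤ N by omega) (pre X s)
    have h10 : t < (pre X s).length := by rw [length_pre]; omega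
    exact absurd (h4 t h10 (by omega)) (lt_irrefl _)

/-! The next member. -/

theorem lim_shift (hF : Mon F) (hXY : Lim F X Y) {k : ℕ} {Z : R} :
    Lim (F^[k + 1]) X Z ↔ Lim (F^[k]) Y Z := by
  constructor
  · intro h
    refine ⟨fun s => ?_, fun N => ?_⟩
    · obtain ⟨M, hM⟩ := hXY.long s
      obtain ⟨n, hn⟩ := hXY.ok M
      have h1 := hM M le_rfl
      rw [hn, length_pre] at h1
      obtain ⟨n', hn'⟩ := h.ok M
      rw [Function.iterate_succ_apply, hn] at hn'
      have h2 := (hF.iter k).mono _ _ (pre_prefix Y h1)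
      rw [hn'] at h2
      exact ⟨_, TP.prefix_pre h2⟩
    · obtain ⟨M, hM⟩ := h.long N
      obtain ⟨n, hn⟩ := hXY.ok M
      refine ⟨n, fun s hs => ?_⟩
      have h1 := hM M le_rfl
      rw [Function.iterate_succ_apply, hn] at h1
      exact le_trans h1 (len_pre_mono hF k (pre_prefix Y hs))
  · intro h
    exact hXY.comp h

theorem FI_shift (hF : Mon F) (hXY : Lim F X Y) (k : ℕ) : FI F X (k + 1) = FI F Y k := by
  by_cases h : ∃ Z, Lim (F^[k]) Y Z
  · have h1 : ∃ Z, Lim (F^[k + 1]) X Z := by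
      obtain ⟨Z, hZ⟩ := h
      exact ⟨Z, (lim_shift hF hXY).2 hZ⟩
    exact (lim_FI h1).unique ((lim_shift hF hXY).2 (lim_FI h))
  · have h1 : ¬ ∃ Z, Lim (F^[k + 1]) X Z := by
      rintro ⟨Z, hZ⟩
      exact h ⟨Z, (lim_shift hF hXY).1 hZ⟩
    unfold FI
    rw [dif_neg h, dif_neg h1]

theorem sh_ZX (hF : Mon F) (hXY : Lim F X Y) : sh (ZX F X) = ZX F Y := by
  funext m
  unfold sh ZX
  rw [Nat.unpair_pair]
  simp only
  rw [FI_shift hF hXY]

theorem f0_ZX : f0 (ZX F X) = X := by
  funext m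
  unfold f0 ZX
  rw [Nat.unpair_pair]
  simp only
  rw [FI_zero]

theorem pu_ZX (hF : Mon F) (hXY : Lim F X Y) {J : R → R} (hJ : J Y = X) :
    pu J (sh (ZX F X)) = ZX F X := by
  rw [sh_ZX hF hXY]
  funext m
  unfold pu
  by_cases h : m.unpair.1 = 0
  · rw [if_pos h, f0_ZX, hJ]
    unfold ZX
    rw [h, FI_zero]
  · rw [if_neg h]
    unfold ZX
    rw [Nat.unpair_pair]
    simp only
    rw [← FI_shift hF hXY, show m.unpair.1 - 1 + 1 = m.unpair.1 by omega]

theorem le_ZX : TLe X (ZX F X) := by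
  have hf : Computable fun n : ℕ => Nat.pair 0 n := by
    have : Primrec fun n : ℕ => Nat.pair 0 n := by fun_prop
    exact this.to_comp
  refine tLe_of_computable hf fun n => ?_
  exact (congrFun (f0_ZX (F := F) (X := X)) n).symm

end

/-! Primitive recursion. -/

section

variable {F : List Bool → List Bool} (pF : Primrec F)

include pF

theorem pf_bt {β : Type} [Primcodable β] {σ : β → List Bool} {m : β → ℕ} (hσ : Primrec σ)
    (hm : Primrec m) : Primrec fun b => bt F (σ b) (m b) :=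
  pf_getD (pf_iter pF (by fun_prop) hσ) (by fun_prop)

theorem pH1 : Primrec fun x : ℕ × List Bool => H1 F x.1 x.2 := by
  have h1 : Primrec₂ fun (x : ℕ × List Bool) (m : ℕ) =>
      cond (decide (m.unpair.1 ≤ x.1)) (bt F x.2 m) false := by
    have : Primrec fun y : (ℕ × List Bool) × ℕ =>
        cond (decide (y.2.unpair.1 ≤ y.1.1)) (bt F y.1.2 y.2) false :=
      Primrec.cond (pf_decide (pp_le (by fun_prop) (by fun_prop)) _)
        (pf_bt pF (by fun_prop) (by fun_prop)) (Primrec.const false)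
    exact this
  exact Primrec.list_map (pf_range (pf_length (pf_iter pF (by fun_prop) (by fun_prop)))) h1

theorem pR1 : PrimrecPred fun x : ℕ × List Bool × ℕ => R1 F x.1 x.2.1 x.2.2 :=
  pp_le (by fun_prop) (pf_length (pf_iter pF (by fun_prop) (by fun_prop)))

theorem pH2 : Primrec fun x : ℕ × List Bool => H2 F x.1 x.2 := by
  classical
  have h1 : Primrec₂ fun (x : ℕ × List Bool) (m : ℕ) =>
      if m + 1 ≤ (F^[m + 1] x.2).length then some (bt F x.2 m) else none := by
    have : Primrec fun y : (ℕ × List Bool) × ℕ =>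
        if y.2 + 1 ≤ (F^[y.2 + 1] y.1.2).length then some (bt F y.1.2 y.2) else none :=
      Primrec.ite (pp_le (by fun_prop) (pf_length (pf_iter pF (by fun_prop) (by fun_prop))))
        (Primrec.option_some.comp (pf_bt pF (by fun_prop) (by fun_prop))) (Primrec.const none)
    exact this
  have h2 : Primrec fun x : ℕ × List Bool => (List.range x.2.length).filterMap
      fun m => if m + 1 ≤ (F^[m + 1] x.2).length then some (bt F x.2 m) else none :=
    Primrec.listFilterMap (pf_range (pf_length Primrec.snd)) h1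
  refine h2.of_eq fun x => ?_
  unfold H2
  congr!

theorem pR2 : PrimrecPred fun x : ℕ × List Bool × ℕ => R2 F x.1 x.2.1 x.2.2 :=
  PrimrecPred.and (pp_eq (by fun_prop) (by fun_prop))
    (pp_le (by fun_prop) (pf_length (pf_iter pF (by fun_prop) (by fun_prop))))

end

end Pool.Agent.TH769.FB
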