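import Pool.Agent.TH769.FB.Prm
import Pool.Agent.TH769.ZA.Chn

set_option autoImplicit false

/-!
Finite tables for the construction.
-/

namespace Pool.Agent.TH769.FB

open Encodable Pool.Agent.Helper227 Pool.Agent.H548R2.Post
open Nat.Partrec (Code)
open Pool.Agent.TH769.CD (jp jp_congr bdd_lt pf_add pf_mul pf_div pf_mod pf_pow pf_getD pf_take
  pf_append pf_cons pf_length pf_range pf_natPair pf_unpair pf_encode pf_testBit pf_xorb pf_andb
  pf_hlt pf_xor pp_exlt pp_alllt pp_imp pp_eq pp_le pp_lt pp_mem pf_decide pf_pre pp_En pf_ext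
  ext_pre_eq)
open Pool.Agent.TH769.ZA (val pf_val pf_sub Apx Apx.iter comp_iter si_gen)
open Pool.Agent.TH769.TL (gr)
open Pool.Agent.TH769.LH (R vr EY CY)

attribute [local fun_prop] Primrec
attribute [local fun_prop] Primrec.id Primrec.const Primrec.comp Primrec.pair Primrec.fst Primrec.snd
attribute [local fun_prop] pf_add pf_mul pf_div pf_mod pf_pow pf_getD pf_take pf_append pf_cons
  pf_length pf_range pf_natPair pf_unpair pf_encode pf_testBit pf_xorb pf_andb pf_hlt pf_xor pf_sub
  pf_apN pf_mva pf_cat pf_dg pf_drop pf_nd pf_bb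

/-- the rows of the finite data -/
abbrev Tb : Type := List (List Bool)

def YO (O : Tb) (p : Nd) : R := ext (O.getD (encode p) [])

/-- the relation coded by a list of numbers -/
def mm (T : List ℕ) (s : ℕ) (p : Nd) (z : ℕ) : Prop := Nat.pair (encode p) (Nat.pair s z) ∈ T

def kk (s : ℕ) : ℕ := 2 * (s * s * s)

theorem kk_step {s' s : ℕ} (h : s' < s) : kk s' + 2 * (s * s) ≤ kk s := by
  unfold kk
  have h1 : s' * s' * s' ≤ s * s * s' :=
    Nat.mul_le_mul (Nat.mul_le_mul h.le h.le) le_rfl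
  have h2 : s * s * (s' + 1) ≤ s * s * s := Nat.mul_le_mul le_rfl h
  have h3 : s * s * (s' + 1) = s * s * s' + s * s := by ring
  omega

/-- the rank up to which the oracles at the nodes are used -/
def KY (t : ℕ) : ℕ := kk t + 2 * (t * t) + 3 * t + 2

/-- the table `T` is right up to stage `t` -/
def Good (O : Tb) (T : List ℕ) (t : ℕ) : Prop :=
  ∀ s < t, ∀ l < kk t + 1, ∀ w < (t + 1) ^ l, l + kk s ≤ kk t → ∀ z < t,
    (mm T s (dg (t + 1) l w) z ↔ SN (YO O) (VZ (mm T)) s (dg (t + 1) l w) z)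

theorem AA_lt {φ : ℕ → R → R} {s : ℕ} {p : R} {z : ℕ} (h : AA φ s p z) : z < s := by
  obtain ⟨m, -, h1⟩ := (AA_eq s p z).1 h
  exact h1.1.1

section

variable {φ : ℕ → R → R} {X : R} {O : Tb} {t : ℕ}

theorem sn_aa (hY : GdY φ X (YO O) (KY t) t) {V : ℕ → Nd → ℕ → Prop}
    {s : ℕ} (hs : s < t) {p : Nd} (ho : okN (t + 1) p) (hp : p.length + kk s ≤ kk t) {z : ℕ}
    (hV : ∀ q, okN (t + 1) q → q.length ≤ p.length + 2 * (s * s) → ∀ y < s,
      (V s q y ↔ VZ (AA φ) s (ph φ X q) y)) :
    SN (YO O) V s p z ↔ AA φ s (ph φ X p) z := by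
  rw [AA_eq]
  refine SN_iff hY hs.le ho ?_ hV
  have h1 : s * s ≤ t * t := Nat.mul_le_mul hs.le hs.le
  unfold KY
  omega

theorem good_mm (hY : GdY φ X (YO O) (KY t) t) {T : List ℕ}
    (hG : Good O T t) (s : ℕ) : s < t → ∀ p, okN (t + 1) p → p.length + kk s ≤ kk t → ∀ z < t,
      (mm T s p z ↔ AA φ s (ph φ X p) z) := by
  induction s using Nat.strong_induction_on with
  | _ s ih =>
    intro hs p ho hp z hz
    obtain ⟨w, hw, he⟩ := exists_dg ho
    have h1 := hG s hs p.length (by omega) w hw hp z hz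
    rw [he] at h1
    rw [h1]
    refine sn_aa hY hs ho hp fun q hq hr y hy => ?_
    refine exists_congr fun s' => and_congr_right fun hs' => ?_
    have := kk_step hs'
    exact ih s' hs' (by omega) q hq (by omega) y (by omega)

theorem good_ex (hY : GdY φ X (YO O) (KY t) t) : ∃ T, Good O T t := by
  classical
  let S : Set ℕ := {c | ∃ p : Nd, ∃ s z : ℕ, (okN (t + 1) p ∧ p.length ≤ kk t ∧ s < t ∧ z < t) ∧
    AA φ s (ph φ X p) z ∧ c = Nat.pair (encode p) (Nat.pair s z)}
  have hS : S.Finite := by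
    have h1 := ((words_finite (t + 1) (kk t)).prod
      ((Finset.finite_toSet (Finset.range t)).prod (Finset.finite_toSet (Finset.range t))))
    refine (h1.image fun x => Nat.pair (encode x.1) (Nat.pair x.2.1 x.2.2)).subset ?_
    rintro c ⟨p, s, z, ⟨h2, h3, h4, h5⟩, -, rfl⟩
    refine ⟨(p, s, z), ?_, rfl⟩
    refine Set.mem_prod.2 ⟨⟨h2, h3⟩, Set.mem_prod.2 ⟨by simpa using h4, by simpa using h5⟩⟩
  refine ⟨hS.toFinset.toList, ?_⟩
  have hmm : ∀ s p z, okN (t + 1) p → p.length ≤ kk t → s < t → z < t →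
      (mm hS.toFinset.toList s p z ↔ AA φ s (ph φ X p) z) := by
    intro s p z h2 h3 h4 h5
    unfold mm
    rw [Finset.mem_toList, Set.Finite.mem_toFinset]
    constructor
    · rintro ⟨p', s', z', -, h6, h7⟩
      have e1 := congrArg Nat.unpair h7
      rw [Nat.unpair_pair, Nat.unpair_pair] at e1
      have e2 : p = p' := Encodable.encode_injective (congrArg Prod.fst e1)
      have e3 := congrArg Nat.unpair (congrArg Prod.snd e1)
      simp only [Nat.unpair_pair] at e3
      have e4 : s = s' := congrArg Prod.fst e3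
      have e5 : z = z' := congrArg Prod.snd e3
      subst e2 e4 e5
      exact h6
    · intro h6
      exact ⟨p, s, z, ⟨h2, h3, h4, h5⟩, h6, rfl⟩
  intro s hs l hl w hw hk z hz
  have hok : okN (t + 1) (dg (t + 1) l w) := dg_lt (Nat.succ_pos t) l w
  have hln : (dg (t + 1) l w).length = l := dg_length _ _ _
  rw [hmm s (dg (t + 1) l w) z hok (by omega) hs hz]
  refine (sn_aa hY hs hok (by omega) fun q hq hr y hy => ?_).symm
  refine exists_congr fun s' => and_congr_right fun hs' => ?_
  have h3 : ∀ s', s' < s → q.length ≤ kk t := fun s' hs' => by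
    have := kk_step hs'
    omega
  exact hmm s' q y hq (h3 s' hs') (by omega) (by omega)

/-- The finite version of the statement that `z` is in the set of the oracle before stage `t`. -/
def VF (T : List ℕ) (t z : ℕ) : Prop := z < t ∧ VZ (mm T) t ([] : Nd) z

theorem ok_nil (b : ℕ) : okN b [] := fun c hc => absurd hc (by simp)

theorem VF_iff (hY : GdY φ X (YO O) (KY t) t) {T : List ℕ}
    (hG : Good O T t) {z : ℕ} : VF T t z ↔ VZ (AA φ) t X z := by
  have hrk : ([] : Nd).length = 0 := rfl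
  have hmono : ∀ s' < t, kk s' ≤ kk t := fun s' hs' => by
    have := kk_step hs'
    omega
  constructor
  · rintro ⟨h1, s', hs', h2⟩
    refine ⟨s', hs', ?_⟩
    have := hmono s' hs'
    exact (good_mm hY hG s' hs' _ (ok_nil _) (by omega) z h1).1 h2
  · rintro ⟨s', hs', h2⟩
    have h3 := AA_lt h2
    have := hmono s' hs'
    exact ⟨by omega, s', hs', (good_mm hY hG s' hs' _ (ok_nil _) (by omega) z (by omega)).2 h2⟩

end

/-! Rows. -/

def acc (h : ℕ → List Bool → List Bool) (σ : List Bool) (p : Nd) : ℕ → List Bool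
  | 0 => σ
  | t + 1 => h (p.getD (p.length - 1 - t) 0) (acc h σ p t)

def row (h : ℕ → List Bool → List Bool) (σ : List Bool) (p : Nd) : List Bool :=
  acc h σ p p.length

def dN (n : ℕ) : Nd := (decode (α := Nd) n).getD []

theorem dN_enc (p : Nd) : dN (encode p) = p := by
  unfold dN
  rw [encodek]
  rfl

def On (h : ℕ → List Bool → List Bool) (σ : List Bool) : ℕ → Tb
  | 0 => []
  | n + 1 => On h σ n ++ [row h σ (dN n)]

/-- a bound for the codes of the words of length `l` with letters below `b` -/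
def EB (b : ℕ) : ℕ → ℕ
  | 0 => 1
  | l + 1 => Nat.succ (Nat.pair b (EB b l))

theorem EB_mono (b : ℕ) {l l' : ℕ} (h : l ≤ l') : EB b l ≤ EB b l' := by
  induction l', h using Nat.le_induction with
  | base => exact le_rfl
  | succ l' _ ih =>
    refine ih.trans ?_
    have h1 : EB b l' ≤ Nat.pair b (EB b l') := Nat.right_le_pair _ _
    show EB b l' ≤ Nat.succ (Nat.pair b (EB b l'))
    omega

theorem enc_lt {b : ℕ} {p : Nd} (h : okN b p) : encode p < EB b p.length := by
  induction p with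
  | nil => show encode ([] : List ℕ) < 1; simp
  | cons c p ih =>
    have h1 : c < b := h c (by simp)
    have h2 := ih fun x hx => h x (List.mem_cons_of_mem _ hx)
    rw [Encodable.encode_list_cons]
    show Nat.succ (Nat.pair (encode c) (encode p)) < Nat.succ (Nat.pair b (EB b p.length))
    refine Nat.succ_lt_succ ((Nat.pair_lt_pair_left _ ?_).trans (Nat.pair_lt_pair_right _ h2))
    exact h1

/-- a bound for the codes of the nodes used -/
def BK (t : ℕ) : ℕ := EB (t + 1) (KY t)

/-- the rows are long -/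
def Lg (O : Tb) (K N : ℕ) : Prop := ∀ k < K, N ≤ (O.getD k []).length

section rows

variable {φ : ℕ → R → R} {X : R} {h : ℕ → List Bool → List Bool}

theorem On_length (σ : List Bool) (n : ℕ) : (On h σ n).length = n := by
  induction n with
  | zero => rfl
  | succ n ih => rw [On, List.length_append, ih]; rfl

theorem On_getD (σ : List Bool) {n k : ℕ} (hk : k < n) :
    (On h σ n).getD k [] = row h σ (dN k) := by
  induction n with
  | zero => omega
  | succ n ih =>
    rw [On]
    rcases Nat.lt_succ_iff_lt_or_eq.1 hk with h1 | h1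
    · rw [List.getD_append _ _ _ _ (by rw [On_length]; exact h1), ih h1]
    · subst h1
      rw [List.getD_append_right _ _ _ _ (by rw [On_length]), On_length, Nat.sub_self]
      rfl

theorem ph_step (Z : R) (p : Nd) {t : ℕ} (ht : t + 1 ≤ p.length) :
    ph φ Z (p.drop (p.length - (t + 1))) =
      φ (p.getD (p.length - 1 - t) 0) (ph φ Z (p.drop (p.length - t))) := by
  have hi : p.length - (t + 1) < p.length := by omega
  rw [List.drop_eq_getElem_cons hi, show p.length - (t + 1) + 1 = p.length - t by omega,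
    show p.length - 1 - t = p.length - (t + 1) by omega, List.getD_eq_getElem _ _ hi]
  rfl

theorem acc_ok (ha : ∀ c, Apx (h c) (φ c)) (p : Nd) (Z : R) (L t : ℕ)
    (ht : t ≤ p.length) :
    ∃ L', acc h (pre Z L) p t = pre (ph φ Z (p.drop (p.length - t))) L' := by
  induction t with
  | zero =>
    refine ⟨L, ?_⟩
    rw [Nat.sub_zero, List.drop_length]
    rfl
  | succ t ih =>
    obtain ⟨L1, h1⟩ := ih (by omega)
    rw [acc, h1, ph_step Z p ht]
    exact (ha _).ok _ _

theorem acc_long (ha : ∀ c, Apx (h c) (φ c)) (p : Nd) (Z : R) (t : ℕ)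
    (ht : t ≤ p.length) (N : ℕ) : ∃ M, ∀ L ≥ M, N ≤ (acc h (pre Z L) p t).length := by
  induction t generalizing N with
  | zero => exact ⟨N, fun L hL => by rw [acc, length_pre]; exact hL⟩
  | succ t ih =>
    obtain ⟨M1, h1⟩ := (ha (p.getD (p.length - 1 - t) 0)).long
      (ph φ Z (p.drop (p.length - t))) N
    obtain ⟨M, hM⟩ := ih (by omega) M1
    refine ⟨M, fun L hL => ?_⟩
    have h2 := hM L hL
    obtain ⟨L1, h3⟩ := acc_ok ha p Z L t (by omega)
    rw [h3, length_pre] at h2
    rw [acc, h3]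
    exact h1 L1 h2

theorem row_ok (ha : ∀ c, Apx (h c) (φ c)) (L : ℕ) (p : Nd) :
    ∃ L', row h (pre X L) p = pre (ph φ X p) L' := by
  obtain ⟨L2, h2⟩ := acc_ok ha p X L p.length le_rfl
  rw [Nat.sub_self] at h2
  exact ⟨L2, h2⟩

theorem row_long (ha : ∀ c, Apx (h c) (φ c)) (p : Nd) (N : ℕ) :
    ∃ M, ∀ L ≥ M, N ≤ (row h (pre X L) p).length := acc_long ha p X p.length le_rfl N

theorem gd_of_long (ha : ∀ c, Apx (h c) (φ c)) {t L : ℕ}
    (hL : Lg (On h (pre X L) (BK t)) (BK t) t) :
    GdY φ X (YO (On h (pre X L) (BK t))) (KY t) t := by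
  intro p ho hp i hi
  have hk : encode p < BK t := (enc_lt ho).trans_le (EB_mono _ hp)
  have h2 := hL _ hk
  unfold YO
  rw [On_getD _ hk, dN_enc] at h2 ⊢
  obtain ⟨L', h3⟩ := row_ok (X := X) ha L p
  rw [h3, length_pre] at h2
  rw [h3]
  exact ext_pre_eq (by omega)

theorem long_exists (ha : ∀ c, Apx (h c) (φ c)) (K N : ℕ) :
    ∃ M, ∀ L ≥ M, Lg (On h (pre X L) K) K N := by
  obtain ⟨M, hM⟩ := bdd_lt K (fun k L => N ≤ (row h (pre X L) (dN k)).length)
    (fun k _ => row_long ha (dN k) N)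
  refine ⟨M, fun L hL k hk => ?_⟩
  rw [On_getD _ hk]
  exact hM k hk L hL

/-! Computability. -/

theorem comp_acc (hh : Computable₂ h) : Computable fun x : (List Bool × Nd) × ℕ =>
    acc h x.1.1 x.1.2 x.2 := by
  have h0 : Primrec fun w : ((List Bool × Nd) × ℕ) × (ℕ × List Bool) =>
      (w.1.1.2.getD (w.1.1.2.length - 1 - w.2.1) 0 : ℕ) := by fun_prop
  have h1 : Computable₂ fun (x : (List Bool × Nd) × ℕ) (y : ℕ × List Bool) =>
      h (x.1.2.getD (x.1.2.length - 1 - y.1) 0) y.2 :=
    hh.comp h0.to_comp (Computable.snd.comp Computable.snd)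
  have h2 := Computable.nat_rec (f := fun x : (List Bool × Nd) × ℕ => x.2)
    (g := fun x : (List Bool × Nd) × ℕ => x.1.1) Computable.snd
    (Computable.fst.comp Computable.fst) h1
  refine h2.of_eq ?_
  rintro ⟨⟨τ, p⟩, n⟩
  induction n with
  | zero => rfl
  | succ n ih =>
    simp only at ih ⊢
    rw [ih]
    rfl

theorem comp_row (hh : Computable₂ h) :
    Computable fun x : List Bool × Nd => row h x.1 x.2 := by
  have h2 : Primrec fun x : List Bool × Nd => x.2.length := by fun_prop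
  exact (comp_acc hh).comp (Computable.id.pair h2.to_comp)

theorem pf_dN : Primrec dN := by
  have h1 : Primrec fun n : ℕ => (decode (α := Nd) n).getD [] :=
    Primrec.option_getD.comp Primrec.decode (Primrec.const [])
  exact h1

theorem comp_On (hh : Computable₂ h) :
    Computable fun x : List Bool × ℕ => On h x.1 x.2 := by
  have ha : Primrec fun y : Tb × List Bool => y.1 ++ [y.2] := by fun_prop
  have h1 : Computable₂ fun (x : List Bool × ℕ) (y : ℕ × Tb) =>
      y.2 ++ [row h x.1 (dN y.1)] := by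
    have h4 : Computable fun w : (List Bool × ℕ) × (ℕ × Tb) =>
        w.2.2 ++ [row h w.1.1 (dN w.2.1)] :=
      ha.to_comp.comp ((Computable.snd.comp Computable.snd).pair ((comp_row hh).comp
        ((Computable.fst.comp Computable.fst).pair
          (pf_dN.to_comp.comp (Computable.fst.comp Computable.snd)))))
    exact h4
  have h2 := Computable.nat_rec (f := fun x : List Bool × ℕ => x.2)
    (g := fun _ => ([] : Tb)) Computable.snd (Computable.const []) h1
  refine h2.of_eq ?_
  rintro ⟨σ, n⟩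
  induction n with
  | zero => rfl
  | succ n ih =>
    change _ = On h σ n ++ [row h σ (dN n)]
    rw [← ih]

theorem pf_EB {β : Type} [Primcodable β] {b l : β → ℕ} (hb : Primrec b) (hl : Primrec l) :
    Primrec fun x => EB (b x) (l x) := by
  have hh : Primrec₂ fun (x : β) (y : ℕ × ℕ) => Nat.succ (Nat.pair (b x) y.2) := by
    have : Primrec fun z : β × (ℕ × ℕ) => Nat.pair (b z.1) z.2.2 + 1 := by fun_prop
    exact this
  have h := Primrec.nat_rec' (f := l) (g := fun _ => 1) hl (Primrec.const 1) hh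
  refine h.of_eq fun x => ?_
  generalize l x = n
  induction n with
  | zero => rfl
  | succ n ih =>
    change _ = Nat.succ (Nat.pair (b x) (EB (b x) n))
    rw [← ih]

theorem pp_Lg {β : Type} [Primcodable β] {O : β → Tb} {K N : β → ℕ} (hO : Primrec O)
    (hK : Primrec K) (hN : Primrec N) : PrimrecPred fun b => Lg (O b) (K b) (N b) := by
  have h1 : Primrec fun x : β × ℕ => (O x.1).getD x.2 [] := by fun_prop
  exact pp_alllt (by fun_prop) (pp_le (by fun_prop) (pf_length h1))

theorem pf_YO {β : Type} [Primcodable β] {O : β → Tb} {p : β → Nd} {i : β → ℕ} (hO : Primrec O)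
    (hp : Primrec p) (hi : Primrec i) : Primrec fun b => YO (O b) (p b) (i b) :=
  pf_ext (pf_getD hO (pf_encode hp)) hi

theorem pf_eY : Primrec fun x : (Tb × List ℕ) × Nd × ℕ => YO x.1.1 x.2.1 x.2.2 :=
  pf_YO (by fun_prop) (by fun_prop) (by fun_prop)

theorem pp_eV : PrimrecPred fun x : (Tb × List ℕ) × ℕ × Nd × ℕ =>
    VZ (mm x.1.2) x.2.1 x.2.2.1 x.2.2.2 :=
  pp_exlt (by fun_prop) (pp_mem (by fun_prop) (by fun_prop))

@[local fun_prop] theorem pf_kk {β : Type} [Primcodable β] {s : β → ℕ} (hs : Primrec s) :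
    Primrec fun b => kk (s b) := by
  unfold kk
  fun_prop

@[local fun_prop] theorem pf_BK {β : Type} [Primcodable β] {s : β → ℕ} (hs : Primrec s) :
    Primrec fun b => BK (s b) := by
  unfold BK KY
  exact pf_EB (by fun_prop) (by fun_prop)

theorem pp_Good {β : Type} [Primcodable β] {O : β → Tb} {T : β → List ℕ} {t : β → ℕ}
    (hO : Primrec O) (hT : Primrec T) (ht : Primrec t) :
    PrimrecPred fun b => Good (O b) (T b) (t b) := by
  refine pp_alllt (by fun_prop) (pp_alllt (by fun_prop) (pp_alllt (by fun_prop)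
    (pp_imp (pp_le (by fun_prop) (by fun_prop)) (pp_alllt (by fun_prop)
      ?_))))
  have h1 : PrimrecPred fun x : (((β × ℕ) × ℕ) × ℕ) × ℕ =>
      mm (T x.1.1.1.1) x.1.1.1.2 (dg (t x.1.1.1.1 + 1) x.1.1.2 x.1.2) x.2 :=
    pp_mem (by fun_prop) (by fun_prop)
  have h2 : PrimrecPred fun x : (((β × ℕ) × ℕ) × ℕ) × ℕ =>
      SN (YO (O x.1.1.1.1)) (VZ (mm (T x.1.1.1.1))) x.1.1.1.2
        (dg (t x.1.1.1.1 + 1) x.1.1.2 x.1.2) x.2 :=
    pp_SN (Y := fun x : Tb × List ℕ => YO x.1) (V := fun x : Tb × List ℕ => VZ (mm x.2)) pf_eY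
      pp_eV (a := fun x : (((β × ℕ) × ℕ) × ℕ) × ℕ => (O x.1.1.1.1, T x.1.1.1.1))
      (by fun_prop) (by fun_prop) (by fun_prop) (by fun_prop)
  refine ((PrimrecPred.and h1 h2).or (PrimrecPred.and h1.not h2.not)).of_eq fun x => ?_
  tauto

/-- finite conditions on tables -/
theorem si_tab {α : Type} [Primcodable α]
    (ha : ∀ c, Apx (h c) (φ c)) (hh : Computable₂ h) (X : R)
    {Rr : α → Prop} {F : Tb → List ℕ → α → Prop} {κ : α → ℕ}
    (hF : PrimrecPred fun x : (Tb × List ℕ) × α => F x.1.1 x.1.2 x.2) (hκ : Primrec κ)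
    (hR : ∀ a O T, GdY φ X (YO O) (KY (κ a)) (κ a) → Good O T (κ a) →
      (F O T a ↔ Rr a)) : SI X Rr := by
  have hP : S1 fun y : α × List Bool => ∃ T : List ℕ,
      Lg (On h y.2 (BK (κ y.1))) (BK (κ y.1)) (κ y.1) ∧
      Good (On h y.2 (BK (κ y.1))) T (κ y.1) ∧
      F (On h y.2 (BK (κ y.1))) T y.1 := by
    refine S1.ex (p := fun (y : α × List Bool) (T : List ℕ) =>
      Lg (On h y.2 (BK (κ y.1))) (BK (κ y.1)) (κ y.1) ∧
      Good (On h y.2 (BK (κ y.1))) T (κ y.1) ∧
      F (On h y.2 (BK (κ y.1))) T y.1) ?_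
    have h1 : PrimrecPred fun x : Tb × (α × List ℕ) =>
        Lg x.1 (BK (κ x.2.1)) (κ x.2.1) ∧ Good x.1 x.2.2 (κ x.2.1) ∧ F x.1 x.2.2 x.2.1 :=
      PrimrecPred.and (pp_Lg (by fun_prop) (by fun_prop) (by fun_prop))
        (PrimrecPred.and (pp_Good (by fun_prop) (by fun_prop) (by fun_prop))
          (hF.comp (p := fun x : (Tb × List ℕ) × α => F x.1.1 x.1.2 x.2)
            (f := fun x : Tb × (α × List ℕ) => ((x.1, x.2.2), x.2.1)) (by fun_prop)))
    have hb : Primrec fun y : (α × List Bool) × List ℕ => BK (κ y.1.1) := by fun_prop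
    have h2 : Computable fun y : (α × List Bool) × List ℕ =>
        ((y.1.2, BK (κ y.1.1)) : List Bool × ℕ) :=
      (Computable.snd.comp Computable.fst).pair hb.to_comp
    exact (S1.of_prim h1).comp_computable
      (f := fun y : (α × List Bool) × List ℕ => (On h y.1.2 (BK (κ y.1.1)),
        (y.1.1, y.2)))
      (((comp_On hh).comp h2).pair
        ((Computable.fst.comp Computable.fst).pair Computable.snd))
  have h3 : SI X fun a : α => ∃ L, ∃ T : List ℕ,
      Lg (On h (pre X L) (BK (κ a))) (BK (κ a)) (κ a) ∧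
      Good (On h (pre X L) (BK (κ a))) T (κ a) ∧
      F (On h (pre X L) (BK (κ a))) T a :=
    SI.ex (p := fun (a : α) (L : ℕ) => ∃ T : List ℕ,
      Lg (On h (pre X L) (BK (κ a))) (BK (κ a)) (κ a) ∧
      Good (On h (pre X L) (BK (κ a))) T (κ a) ∧
      F (On h (pre X L) (BK (κ a))) T a) (si_gen hP)
  refine h3.of_eq fun a => ?_
  constructor
  · rintro ⟨L, T, h4, h5, h6⟩
    exact (hR a _ T (gd_of_long ha h4) h5).1 h6
  · intro h
    obtain ⟨M, hM⟩ := long_exists (X := X) ha (BK (κ a)) (κ a)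
    have hgd := gd_of_long ha (hM M le_rfl)
    obtain ⟨T, hT⟩ := good_ex hgd
    exact ⟨M, T, hM M le_rfl, hT, (hR a _ T hgd hT).2 h⟩

end rows

end Pool.Agent.TH769.FB
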